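import Pool.Agent.Lib.MP_af3a4a_an.P1.CHK.Arith
import Pool.Agent.Lib.MP_af3a4a_an.P1.CHK.H80.Seg

/-!
# Box layer, part 1: integer check of the end point data `CertE` (council 2, helper11)
-/

set_option autoImplicit false

namespace Pool.Agent.Lib.MP_af3a4a_an.P1.CHK.BOX

open Pool.Agent.Lib.MP_af3a4a_an.P1.H80 (kap ww)
open Pool.Agent.Lib.MP_af3a4a_an.P1.CHK.H80 (CertE)
open Pool.Agent.Lib.MP_af3a4a_an.P1.CHK.Arith

theorem certE_of_bounds {a k l L p q aq P pm d e W A Q2 : ℝ}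
    (a0 : 0 ≤ a) (a1 : a < 1) (hk : 5 / 8 ≤ k)
    (hq : |q| ≤ aq) (hp : |p| ≤ P) (hpm : pm ≤ p)
    (hd : |2 * (k * (1 + a) ^ 2) * p - a| ≤ d) (he : |p - kap a| ≤ e)
    (h1 : k * (1 + a) ^ 2 * aq ^ 2 ≤ Q2) (h1' : Q2 ≤ l)
    (h2 : A ≤ ww a + a * pm - k * (1 + a) ^ 2 * P ^ 2 + l) (h2' : 0 ≤ A)
    (h3 : (d * aq) ^ 2 ≤ 4 * A * (l - Q2))
    (h4 : W ≤ a * pm - L - 1 - Real.log (1 - a ^ 2) / 2 + l) (h4' : 0 ≤ W)
    (h5 : e ^ 2 + aq ^ 2 ≤ W ^ 2) (h6 : P ^ 2 + aq ^ 2 ≤ Real.exp (2 * L)) :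
    CertE a k l L p q := by
  have hK : 0 ≤ k * (1 + a) ^ 2 := mul_nonneg (by linarith) (sq_nonneg _)
  have hq2 : q ^ 2 ≤ aq ^ 2 := by
    rw [← sq_abs]
    exact pow_le_pow_left₀ (abs_nonneg _) hq 2
  have hp2 : p ^ 2 ≤ P ^ 2 := by
    rw [← sq_abs]
    exact pow_le_pow_left₀ (abs_nonneg _) hp 2
  have hKq : k * (1 + a) ^ 2 * q ^ 2 ≤ Q2 := (mul_le_mul_of_nonneg_left hq2 hK).trans h1
  have hKp : k * (1 + a) ^ 2 * p ^ 2 ≤ k * (1 + a) ^ 2 * P ^ 2 := mul_le_mul_of_nonneg_left hp2 hK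
  have hap : a * pm ≤ a * p := mul_le_mul_of_nonneg_left hpm a0
  have hA : A ≤ ww a + a * p - k * (1 + a) ^ 2 * p ^ 2 + l := by linarith
  refine ⟨a0, a1, hk, by linarith, by linarith, ?_, ?_, by linarith⟩
  · have h7 : ((2 * (k * (1 + a) ^ 2) * p - a) * q) ^ 2 ≤ (d * aq) ^ 2 := by
      rw [← sq_abs, abs_mul]
      exact pow_le_pow_left₀ (mul_nonneg (abs_nonneg _) (abs_nonneg _))
        (mul_le_mul hd hq (abs_nonneg _) ((abs_nonneg _).trans hd)) 2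
    refine (h7.trans h3).trans ?_
    have h8 : 0 ≤ l - Q2 := by linarith
    have h9 : l - Q2 ≤ l - k * (1 + a) ^ 2 * q ^ 2 := by linarith
    exact mul_le_mul (by linarith) h9 h8 (by linarith)
  · have h7 : Real.sqrt ((p - kap a) ^ 2 + q ^ 2) ≤ W := by
      apply Real.sqrt_le_iff.2 ⟨h4', ?_⟩
      have : (p - kap a) ^ 2 ≤ e ^ 2 := by
        rw [← sq_abs]
        exact pow_le_pow_left₀ (abs_nonneg _) he 2
      linarith
    linarith

/-- the integer check at one end point; `p ≈ (x1-x2)/2^24`, `q ≈ (y1-y2)/2^24` -/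
def certN (A l nL kL lamL wL eL K Q j x1 x2 y1 y2 : ℕ) : Bool :=
  let P := Nat.add (ad x1 x2) 2
  let q := Nat.add (ad y1 y2) 2
  let PP := Nat.mul P P
  let qq := Nat.mul q q
  let KQ := Nat.succ (Nat.shiftRight (Nat.mul K qq) 45)
  let KP := Nat.succ (Nat.shiftRight (Nat.mul K PP) 45)
  let Ax := Nat.mul A x1
  let Ay := Nat.mul A (Nat.add x2 2)
  let ap := Nat.add (Nat.mul 512 (Nat.add wL l)) Ax
  let an := Nat.add Ay (Nat.mul 512 KP)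
  let wp := Nat.add (Nat.add (Nat.mul 512 (Nat.add lamL l)) Ax) (Nat.mul 268435456 nL)
  let wn := Nat.add Ay 8589934592
  let d := Nat.succ (Nat.shiftRight (Nat.add (ad (Nat.mul K x1)
    (Nat.add (Nat.mul K x2) (Nat.mul 34359738368 A))) (Nat.mul 2 K)) 20)
  let e := Nat.add (ad x1 (Nat.add x2 kL)) 62
  let S2 := Nat.add PP qq
  let dq := Nat.mul d q
  let W := Nat.sub wp wn
  let t := Nat.sub (Nat.mul 3 Q) j
  Nat.ble KQ l && (Nat.ble an ap &&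
    (Nat.ble (Nat.mul dq dq)
        (Nat.mul 2199023255552 (Nat.mul (Nat.sub ap an) (Nat.sub l KQ))) &&
      (Nat.ble wn wp && (Nat.ble (Nat.mul 262144 (Nat.add (Nat.mul e e) qq)) (Nat.mul W W) &&
        (Nat.ble S2 (Nat.mul 16777216 eL) &&
          (Nat.ble (Nat.mul (Nat.mul (Nat.add 512 A) (Nat.add 512 A)) S2) 73786976294838206464 &&
            Nat.ble (Nat.mul (Nat.mul 4 S2) (Nat.mul Q Q))
              (Nat.mul 281474976710656 (Nat.mul t t))))))))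

theorem certN_sound {A l nL kL lamL wL eL K Q j x1 x2 y1 y2 : ℕ} {p q : ℝ} (hA : A < 512)
    (hK : K = 5 * (512 + A) ^ 2) (hQ : 0 < Q) (hj : j ≤ 3 * Q)
    (hp : |p - ((x1 : ℝ) - x2) / 2 ^ 24| ≤ 2 / 2 ^ 24)
    (hq : |q - ((y1 : ℝ) - y2) / 2 ^ 24| ≤ 2 / 2 ^ 24)
    (hk1 : (kL : ℝ) / 2 ^ 24 ≤ kap (A / 512)) (hk2 : kap (A / 512) ≤ ((kL : ℝ) + 60) / 2 ^ 24)
    (hlam : (lamL : ℝ) / 2 ^ 24 ≤ -Real.log (1 - (A / 512) ^ 2) / 2)
    (hw : (wL : ℝ) / 2 ^ 24 ≤ ww (A / 512))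
    (heL : (eL : ℝ) / 2 ^ 24 ≤ Real.exp (2 * (-(nL : ℝ) / 32)))
    (h : certN A l nL kL lamL wL eL K Q j x1 x2 y1 y2 = true) :
    CertE (A / 512) (5 / 8) ((l : ℝ) / 2 ^ 24) (-(nL : ℝ) / 32) p q ∧
      (1 + (A : ℝ) / 512) ^ 2 * (p ^ 2 + q ^ 2) ≤ 1 ∧ 4 * (p ^ 2 + q ^ 2) ≤ (3 - (j : ℝ) / Q) ^ 2 := by
  unfold certN at h
  simp only [Nat.add_eq, Nat.mul_eq, Nat.sub_eq, Nat.succ_eq_add_one, Nat.shiftRight_eq,
    Bool.and_eq_true, Nat.ble_eq] at h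
  obtain ⟨c1, c2, c3, c4, c5, c6, c7, c8⟩ := h
  set P : ℕ := ad x1 x2 + 2 with hP
  set q' : ℕ := ad y1 y2 + 2 with hq'
  set KQ : ℕ := (K * (q' * q')) >>> 45 + 1 with hKQ
  set KP : ℕ := (K * (P * P)) >>> 45 + 1 with hKP
  set d : ℕ := (ad (K * x1) (K * x2 + 34359738368 * A) + 2 * K) >>> 20 + 1 with hd
  set e : ℕ := ad x1 (x2 + kL) + 62 with he
  have hAr : (A : ℝ) < 512 := by exact_mod_cast hA
  have hA0 : (0 : ℝ) ≤ A := Nat.cast_nonneg _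
  have hKr : (K : ℝ) = 5 * (512 + A) ^ 2 := by rw [hK]; push_cast; ring
  have hKa : 5 / 8 * (1 + (A : ℝ) / 512) ^ 2 = K / 2 ^ 21 := by rw [hKr]; ring
  have hQr : (0 : ℝ) < Q := by exact_mod_cast hQ
  have hPr : (P : ℝ) = |(x1 : ℝ) - x2| + 2 := by rw [hP]; push_cast; rw [ad_cast]
  have hqr : (q' : ℝ) = |(y1 : ℝ) - y2| + 2 := by rw [hq']; push_cast; rw [ad_cast]
  have habs : ∀ x y z : ℝ, |x - y / 2 ^ 24| ≤ 2 / 2 ^ 24 → |x| ≤ (|y| + 2) / 2 ^ 24 := by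
    intro x y z h
    have h1 : |x| ≤ |x - y / 2 ^ 24| + |y / 2 ^ 24| := by
      have := abs_add_le (x - y / 2 ^ 24) (y / 2 ^ 24)
      rwa [sub_add_cancel] at this
    rw [abs_div, abs_of_pos (show (0 : ℝ) < 2 ^ 24 by positivity)] at h1
    rw [add_div]
    linarith
  have bp : |p| ≤ (P : ℝ) / 2 ^ 24 := by rw [hPr]; exact habs _ _ 0 hp
  have bq : |q| ≤ (q' : ℝ) / 2 ^ 24 := by rw [hqr]; exact habs _ _ 0 hq
  have bpm : ((x1 : ℝ) - x2 - 2) / 2 ^ 24 ≤ p := by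
    have := (abs_le.1 hp).1
    rw [sub_div]
    linarith
  have bKQ : (K : ℝ) / 2 ^ 21 * ((q' : ℝ) / 2 ^ 24) ^ 2 ≤ (KQ : ℝ) / 2 ^ 24 := by
    have := le_shr (K * (q' * q')) 45
    push_cast at this
    rw [hKQ]
    push_cast
    calc _ = (K : ℝ) * (q' * q') / 2 ^ 45 / 2 ^ 24 := by ring
      _ ≤ _ := div_le_div_of_nonneg_right this (by positivity)
  have bKP : (K : ℝ) / 2 ^ 21 * ((P : ℝ) / 2 ^ 24) ^ 2 ≤ (KP : ℝ) / 2 ^ 24 := by
    have := le_shr (K * (P * P)) 45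
    push_cast at this
    rw [hKP]
    push_cast
    calc _ = (K : ℝ) * (P * P) / 2 ^ 45 / 2 ^ 24 := by ring
      _ ≤ _ := div_le_div_of_nonneg_right this (by positivity)
  have bd : |2 * (5 / 8 * (1 + (A : ℝ) / 512) ^ 2) * p - A / 512| ≤ (d : ℝ) / 2 ^ 24 := by
    rw [hKa]
    have h1 := le_shr (ad (K * x1) (K * x2 + 34359738368 * A) + 2 * K) 20
    rw [← hd] at h1
    push_cast at h1
    rw [ad_cast] at h1
    push_cast at h1
    have h2 : 2 * ((K : ℝ) / 2 ^ 21) * p - A / 512 = (K : ℝ) / 2 ^ 20 * (p - (x1 - x2) / 2 ^ 24) +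
        (K * x1 - (K * x2 + 34359738368 * A)) / 2 ^ 44 := by ring
    rw [h2]
    have h3 := abs_add_le ((K : ℝ) / 2 ^ 20 * (p - ((x1 : ℝ) - x2) / 2 ^ 24))
      (((K : ℝ) * x1 - (K * x2 + 34359738368 * A)) / 2 ^ 44)
    have h4 : |(K : ℝ) / 2 ^ 20 * (p - ((x1 : ℝ) - x2) / 2 ^ 24)| ≤
        (K : ℝ) / 2 ^ 20 * (2 / 2 ^ 24) := by
      have hK20 : (0 : ℝ) ≤ (K : ℝ) / 2 ^ 20 := div_nonneg (Nat.cast_nonneg _) (by norm_num)
      rw [abs_mul, abs_of_nonneg hK20]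
      exact mul_le_mul_of_nonneg_left hp hK20
    rw [abs_div, abs_of_pos (show (0 : ℝ) < 2 ^ 44 by positivity)] at h3
    refine (h3.trans (add_le_add h4 le_rfl)).trans ?_
    rw [le_div_iff₀ (by positivity)]
    refine le_trans (le_of_eq ?_) h1
    ring
  have be : |p - kap (A / 512)| ≤ (e : ℝ) / 2 ^ 24 := by
    have h1 : (e : ℝ) = |(x1 : ℝ) - (x2 + kL)| + 62 := by
      rw [he]; push_cast; rw [ad_cast]; push_cast; ring
    rw [h1]
    have h2 : p - kap (A / 512) = (p - (x1 - x2) / 2 ^ 24) + (x1 - (x2 + kL)) / 2 ^ 24 +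
        ((kL : ℝ) / 2 ^ 24 - kap (A / 512)) := by ring
    have h3 : |((kL : ℝ) / 2 ^ 24 - kap (A / 512))| ≤ 60 / 2 ^ 24 := by
      rw [abs_le]
      constructor
      · have : ((kL : ℝ) + 60) / 2 ^ 24 = kL / 2 ^ 24 + 60 / 2 ^ 24 := by ring
        linarith
      · have : (0 : ℝ) ≤ 60 / 2 ^ 24 := by positivity
        linarith
    rw [h2]
    refine ((abs_add_le _ _).trans (add_le_add (abs_add_le _ _) h3)).trans ?_
    rw [abs_div, abs_of_pos (show (0 : ℝ) < 2 ^ 24 by positivity)]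
    have : (|(x1 : ℝ) - (x2 + kL)| + 62) / 2 ^ 24 = 2 / 2 ^ 24 + |(x1 : ℝ) - (x2 + kL)| / 2 ^ 24 +
      60 / 2 ^ 24 := by ring
    rw [this]
    linarith
  have d1 : (KQ : ℝ) ≤ l := by exact_mod_cast c1
  have d2 : ((A * (x2 + 2) + 512 * KP : ℕ) : ℝ) ≤ ((512 * (wL + l) + A * x1 : ℕ) : ℝ) := by
    exact_mod_cast c2
  have d4 : ((A * (x2 + 2) + 8589934592 : ℕ) : ℝ) ≤
      ((512 * (lamL + l) + A * x1 + 268435456 * nL : ℕ) : ℝ) := by exact_mod_cast c4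
  have d3 : ((d : ℝ) * q') * (d * q') ≤ 2199023255552 *
      (((512 * (wL + l) + A * x1 : ℕ) - (A * (x2 + 2) + 512 * KP : ℕ)) * ((l : ℝ) - KQ)) := by
    have := c3
    rw [← Nat.cast_le (α := ℝ)] at this
    push_cast [Nat.cast_sub c2, Nat.cast_sub c1] at this
    push_cast
    linarith
  have d5 : 262144 * ((e : ℝ) * e + q' * q') ≤
      (((512 * (lamL + l) + A * x1 + 268435456 * nL : ℕ) : ℝ) - (A * (x2 + 2) + 8589934592 : ℕ)) *
      (((512 * (lamL + l) + A * x1 + 268435456 * nL : ℕ) : ℝ) - (A * (x2 + 2) + 8589934592 : ℕ)) := by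
    have := c5
    rw [← Nat.cast_le (α := ℝ)] at this
    push_cast [Nat.cast_sub c4] at this
    push_cast
    linarith
  have d6 : (P : ℝ) * P + q' * q' ≤ 16777216 * eL := by exact_mod_cast c6
  have d7 : (512 + (A : ℝ)) * (512 + A) * (P * P + q' * q') ≤ 73786976294838206464 := by
    exact_mod_cast c7
  have d8 : 4 * ((P : ℝ) * P + q' * q') * (Q * Q) ≤
      281474976710656 * ((3 * Q - j) * (3 * Q - j)) := by
    have := c8
    rw [← Nat.cast_le (α := ℝ)] at this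
    push_cast [Nat.cast_sub hj] at this
    linarith
  push_cast at d2 d3 d4 d5
  have hS : p ^ 2 + q ^ 2 ≤ ((P : ℝ) * P + q' * q') / 2 ^ 48 := by
    have h1 := pow_le_pow_left₀ (abs_nonneg _) bp 2
    have h2 := pow_le_pow_left₀ (abs_nonneg _) bq 2
    rw [sq_abs] at h1 h2
    have : ((P : ℝ) * P + q' * q') / 2 ^ 48 = (P / 2 ^ 24) ^ 2 + (q' / 2 ^ 24) ^ 2 := by ring
    linarith
  refine ⟨?_, ?_, ?_⟩
  · refine certE_of_bounds (aq := (q' : ℝ) / 2 ^ 24) (P := (P : ℝ) / 2 ^ 24)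
      (pm := ((x1 : ℝ) - x2 - 2) / 2 ^ 24) (d := (d : ℝ) / 2 ^ 24) (e := (e : ℝ) / 2 ^ 24)
      (W := ((512 * ((lamL : ℝ) + l) + A * x1 + 268435456 * nL) - (A * (x2 + 2) + 8589934592)) /
        2 ^ 33)
      (A := ((512 * ((wL : ℝ) + l) + A * x1) - (A * (x2 + 2) + 512 * KP)) / 2 ^ 33)
      (Q2 := (KQ : ℝ) / 2 ^ 24) (div_nonneg hA0 (by norm_num)) (by rw [div_lt_one (by norm_num)]; exact hAr)
      le_rfl bq bp bpm bd be ?_ ?_ ?_ ?_ ?_ ?_ ?_ ?_ ?_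
    · rw [hKa]; exact bKQ
    · exact div_le_div_of_nonneg_right d1 (by positivity)
    · rw [hKa]
      have : ((512 * ((wL : ℝ) + l) + A * x1) - (A * (x2 + 2) + 512 * KP)) / 2 ^ 33 =
        (wL : ℝ) / 2 ^ 24 + A / 512 * ((x1 - x2 - 2) / 2 ^ 24) - KP / 2 ^ 24 + l / 2 ^ 24 := by ring
      rw [this]
      linarith
    · exact div_nonneg (by linarith) (by positivity)
    · have e1 : ((d : ℝ) / 2 ^ 24 * (q' / 2 ^ 24)) ^ 2 = (d * q') * (d * q') / 2 ^ 96 := by ring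
      have e2 : 4 * (((512 * ((wL : ℝ) + l) + A * x1) - (A * (x2 + 2) + 512 * KP)) / 2 ^ 33) *
          ((l : ℝ) / 2 ^ 24 - KQ / 2 ^ 24) = 2199023255552 *
          (((512 * ((wL : ℝ) + l) + A * x1) - (A * (x2 + 2) + 512 * KP)) * ((l : ℝ) - KQ)) /
            2 ^ 96 := by ring
      rw [e1, e2]
      exact div_le_div_of_nonneg_right d3 (by positivity)
    · have : ((512 * ((lamL : ℝ) + l) + A * x1 + 268435456 * nL) -
          (A * (x2 + 2) + 8589934592)) / 2 ^ 33 =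
        A / 512 * (((x1 : ℝ) - x2 - 2) / 2 ^ 24) - -(nL : ℝ) / 32 - 1 + lamL / 2 ^ 24 +
          l / 2 ^ 24 := by ring
      rw [this]
      linarith
    · exact div_nonneg (by linarith) (by positivity)
    · have e1 : ((e : ℝ) / 2 ^ 24) ^ 2 + (q' / 2 ^ 24) ^ 2 =
        262144 * (e * e + q' * q') / 2 ^ 66 := by ring
      rw [e1, div_pow, ← pow_mul]
      exact div_le_div_of_nonneg_right (by rw [sq]; exact d5) (by positivity)
    · refine le_trans ?_ heL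
      have e1 : ((P : ℝ) / 2 ^ 24) ^ 2 + (q' / 2 ^ 24) ^ 2 = (P * P + q' * q') / 2 ^ 48 := by ring
      have e2 : (eL : ℝ) / 2 ^ 24 = 16777216 * eL / 2 ^ 48 := by ring
      rw [e1, e2]
      exact div_le_div_of_nonneg_right d6 (by positivity)
  · have h1 := mul_le_mul_of_nonneg_left hS (show (0 : ℝ) ≤ (1 + (A : ℝ) / 512) ^ 2 from sq_nonneg _)
    refine h1.trans ?_
    have : (1 + (A : ℝ) / 512) ^ 2 * (((P : ℝ) * P + q' * q') / 2 ^ 48) =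
      (512 + (A : ℝ)) * (512 + A) * (P * P + q' * q') / 2 ^ 66 := by ring
    rw [this, div_le_one (by positivity)]
    norm_num
    exact d7
  · have h1 : 4 * (p ^ 2 + q ^ 2) ≤ 4 * (((P : ℝ) * P + q' * q') / 2 ^ 48) := by linarith
    refine h1.trans ?_
    have e1 : (3 - (j : ℝ) / Q) ^ 2 = 281474976710656 * ((3 * Q - j) * (3 * Q - j)) /
        (2 ^ 48 * (Q * Q)) := by
      field_simp
      ring
    have e2 : 4 * (((P : ℝ) * P + q' * q') / 2 ^ 48) = 4 * ((P : ℝ) * P + q' * q') * (Q * Q) /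
        (2 ^ 48 * (Q * Q)) := by
      field_simp
    rw [e1, e2]
    exact div_le_div_of_nonneg_right d8 (by positivity)

end Pool.Agent.Lib.MP_af3a4a_an.P1.CHK.BOX
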