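import Pool.Agent.Lib.MP_af3a4a_an.P1.CHK.BOX.Item

/-!
# Box layer: curves, tails, items, trees (council 2, helper11)
-/

set_option autoImplicit false

namespace Pool.Agent.Lib.MP_af3a4a_an.P1.CHK.BOX

open MeasureTheory intervalIntegral ComplexConjugate
open Pool.Agent.Lib.MP_af3a4a_an.SV (uu av sq EE)
open Pool.Agent.Lib.MP_af3a4a_an.P1.H80
open Pool.Agent.Lib.MP_af3a4a_an.P1.CHK.H80
open Pool.Agent.Lib.MP_af3a4a_an.P1.CHK.Arith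

/-- A curve: `m` in the range `r0/4096 ≤ |m| ≤ r1/4096`, `h0/64 ≤ |arg m| ≤ h1/64`; the field `j`
(32 bits) of `cs` is the claim for the node `(j + 1)/Q`, for `j < K`. -/
structure Crv where
  r0 : ℕ
  r1 : ℕ
  h0 : ℕ
  h1 : ℕ
  K : ℕ
  cs : ℕ

/-- the field number `j` -/
def fld (cs j : ℕ) : ℕ := Nat.mod (Nat.shiftRight cs (Nat.mul 32 j)) 4294967296

/-- the claims of a curve are correct -/
def CrvP (Na Nb Q : ℕ) (c : Crv) : Prop :=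
  ∀ N : ℕ, Na ≤ N → N ≤ Nb → ∀ u : Fin N → ℂ, (∀ k, ‖u k‖ ≤ 1) → ∀ r x : ℝ,
    av u = (r : ℂ) * Complex.exp ((x : ℂ) * Complex.I) → (c.r0 : ℝ) / 4096 ≤ r →
    r ≤ (c.r1 : ℝ) / 4096 → (c.h0 : ℝ) / 64 ≤ |x| → |x| ≤ (c.h1 : ℝ) / 64 →
    ∀ j, j < c.K → ((fld c.cs j : ℕ) : ℝ) / 2 ^ 24 ≤
      ((N : ℝ) + 1) * ‖∫ x in (0 : ℝ)..(((j + 1 : ℕ) : ℝ) / Q), qq u x‖

/-- entry number `i` of a list, with default `d` -/
def pick {α : Type} (d : α) (l : List α) : ℕ → α :=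
  List.rec (fun _ => d) (fun c _ ih i => Nat.rec c (fun k _ => ih k) i) l

theorem pick_mem {α : Type} {P : α → Prop} {d : α} (hd : P d) {l : List α} (h : ∀ c ∈ l, P c)
    (i : ℕ) : P (pick d l i) := by
  induction l generalizing i with
  | nil => exact hd
  | cons c l ih =>
    cases i with
    | zero => exact h c (by simp)
    | succ k => exact ih (fun c hc => h c (List.mem_cons_of_mem _ hc)) k

/-- the curve may be used on the box in the direction `th` -/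
def useC (c : Crv) (r0 r1 g0 g1 th : ℕ) : Bool :=
  Nat.ble c.r0 r0 && (Nat.ble r1 c.r1 && (Nat.ble (Nat.add g1 256) (Nat.add th c.h1) &&
    (Nat.ble th (Nat.add (Nat.add g0 256) c.h1) &&
      (Nat.ble c.h0 0 || (Nat.ble (Nat.add th c.h0) (Nat.add g0 256) ||
        Nat.ble (Nat.add (Nat.add g1 256) c.h0) th)))))

/-- the value from a curve at the node `j` -/
def getC (c : Crv) (r0 r1 g0 g1 th j : ℕ) : ℕ :=
  bif useC c r0 r1 g0 g1 th && (Nat.ble 1 j && Nat.ble j c.K) then fld c.cs (Nat.sub j 1) else 0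

section sound

variable {N : ℕ} {z w : Fin N → ℂ} {R : ℝ} {σ : Fin N → ℂ}

theorem val_nonneg (th Q j : ℕ) : 0 ≤ val w th Q j :=
  mul_nonneg (by positivity) (norm_nonneg _)

theorem dirn_norm (th : ℕ) : ‖dirn th‖ = 1 := Complex.norm_exp_ofReal_mul_I _

theorem getC_sound {Na Nb Q : ℕ} {c : Crv} (hc : CrvP Na Nb Q c) (hNa : Na ≤ N) (hNb : N ≤ Nb)
    (hC : Cfg2 N z w R σ) {r0 r1 g0 g1 th j : ℕ} {r γ : ℝ}
    (hm : av (uu w) = (r : ℂ) * Complex.exp ((γ : ℂ) * Complex.I))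
    (hr0 : (r0 : ℝ) / 4096 ≤ r) (hr1 : r ≤ (r1 : ℝ) / 4096)
    (hγ0 : (g0 : ℝ) / 64 ≤ γ) (hγ1 : γ ≤ (g1 : ℝ) / 64) :
    ((getC c r0 r1 g0 g1 th j : ℕ) : ℝ) / 2 ^ 24 ≤ val w th Q j := by
  unfold getC
  cases hb : (useC c r0 r1 g0 g1 th && (Nat.ble 1 j && Nat.ble j c.K)) with
  | false =>
    rw [cond_false, Nat.cast_zero, zero_div]
    exact val_nonneg _ _ _
  | true =>
    rw [cond_true]
    unfold useC at hb
    simp only [Bool.and_eq_true, Bool.or_eq_true, Nat.ble_eq, Nat.add_eq] at hb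
    obtain ⟨⟨b1, b2, b3, b4, b5⟩, b6, b7⟩ := hb
    have b1' : (c.r0 : ℝ) ≤ r0 := by exact_mod_cast b1
    have b2' : (r1 : ℝ) ≤ c.r1 := by exact_mod_cast b2
    have b3' : (g1 : ℝ) + 256 ≤ th + c.h1 := by exact_mod_cast b3
    have b4' : (th : ℝ) ≤ g0 + 256 + c.h1 := by exact_mod_cast b4
    have hav : av (ru w (dirn th)) =
        (r : ℂ) * Complex.exp (((γ - ((th : ℝ) - 256) / 64 : ℝ) : ℂ) * Complex.I) := by
      rw [av_ru, hm, dirn, mul_left_comm, ← Complex.exp_add]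
      congr 2
      push_cast
      ring
    have h1 := hc N hNa hNb (ru w (dirn th)) (fun k => hC.ru_le (dirn_norm th) k) r
      (γ - ((th : ℝ) - 256) / 64) hav (by linarith) (by linarith) ?_ ?_ (j - 1) (by omega)
    · have e : j - 1 + 1 = j := by omega
      rw [e] at h1
      exact h1
    · rcases b5 with b5 | b5 | b5
      · have : c.h0 = 0 := by omega
        rw [this]
        simp
      · have b5' : (th : ℝ) + c.h0 ≤ g0 + 256 := by exact_mod_cast b5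
        have := le_abs_self (γ - ((th : ℝ) - 256) / 64)
        linarith
      · have b5' : (g1 : ℝ) + 256 + c.h0 ≤ th := by exact_mod_cast b5
        have := neg_le_abs (γ - ((th : ℝ) - 256) / 64)
        linarith
    · rw [abs_le]
      constructor <;> linarith

theorem qq_continuous' {N : ℕ} (u : Fin N → ℂ) : Continuous (qq u) := by
  unfold qq
  fun_prop

/-- subtraction of a tail bound -/
theorem sub_tail {th Q js je G T : ℕ} (hj : js ≤ je) (hG : (G : ℝ) / 2 ^ 24 ≤ val w th Q js)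
    (hT : ((N : ℝ) + 1) * ‖∫ x in ((js : ℝ) / Q)..((je : ℝ) / Q), qq (ru w (dirn th)) x‖ ≤
      (T : ℝ) / 2 ^ 24) : ((Nat.sub G T : ℕ) : ℝ) / 2 ^ 24 ≤ val w th Q je := by
  have hcont := qq_continuous' (ru w (dirn th))
  have hint : ∀ a b : ℝ, IntervalIntegrable (qq (ru w (dirn th))) volume a b :=
    fun a b => hcont.intervalIntegrable a b
  have h2 : ∫ x in (0 : ℝ)..((je : ℝ) / Q), qq (ru w (dirn th)) x =
      (∫ x in (0 : ℝ)..((js : ℝ) / Q), qq (ru w (dirn th)) x) +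
        ∫ x in ((js : ℝ) / Q)..((je : ℝ) / Q), qq (ru w (dirn th)) x :=
    (integral_add_adjacent_intervals (hint _ _) (hint _ _)).symm
  have hN0 : (0 : ℝ) ≤ (N : ℝ) + 1 := by positivity
  have h4 : val w th Q js - (T : ℝ) / 2 ^ 24 ≤ val w th Q je := by
    unfold val
    rw [h2]
    have h5 := norm_sub_le ((∫ x in (0 : ℝ)..((js : ℝ) / Q), qq (ru w (dirn th)) x) +
        ∫ x in ((js : ℝ) / Q)..((je : ℝ) / Q), qq (ru w (dirn th)) x)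
        (∫ x in ((js : ℝ) / Q)..((je : ℝ) / Q), qq (ru w (dirn th)) x)
    rw [add_sub_cancel_right] at h5
    have h6 := mul_le_mul_of_nonneg_left h5 hN0
    rw [mul_add] at h6
    linarith
  rw [div_le_iff₀ (by norm_num), Nat.sub_eq]
  apply cast_sub_le _ _ (mul_nonneg (val_nonneg _ _ _) (by norm_num))
  have h6 : (G : ℝ) ≤ val w th Q js * 2 ^ 24 := by
    rw [div_le_iff₀ (by norm_num)] at hG
    exact hG
  have h7 := mul_le_mul_of_nonneg_right h4 (show (0 : ℝ) ≤ 2 ^ 24 by norm_num)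
  rw [sub_mul, div_mul_cancel₀ _ (by norm_num)] at h7
  linarith

end sound

/-! ### the items -/

/-- the bits of `it` from position `s` (`w = 2^n`) -/
def bits (it s w : ℕ) : ℕ := Nat.mod (Nat.shiftRight it s) w

def iTh (it : ℕ) : ℕ := bits it 4 1024
def iOm (it : ℕ) : ℕ := bits it 14 1024
def iA (it : ℕ) : ℕ := bits it 24 256
def iL (it : ℕ) : ℕ := bits it 32 4194304
def iN (it : ℕ) : ℕ := bits it 54 256
def iJe (it : ℕ) : ℕ := bits it 62 1024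
def iCrv (it : ℕ) : ℕ := bits it 72 4096
def iJs (it : ℕ) : ℕ := bits it 84 1024
def iFam (it : ℕ) : ℕ := bits it 94 4096
def iI0 (it : ℕ) : ℕ := bits it 106 256
def iK (it : ℕ) : ℕ := bits it 114 256
def iOmB (it : ℕ) : ℕ := bits it 122 1024
def iX0 (it : ℕ) : ℕ := bits it 132 4096
/-- the selector of the tail: all bits from 144 on -/
def iMask (it : ℕ) : ℕ := Nat.shiftRight it 144

/-- The data of a box: `r0 r1 g0 g1 R0 R1`. -/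
def InBox {N : ℕ} (w : Fin N → ℂ) (R r γ : ℝ) (r0 r1 g0 g1 R0 R1 : ℕ) : Prop :=
  av (uu w) = (r : ℂ) * Complex.exp ((γ : ℂ) * Complex.I) ∧ 0 < r ∧ 0 ≤ γ ∧ γ ≤ Real.pi / 2 ∧
    R * r ≤ 2 * Real.cos γ ∧ (r0 : ℝ) / 4096 ≤ r ∧ r ≤ (r1 : ℝ) / 4096 ∧ (g0 : ℝ) / 64 ≤ γ ∧
    γ ≤ (g1 : ℝ) / 64 ∧ (R0 : ℝ) / 1024 ≤ R ∧ R ≤ (R1 : ℝ) / 1024

/-- the property of the tail function -/
def TlP (Na Nb Q : ℕ) (Tl : ℕ → ℕ → ℕ → ℕ → ℕ → ℕ → ℕ → ℕ) : Prop :=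
  ∀ r0 r1 g0 g1 R0 R1 it N : ℕ, Na ≤ N → N ≤ Nb →
    ∀ (z w : Fin N → ℂ) (R : ℝ) (σ : Fin N → ℂ), Cfg2 N z w R σ →
    ∀ r γ : ℝ, InBox w R r γ r0 r1 g0 g1 R0 R1 → Tl r0 r1 g0 g1 R0 R1 it < 4294967296 →
    ((N : ℝ) + 1) * ‖∫ x in ((iJs it : ℝ) / Q)..((iJe it : ℝ) / Q), qq (ru w (dirn (iTh it))) x‖ ≤
      ((Tl r0 r1 g0 g1 R0 R1 it : ℕ) : ℝ) / 2 ^ 24

/-- the value of the curve used by the item -/
def getG (Tl : ℕ → ℕ → ℕ → ℕ → ℕ → ℕ → ℕ → ℕ) (C : List Crv) (r0 r1 g0 g1 R0 R1 it : ℕ) : ℕ :=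
  bif Nat.ble (iJe it) (iJs it) then
    getC (pick ⟨0, 0, 0, 0, 0, 0⟩ C (iCrv it)) r0 r1 g0 g1 (iTh it) (iJe it)
  else
    Nat.sub (getC (pick ⟨0, 0, 0, 0, 0, 0⟩ C (iCrv it)) r0 r1 g0 g1 (iTh it) (iJs it))
      (Tl r0 r1 g0 g1 R0 R1 it)

theorem fld_lt (cs j : ℕ) : fld cs j < 4294967296 := Nat.mod_lt _ (by norm_num)

theorem getC_lt (c : Crv) (r0 r1 g0 g1 th j : ℕ) : getC c r0 r1 g0 g1 th j < 4294967296 := by
  unfold getC
  cases (useC c r0 r1 g0 g1 th && (Nat.ble 1 j && Nat.ble j c.K)) with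
  | false => rw [cond_false]; norm_num
  | true => rw [cond_true]; exact fld_lt _ _

theorem dflt_ok (Na Nb Q : ℕ) : CrvP Na Nb Q ⟨0, 0, 0, 0, 0, 0⟩ := by
  intro N _ _ u _ r x _ _ _ _ _ j hj
  exact absurd hj (Nat.not_lt_zero j)

theorem getG_sound {Tl : ℕ → ℕ → ℕ → ℕ → ℕ → ℕ → ℕ → ℕ} {Na Nb Q : ℕ} {C : List Crv}
    (hTl : TlP Na Nb Q Tl) (hCr : ∀ c ∈ C, CrvP Na Nb Q c) {r0 r1 g0 g1 R0 R1 it N : ℕ}
    (hNa : Na ≤ N) (hNb : N ≤ Nb) {z w : Fin N → ℂ} {R : ℝ} {σ : Fin N → ℂ}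
    (hC : Cfg2 N z w R σ) {r γ : ℝ} (hB : InBox w R r γ r0 r1 g0 g1 R0 R1) :
    ((getG Tl C r0 r1 g0 g1 R0 R1 it : ℕ) : ℝ) / 2 ^ 24 ≤ val w (iTh it) Q (iJe it) := by
  obtain ⟨hm, hr, hγ, hγ2, hRr, h1, h2, h3, h4, h5, h6⟩ := id hB
  unfold getG
  cases hb : Nat.ble (iJe it) (iJs it) with
  | true =>
    rw [cond_true]
    exact getC_sound (pick_mem (dflt_ok Na Nb Q) hCr _) hNa hNb hC hm h1 h2 h3 h4
  | false =>
    rw [cond_false]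
    have hlt : iJs it < iJe it := by
      by_contra hcon
      rw [Nat.ble_eq_true_of_le (not_lt.1 hcon)] at hb
      exact Bool.noConfusion hb
    by_cases hT : Tl r0 r1 g0 g1 R0 R1 it < 4294967296
    · exact sub_tail hlt.le
        (getC_sound (pick_mem (dflt_ok Na Nb Q) hCr _) hNa hNb hC hm h1 h2 h3 h4)
        (hTl r0 r1 g0 g1 R0 R1 it N hNa hNb z w R σ hC r γ hB hT)
    · have h7 := getC_lt (pick ⟨0, 0, 0, 0, 0, 0⟩ C (iCrv it)) r0 r1 g0 g1 (iTh it) (iJs it)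
      have h8 : Nat.sub (getC (pick ⟨0, 0, 0, 0, 0, 0⟩ C (iCrv it)) r0 r1 g0 g1 (iTh it) (iJs it))
          (Tl r0 r1 g0 g1 R0 R1 it) = 0 := by
        rw [Nat.sub_eq]
        omega
      rw [h8, Nat.cast_zero, zero_div]
      exact val_nonneg _ _ _

/-- no `R` in the cell is possible -/
def itOut (r0 g0 R0 : ℕ) : Bool :=
  Nat.ble g0 201 && Nat.blt (Nat.mul 8388608 (Nat.succ (tc g0)))
    (Nat.add (Nat.mul (Nat.mul r0 R0) 1099511627776) 18446744073709551616)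

theorem itOut_sound {N : ℕ} {w : Fin N → ℂ} {R r γ : ℝ} {r0 r1 g0 g1 R0 R1 : ℕ}
    (hB : InBox w R r γ r0 r1 g0 g1 R0 R1) (h : itOut r0 g0 R0 = true) : False := by
  obtain ⟨hm, hr, hγ, hγ2, hRr, k1, k2, k3, k4, hR0, h6⟩ := hB
  unfold itOut at h
  simp only [Bool.and_eq_true, Nat.ble_eq, Nat.blt_eq, Nat.mul_eq, Nat.add_eq,
    Nat.succ_eq_add_one] at h
  obtain ⟨hg201, hfin⟩ := h
  have hcos : Real.cos γ ≤ Real.cos ((g0 : ℝ) / 64) := by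
    apply Real.cos_le_cos_of_nonneg_of_le_pi (by positivity) _ k3
    linarith [Real.pi_pos]
  have htc := (abs_le.1 (trig_tab (show g0 ≤ 256 by omega)).1).1
  have hfin' : (8388608 : ℝ) * (tc g0 + 1) < r0 * R0 * 1099511627776 + 18446744073709551616 := by
    exact_mod_cast hfin
  have h5 : 2 * Real.cos ((g0 : ℝ) / 64) < (r0 : ℝ) / 4096 * (R0 / 1024) := by
    have h6 : 2 ^ 40 * Real.cos ((g0 : ℝ) / 64) ≤ tc g0 + 1 - 2 ^ 41 := by linarith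
    have h7 : 2 * Real.cos ((g0 : ℝ) / 64) ≤ 2 * ((tc g0 + 1 - 2 ^ 41) / 2 ^ 40) := by
      have : Real.cos ((g0 : ℝ) / 64) ≤ (tc g0 + 1 - 2 ^ 41) / 2 ^ 40 := by
        rw [le_div_iff₀ (by norm_num)]; linarith
      linarith
    refine lt_of_le_of_lt h7 ?_
    have e : (r0 : ℝ) / 4096 * (R0 / 1024) = r0 * R0 * 1099511627776 / (4194304 * 1099511627776) := by
      ring
    have e' : 2 * (((tc g0 : ℝ) + 1 - 2 ^ 41) / 2 ^ 40) =
        (8388608 * (tc g0 + 1) - 18446744073709551616) / (4194304 * 1099511627776) := by ring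
    rw [e, e']
    apply div_lt_div_of_pos_right _ (by norm_num)
    linarith
  have h6 : (r0 : ℝ) / 4096 * (R0 / 1024) ≤ R * r := by
    rw [mul_comm R r]
    exact mul_le_mul k1 hR0 (by positivity) hr.le
  linarith

/-- the item of a leaf; `X` = further kinds (`≥ 4`), with the value of the curve as first argument -/
def item (X : ℕ → ℕ → ℕ → ℕ → ℕ → ℕ → ℕ → ℕ → Bool) (Tl : ℕ → ℕ → ℕ → ℕ → ℕ → ℕ → ℕ → ℕ)
    (Na Nb Q : ℕ) (C : List Crv) (it r0 r1 g0 g1 R0 R1 : ℕ) : Bool :=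
  (fun k =>
    bif Nat.beq k 0 then
      it0 Na Nb Q (iJe it) (iTh it) (iOm it) (iA it) (iL it) (iN it) g0 g1 r0 r1 R0 R1
        (getG Tl C r0 r1 g0 g1 R0 R1 it) else
    bif Nat.beq k 1 then itLoc Na g1 r0 r1 R0 R1 else
    bif Nat.beq k 2 then itNear Na g1 r0 r1 R0 R1 else
    bif Nat.beq k 3 then itOut r0 g0 R0 else
    X (getG Tl C r0 r1 g0 g1 R0 R1 it) it r0 r1 g0 g1 R0 R1) (Nat.mod it 16)

/-- the property of the further kinds of items -/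
def XP (X : ℕ → ℕ → ℕ → ℕ → ℕ → ℕ → ℕ → ℕ → Bool) (Na Nb Q : ℕ) : Prop :=
  ∀ G it r0 r1 g0 g1 R0 R1, X G it r0 r1 g0 g1 R0 R1 = true →
    ∀ N : ℕ, Na ≤ N → N ≤ Nb → ∀ (z w : Fin N → ℂ) (R : ℝ) (σ : Fin N → ℂ), Cfg2 N z w R σ →
    ∀ r γ : ℝ, InBox w R r γ r0 r1 g0 g1 R0 R1 →
    (G : ℝ) / 2 ^ 24 ≤ val w (iTh it) Q (iJe it) → False

theorem item_sound {X : ℕ → ℕ → ℕ → ℕ → ℕ → ℕ → ℕ → ℕ → Bool}
    {Tl : ℕ → ℕ → ℕ → ℕ → ℕ → ℕ → ℕ → ℕ} {Na Nb Q : ℕ} {C : List Crv} (hNa0 : 1 ≤ Na) (hQ : 0 < Q)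
    (hX : XP X Na Nb Q) (hTl : TlP Na Nb Q Tl) (hCr : ∀ c ∈ C, CrvP Na Nb Q c)
    {r0 r1 g0 g1 R0 R1 it N : ℕ} (hNa : Na ≤ N) (hNb : N ≤ Nb) {z w : Fin N → ℂ} {R : ℝ}
    {σ : Fin N → ℂ} (hC : Cfg2 N z w R σ) {r γ : ℝ} (hB : InBox w R r γ r0 r1 g0 g1 R0 R1)
    (h : item X Tl Na Nb Q C it r0 r1 g0 g1 R0 R1 = true) : False := by
  obtain ⟨hm, hr, hγ, hγ2, hRr, h1, h2, h3, h4, h5, h6⟩ := id hB
  have hg : g0 ≤ g1 := by
    have : (g0 : ℝ) ≤ g1 := by linarith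
    exact_mod_cast this
  have hG := getG_sound hTl hCr (it := it) hNa hNb hC hB
  unfold item at h
  simp only at h
  cases hb0 : Nat.beq (Nat.mod it 16) 0 with
  | true =>
    rw [hb0, cond_true] at h
    exact it0_sound hNa0 hNa hNb hQ hg hC hm h1 h2 h3 h4 h5 h6 hG h
  | false =>
    rw [hb0, cond_false] at h
    cases hb1 : Nat.beq (Nat.mod it 16) 1 with
    | true =>
      rw [hb1, cond_true] at h
      exact itLoc_sound hNa hC hm h1 h2 hγ h4 h5 h6 h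
    | false =>
      rw [hb1, cond_false] at h
      cases hb2 : Nat.beq (Nat.mod it 16) 2 with
      | true =>
        rw [hb2, cond_true] at h
        exact itNear_sound hNa hC hm h1 h2 hγ h4 h5 h6 h
      | false =>
        rw [hb2, cond_false] at h
        cases hb3 : Nat.beq (Nat.mod it 16) 3 with
        | true =>
          rw [hb3, cond_true] at h
          exact itOut_sound hB h
        | false =>
          rw [hb3, cond_false] at h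
          exact hX _ it r0 r1 g0 g1 R0 R1 h N hNa hNb z w R σ hC r γ hB hG

/-! ### the tree -/

/-- the tree of boxes: a leaf with its item, splits of `r`, `γ`, `R` (lower part first) -/
inductive Tree where
  | leaf (it : ℕ)
  | sr (m : ℕ) (a b : Tree)
  | sg (m : ℕ) (a b : Tree)
  | sR (m : ℕ) (a b : Tree)

noncomputable def treeOK (f : ℕ → ℕ → ℕ → ℕ → ℕ → ℕ → ℕ → Bool) (t : Tree) :
    ℕ → ℕ → ℕ → ℕ → ℕ → ℕ → Bool :=
  Tree.rec (fun it r0 r1 g0 g1 R0 R1 => f it r0 r1 g0 g1 R0 R1)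
    (fun m _ _ iha ihb r0 r1 g0 g1 R0 R1 =>
      Bool.rec false (ihb m r1 g0 g1 R0 R1) (iha r0 m g0 g1 R0 R1))
    (fun m _ _ iha ihb r0 r1 g0 g1 R0 R1 =>
      Bool.rec false (ihb r0 r1 m g1 R0 R1) (iha r0 r1 g0 m R0 R1))
    (fun m _ _ iha ihb r0 r1 g0 g1 R0 R1 =>
      Bool.rec false (ihb r0 r1 g0 g1 m R1) (iha r0 r1 g0 g1 R0 m)) t

theorem treeOK_sound {f : ℕ → ℕ → ℕ → ℕ → ℕ → ℕ → ℕ → Bool} {N : ℕ} {w : Fin N → ℂ} {R r γ : ℝ}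
    (hf : ∀ it r0 r1 g0 g1 R0 R1, f it r0 r1 g0 g1 R0 R1 = true →
      InBox w R r γ r0 r1 g0 g1 R0 R1 → False) (t : Tree) :
    ∀ r0 r1 g0 g1 R0 R1, treeOK f t r0 r1 g0 g1 R0 R1 = true →
      InBox w R r γ r0 r1 g0 g1 R0 R1 → False := by
  induction t with
  | leaf it => exact fun r0 r1 g0 g1 R0 R1 h => hf it r0 r1 g0 g1 R0 R1 h
  | sr m a b iha ihb =>
    intro r0 r1 g0 g1 R0 R1 h hB
    have h' : Bool.rec false (treeOK f b m r1 g0 g1 R0 R1) (treeOK f a r0 m g0 g1 R0 R1) = true := h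
    obtain ⟨hm, hr, hγ, hγ2, hRr, h1, h2, h3, h4, h5, h6⟩ := hB
    cases hb : treeOK f a r0 m g0 g1 R0 R1 with
    | false =>
      rw [hb] at h'
      exact Bool.noConfusion h'
    | true =>
      rw [hb] at h'
      rcases le_total r ((m : ℝ) / 4096) with h7 | h7
      · exact iha r0 m g0 g1 R0 R1 hb ⟨hm, hr, hγ, hγ2, hRr, h1, h7, h3, h4, h5, h6⟩
      · exact ihb m r1 g0 g1 R0 R1 h' ⟨hm, hr, hγ, hγ2, hRr, h7, h2, h3, h4, h5, h6⟩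
  | sg m a b iha ihb =>
    intro r0 r1 g0 g1 R0 R1 h hB
    have h' : Bool.rec false (treeOK f b r0 r1 m g1 R0 R1) (treeOK f a r0 r1 g0 m R0 R1) = true := h
    obtain ⟨hm, hr, hγ, hγ2, hRr, h1, h2, h3, h4, h5, h6⟩ := hB
    cases hb : treeOK f a r0 r1 g0 m R0 R1 with
    | false =>
      rw [hb] at h'
      exact Bool.noConfusion h'
    | true =>
      rw [hb] at h'
      rcases le_total γ ((m : ℝ) / 64) with h7 | h7
      · exact iha r0 r1 g0 m R0 R1 hb ⟨hm, hr, hγ, hγ2, hRr, h1, h2, h3, h7, h5, h6⟩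
      · exact ihb r0 r1 m g1 R0 R1 h' ⟨hm, hr, hγ, hγ2, hRr, h1, h2, h7, h4, h5, h6⟩
  | sR m a b iha ihb =>
    intro r0 r1 g0 g1 R0 R1 h hB
    have h' : Bool.rec false (treeOK f b r0 r1 g0 g1 m R1) (treeOK f a r0 r1 g0 g1 R0 m) = true := h
    obtain ⟨hm, hr, hγ, hγ2, hRr, h1, h2, h3, h4, h5, h6⟩ := hB
    cases hb : treeOK f a r0 r1 g0 g1 R0 m with
    | false =>
      rw [hb] at h'
      exact Bool.noConfusion h'
    | true =>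
      rw [hb] at h'
      rcases le_total R ((m : ℝ) / 1024) with h7 | h7
      · exact iha r0 r1 g0 g1 R0 m hb ⟨hm, hr, hγ, hγ2, hRr, h1, h2, h3, h4, h5, h7⟩
      · exact ihb r0 r1 g0 g1 m R1 h' ⟨hm, hr, hγ, hγ2, hRr, h1, h2, h3, h4, h7, h6⟩

/-- the whole chunk -/
noncomputable def chunk (X : ℕ → ℕ → ℕ → ℕ → ℕ → ℕ → ℕ → ℕ → Bool)
    (Tl : ℕ → ℕ → ℕ → ℕ → ℕ → ℕ → ℕ → ℕ) (Na Nb Q : ℕ) (C : List Crv)
    (r0 r1 g0 g1 R0 R1 : ℕ) (t : Tree) : Bool :=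
  treeOK (fun it r0 r1 g0 g1 R0 R1 => item X Tl Na Nb Q C it r0 r1 g0 g1 R0 R1) t r0 r1 g0 g1 R0 R1

/-- The statement proved by a chunk: no configuration in normal form with `Na ≤ N ≤ Nb`,
`R0/1024 ≤ R ≤ R1/1024` and `m = r e^{iγ}`, `r0/4096 ≤ r ≤ r1/4096`, `g0/64 ≤ γ ≤ g1/64`. -/
def ChunkP (Na Nb r0 r1 g0 g1 R0 R1 : ℕ) : Prop :=
  ∀ N : ℕ, Na ≤ N → N ≤ Nb → ∀ (z w : Fin N → ℂ) (R : ℝ) (σ : Fin N → ℂ), Cfg2 N z w R σ →
    ∀ r γ : ℝ, InBox w R r γ r0 r1 g0 g1 R0 R1 → False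

theorem chunk_sound {X : ℕ → ℕ → ℕ → ℕ → ℕ → ℕ → ℕ → ℕ → Bool}
    {Tl : ℕ → ℕ → ℕ → ℕ → ℕ → ℕ → ℕ → ℕ} {Na Nb Q : ℕ} {C : List Crv}
    {r0 r1 g0 g1 R0 R1 : ℕ} {t : Tree} (hNa0 : 1 ≤ Na) (hQ : 0 < Q)
    (hX : XP X Na Nb Q) (hTl : TlP Na Nb Q Tl) (hCr : ∀ c ∈ C, CrvP Na Nb Q c)
    (h : chunk X Tl Na Nb Q C r0 r1 g0 g1 R0 R1 t = true) : ChunkP Na Nb r0 r1 g0 g1 R0 R1 :=
  fun _ hNa hNb _ _ _ _ hC _ _ hB =>
    treeOK_sound (fun _ _ _ _ _ _ _ hit hB' => item_sound hNa0 hQ hX hTl hCr hNa hNb hC hB' hit)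
      t r0 r1 g0 g1 R0 R1 h hB

/-- two chunks side by side in `r` -/
theorem ChunkP.r {Na Nb r0 m r1 g0 g1 R0 R1 : ℕ} (h1 : ChunkP Na Nb r0 m g0 g1 R0 R1)
    (h2 : ChunkP Na Nb m r1 g0 g1 R0 R1) : ChunkP Na Nb r0 r1 g0 g1 R0 R1 := by
  intro N hNa hNb z w R σ hC r γ hB
  obtain ⟨hm, hr, hγ, hγ2, hRr, b1, b2, b3, b4, b5, b6⟩ := hB
  rcases le_total r ((m : ℝ) / 4096) with h7 | h7
  · exact h1 N hNa hNb z w R σ hC r γ ⟨hm, hr, hγ, hγ2, hRr, b1, h7, b3, b4, b5, b6⟩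
  · exact h2 N hNa hNb z w R σ hC r γ ⟨hm, hr, hγ, hγ2, hRr, h7, b2, b3, b4, b5, b6⟩

/-- two chunks side by side in `γ` -/
theorem ChunkP.g {Na Nb r0 r1 g0 m g1 R0 R1 : ℕ} (h1 : ChunkP Na Nb r0 r1 g0 m R0 R1)
    (h2 : ChunkP Na Nb r0 r1 m g1 R0 R1) : ChunkP Na Nb r0 r1 g0 g1 R0 R1 := by
  intro N hNa hNb z w R σ hC r γ hB
  obtain ⟨hm, hr, hγ, hγ2, hRr, b1, b2, b3, b4, b5, b6⟩ := hB
  rcases le_total γ ((m : ℝ) / 64) with h7 | h7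
  · exact h1 N hNa hNb z w R σ hC r γ ⟨hm, hr, hγ, hγ2, hRr, b1, b2, b3, h7, b5, b6⟩
  · exact h2 N hNa hNb z w R σ hC r γ ⟨hm, hr, hγ, hγ2, hRr, b1, b2, h7, b4, b5, b6⟩

/-- two chunks side by side in `R` -/
theorem ChunkP.R {Na Nb r0 r1 g0 g1 R0 m R1 : ℕ} (h1 : ChunkP Na Nb r0 r1 g0 g1 R0 m)
    (h2 : ChunkP Na Nb r0 r1 g0 g1 m R1) : ChunkP Na Nb r0 r1 g0 g1 R0 R1 := by
  intro N hNa hNb z w R σ hC r γ hB
  obtain ⟨hm, hr, hγ, hγ2, hRr, b1, b2, b3, b4, b5, b6⟩ := hB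
  rcases le_total R ((m : ℝ) / 1024) with h7 | h7
  · exact h1 N hNa hNb z w R σ hC r γ ⟨hm, hr, hγ, hγ2, hRr, b1, b2, b3, b4, b5, h7⟩
  · exact h2 N hNa hNb z w R σ hC r γ ⟨hm, hr, hγ, hγ2, hRr, b1, b2, b3, b4, h7, b6⟩

/-- The full range of `m` and `0 < R ≤ R1/1024` for `Na ≤ N ≤ Nb`: `γ ≤ π/2 < 101/64`. -/
theorem ChunkP.full {Na Nb R1 : ℕ} (h : ChunkP Na Nb 0 4096 0 101 0 R1) {N : ℕ} (hNa : Na ≤ N)
    (hNb : N ≤ Nb) {z w : Fin N → ℂ} {R : ℝ} {σ : Fin N → ℂ} (hC : Cfg2 N z w R σ) :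
    (R1 : ℝ) / 1024 < R := by
  by_contra hcon
  push Not at hcon
  obtain ⟨r, γ, hr, hr1, hγ, hγ2, hRr, hm⟩ := polar_exists hC
  refine h N hNa hNb z w R σ hC r γ ⟨hm, hr, hγ, hγ2, hRr, ?_, ?_, ?_, ?_, ?_, hcon⟩
  · rw [Nat.cast_zero, zero_div]; exact hr.le
  · push_cast; linarith
  · rw [Nat.cast_zero, zero_div]; exact hγ
  · have := Real.pi_lt_d6
    push_cast
    norm_num at this ⊢
    linarith
  · rw [Nat.cast_zero, zero_div]; exact hC.hR.le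

end Pool.Agent.Lib.MP_af3a4a_an.P1.CHK.BOX
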