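import Pool.Agent.Lib.MP_af3a4a_an.P1.CHK.BOX.Phi

/-!
# Box layer, part 4: ranges of `r cos x`, `r sin x` on a polar box (council 2, helper11)

`r ∈ [r0, r1]/4096`, `x ∈ [h0, h1]/64`, `h1 ≤ 201`.
-/

set_option autoImplicit false

namespace Pool.Agent.Lib.MP_af3a4a_an.P1.CHK.BOX

def mC (r0 r1 h0 : ℕ) : ℕ := bif Nat.ble 2199023255552 (Nat.succ (tc h0)) then r1 else r0
def mA (r0 r1 h0 : ℕ) : ℕ := Nat.succ (Nat.div (Nat.mul (mC r0 r1 h0) (Nat.succ (tc h0))) 4096)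
def mB (r0 r1 h0 : ℕ) : ℕ := Nat.mul (mC r0 r1 h0) 536870912
/-- positive part of the upper bound of `r cos x` -/
def mpF (r0 r1 h0 : ℕ) : ℕ :=
  bif Nat.ble (Nat.sub (mA r0 r1 h0) (mB r0 r1 h0)) 1099511627776 then
    Nat.sub (mA r0 r1 h0) (mB r0 r1 h0) else 1099511627776
/-- negative part of the upper bound of `r cos x` -/
def mnF (r0 r1 h0 : ℕ) : ℕ := Nat.sub (mB r0 r1 h0) (mA r0 r1 h0)

def lC (r0 r1 h1 : ℕ) : ℕ := bif Nat.ble 2199023255552 (Nat.sub (tc h1) 1) then r0 else r1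
def lA (r0 r1 h1 : ℕ) : ℕ := Nat.div (Nat.mul (lC r0 r1 h1) (Nat.sub (tc h1) 1)) 4096
def lB (r0 r1 h1 : ℕ) : ℕ := Nat.mul (lC r0 r1 h1) 536870912
def lpF (r0 r1 h1 : ℕ) : ℕ := Nat.sub (lA r0 r1 h1) (lB r0 r1 h1)
def lnF (r0 r1 h1 : ℕ) : ℕ := Nat.sub (lB r0 r1 h1) (lA r0 r1 h1)

def mi (a b : ℕ) : ℕ := bif Nat.ble a b then a else b
def ma (a b : ℕ) : ℕ := bif Nat.ble a b then b else a

theorem mi_le (a b : ℕ) : mi a b ≤ a ∧ mi a b ≤ b := by
  unfold mi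
  by_cases h : a ≤ b
  · rw [Nat.ble_eq_true_of_le h, cond_true]; exact ⟨le_rfl, h⟩
  · have hb : Nat.ble a b = false := by
      rw [Bool.eq_false_iff, ne_eq, Nat.ble_eq]; exact h
    rw [hb, cond_false]; exact ⟨(not_le.1 h).le, le_rfl⟩

theorem le_ma (a b : ℕ) : a ≤ ma a b ∧ b ≤ ma a b := by
  unfold ma
  by_cases h : a ≤ b
  · rw [Nat.ble_eq_true_of_le h, cond_true]; exact ⟨h, le_rfl⟩
  · have hb : Nat.ble a b = false := by
      rw [Bool.eq_false_iff, ne_eq, Nat.ble_eq]; exact h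
    rw [hb, cond_false]; exact ⟨le_rfl, (not_le.1 h).le⟩

/-- lower bound of `r sin x` -/
def s0F (r0 h0 h1 : ℕ) : ℕ :=
  Nat.div (Nat.mul r0 (Nat.sub (mi (ts h0) (ts h1)) 2199023255553)) 4096
/-- upper bound of `r sin x` -/
def s1F (r1 h0 h1 : ℕ) : ℕ :=
  Nat.succ (Nat.div (Nat.mul r1 (bif Nat.ble h0 100 && Nat.ble 101 h1 then 1099511627776 else
    Nat.sub (ma (ts h0) (ts h1)) 2199023255551)) 4096)
/-- upper bound of `1 - r²` -/
def c1F (r0 : ℕ) : ℕ := Nat.sub 1099511627776 (Nat.mul (Nat.mul r0 r0) 65536)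

theorem pi_gt' : (201 : ℝ) / 64 < Real.pi := by
  have := Real.pi_gt_d6
  norm_num
  linarith

theorem pi_half : (100 : ℝ) / 64 < Real.pi / 2 ∧ Real.pi / 2 < 101 / 64 := by
  have h1 := Real.pi_gt_d6
  have h2 := Real.pi_lt_d6
  constructor
  · norm_num; linarith
  · norm_num; linarith

theorem sub_pair (a b : ℕ) : ((a - b : ℕ) : ℝ) - ((b - a : ℕ) : ℝ) = a - b := by
  rcases le_total a b with h | h
  · rw [Nat.sub_eq_zero_of_le h, Nat.cast_sub h]; push_cast; ring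
  · rw [Nat.sub_eq_zero_of_le h, Nat.cast_sub h]; push_cast; ring

theorem tc_le {h : ℕ} (hh : h ≤ 256) :
    Real.cos (h / 64) ≤ ((tc h : ℝ) + 1 - 2 ^ 41) / 2 ^ 40 ∧
      ((tc h : ℝ) - 1 - 2 ^ 41) / 2 ^ 40 ≤ Real.cos (h / 64) := by
  have h1 := abs_le.1 (trig_tab hh).1
  rw [le_div_iff₀ (by norm_num), div_le_iff₀ (by norm_num)]
  constructor <;> linarith [h1.1, h1.2]

theorem ts_le {h : ℕ} (hh : h ≤ 256) :
    Real.sin (h / 64) ≤ ((ts h : ℝ) + 1 - 2 ^ 41) / 2 ^ 40 ∧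
      ((ts h : ℝ) - 1 - 2 ^ 41) / 2 ^ 40 ≤ Real.sin (h / 64) := by
  have h1 := abs_le.1 (trig_tab hh).2
  rw [le_div_iff₀ (by norm_num), div_le_iff₀ (by norm_num)]
  constructor <;> linarith [h1.1, h1.2]

theorem ble_false {a b : ℕ} (h : ¬ a ≤ b) : Nat.ble a b = false := by
  rw [Bool.eq_false_iff, ne_eq, Nat.ble_eq]; exact h

section

variable {r0 r1 h0 h1 : ℕ} {r x : ℝ} (hh : h1 ≤ 201) (hr0 : (r0 : ℝ) / 4096 ≤ r)
  (hr1 : r ≤ (r1 : ℝ) / 4096) (hr : r ≤ 1) (hx0 : (h0 : ℝ) / 64 ≤ x) (hx1 : x ≤ (h1 : ℝ) / 64)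

include hh hr0 hr1 hr hx0 hx1

theorem mF_spec : r * Real.cos x ≤ ((mpF r0 r1 h0 : ℕ) : ℝ) / 2 ^ 40 - (mnF r0 r1 h0 : ℕ) / 2 ^ 40 := by
  have hh' : (h1 : ℝ) ≤ 201 := by exact_mod_cast hh
  have hr0' : 0 ≤ r := le_trans (div_nonneg (Nat.cast_nonneg _) (by norm_num)) hr0
  have hx0' : 0 ≤ x := le_trans (div_nonneg (Nat.cast_nonneg _) (by norm_num)) hx0
  have h01 : h0 ≤ h1 := by
    have : (h0 : ℝ) ≤ h1 := by linarith
    exact_mod_cast this
  have hxpi : x ≤ Real.pi := by have := pi_gt'; linarith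
  have h2 : Real.cos x ≤ Real.cos (h0 / 64) :=
    Real.cos_le_cos_of_nonneg_of_le_pi (div_nonneg (Nat.cast_nonneg _) (by norm_num)) hxpi hx0
  have h3 := h2.trans (tc_le (show h0 ≤ 256 by omega)).1
  have h4 : r * Real.cos x ≤ ((mA r0 r1 h0 : ℕ) : ℝ) / 2 ^ 40 - (mB r0 r1 h0 : ℕ) / 2 ^ 40 := by
    refine (mul_le_mul_of_nonneg_left h3 hr0').trans ?_
    have h5 : r * (((tc h0 : ℝ) + 1 - 2 ^ 41) / 2 ^ 40) ≤
        (mC r0 r1 h0 : ℝ) / 4096 * (((tc h0 : ℝ) + 1 - 2 ^ 41) / 2 ^ 40) := by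
      unfold mC
      by_cases hb : 2199023255552 ≤ tc h0 + 1
      · rw [Nat.succ_eq_add_one, Nat.ble_eq_true_of_le hb, cond_true]
        apply mul_le_mul_of_nonneg_right hr1
        apply div_nonneg _ (by norm_num)
        have : ((2199023255552 : ℕ) : ℝ) ≤ ((tc h0 + 1 : ℕ) : ℝ) := by exact_mod_cast hb
        push_cast at this
        norm_num
        linarith
      · rw [Nat.succ_eq_add_one, ble_false hb, cond_false]
        apply mul_le_mul_of_nonpos_right hr0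
        apply div_nonpos_of_nonpos_of_nonneg _ (by norm_num)
        have : ((tc h0 + 1 : ℕ) : ℝ) < ((2199023255552 : ℕ) : ℝ) := by exact_mod_cast (not_le.1 hb)
        push_cast at this
        norm_num
        linarith
    refine h5.trans ?_
    have h6 := lt_div' (mC r0 r1 h0 * (tc h0 + 1)) 4096 (by norm_num)
    have h7 : ((mA r0 r1 h0 : ℕ) : ℝ) = ((mC r0 r1 h0 * (tc h0 + 1) / 4096 : ℕ) : ℝ) + 1 := by
      unfold mA
      rw [Nat.succ_eq_add_one, Nat.succ_eq_add_one, ndiv_eq, Nat.mul_eq]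
      push_cast
      ring
    have h8 : ((mB r0 r1 h0 : ℕ) : ℝ) = (mC r0 r1 h0 : ℝ) * 536870912 := by
      unfold mB
      rw [Nat.mul_eq]
      push_cast
      ring
    rw [h7, h8]
    push_cast at h6
    have h9 : (mC r0 r1 h0 : ℝ) / 4096 * (((tc h0 : ℝ) + 1 - 2 ^ 41) / 2 ^ 40) =
      (mC r0 r1 h0 : ℝ) * (tc h0 + 1) / 4096 / 2 ^ 40 - (mC r0 r1 h0 : ℝ) * 536870912 / 2 ^ 40 := by
      ring
    rw [h9]
    have h10 := div_le_div_of_nonneg_right h6 (show (0 : ℝ) ≤ 2 ^ 40 by norm_num)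
    linarith
  have h11 := sub_pair (mA r0 r1 h0) (mB r0 r1 h0)
  unfold mpF mnF
  by_cases hb : mA r0 r1 h0 - mB r0 r1 h0 ≤ 1099511627776
  · rw [Nat.sub_eq, Nat.sub_eq, Nat.ble_eq_true_of_le hb, cond_true, ← sub_div, h11, sub_div]
    exact h4
  · rw [Nat.sub_eq, Nat.sub_eq, ble_false hb, cond_false]
    have h12 : mB r0 r1 h0 - mA r0 r1 h0 = 0 := by omega
    rw [h12]
    have h13 : r * Real.cos x ≤ 1 := by
      have := Real.cos_le_one x
      have := Real.neg_one_le_cos x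
      nlinarith
    refine h13.trans (le_of_eq ?_)
    push_cast
    norm_num

theorem lF_spec : ((lpF r0 r1 h1 : ℕ) : ℝ) / 2 ^ 40 - (lnF r0 r1 h1 : ℕ) / 2 ^ 40 ≤ r * Real.cos x := by
  have hh' : (h1 : ℝ) ≤ 201 := by exact_mod_cast hh
  have hr0' : 0 ≤ r := le_trans (div_nonneg (Nat.cast_nonneg _) (by norm_num)) hr0
  have hx0' : 0 ≤ x := le_trans (div_nonneg (Nat.cast_nonneg _) (by norm_num)) hx0
  have h2 : Real.cos (h1 / 64) ≤ Real.cos x := by
    apply Real.cos_le_cos_of_nonneg_of_le_pi hx0' _ hx1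
    have := pi_gt'
    linarith
  have h2' := (tc_le (show h1 ≤ 256 by omega)).2
  have htc : 1 ≤ tc h1 := by
    have h3 := abs_le.1 (trig_tab (show h1 ≤ 256 by omega)).1
    have h4 := Real.neg_one_le_cos ((h1 : ℝ) / 64)
    have h5 : (1 : ℝ) ≤ tc h1 := by
      have := h3.1
      norm_num at this
      linarith
    exact_mod_cast h5
  have h3 := h2'.trans h2
  have h4 : ((lA r0 r1 h1 : ℕ) : ℝ) / 2 ^ 40 - (lB r0 r1 h1 : ℕ) / 2 ^ 40 ≤ r * Real.cos x := by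
    refine le_trans ?_ (mul_le_mul_of_nonneg_left h3 hr0')
    have h5 : (lC r0 r1 h1 : ℝ) / 4096 * (((tc h1 : ℝ) - 1 - 2 ^ 41) / 2 ^ 40) ≤
        r * (((tc h1 : ℝ) - 1 - 2 ^ 41) / 2 ^ 40) := by
      unfold lC
      by_cases hb : 2199023255552 ≤ tc h1 - 1
      · rw [Nat.sub_eq, Nat.ble_eq_true_of_le hb, cond_true]
        apply mul_le_mul_of_nonneg_right hr0
        apply div_nonneg _ (by norm_num)
        have : ((2199023255552 : ℕ) : ℝ) ≤ ((tc h1 - 1 : ℕ) : ℝ) := by exact_mod_cast hb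
        rw [Nat.cast_sub htc] at this
        push_cast at this
        norm_num
        linarith
      · rw [Nat.sub_eq, ble_false hb, cond_false]
        apply mul_le_mul_of_nonpos_right hr1
        apply div_nonpos_of_nonpos_of_nonneg _ (by norm_num)
        have : ((tc h1 - 1 : ℕ) : ℝ) < ((2199023255552 : ℕ) : ℝ) := by exact_mod_cast (not_le.1 hb)
        rw [Nat.cast_sub htc] at this
        push_cast at this
        have e : (2 : ℝ) ^ 41 = 2199023255552 := by norm_num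
        rw [e]
        linarith
    refine le_trans ?_ h5
    have h6 := div_le' (lC r0 r1 h1 * (tc h1 - 1)) 4096
    have h7 : ((lA r0 r1 h1 : ℕ) : ℝ) = ((lC r0 r1 h1 * (tc h1 - 1) / 4096 : ℕ) : ℝ) := rfl
    have h8 : ((lB r0 r1 h1 : ℕ) : ℝ) = (lC r0 r1 h1 : ℝ) * 536870912 := by
      unfold lB
      rw [Nat.mul_eq]
      push_cast
      ring
    rw [h7, h8]
    push_cast [Nat.cast_sub htc] at h6
    have h9 : (lC r0 r1 h1 : ℝ) / 4096 * (((tc h1 : ℝ) - 1 - 2 ^ 41) / 2 ^ 40) =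
      (lC r0 r1 h1 : ℝ) * (tc h1 - 1) / 4096 / 2 ^ 40 - (lC r0 r1 h1 : ℝ) * 536870912 / 2 ^ 40 := by
      ring
    rw [h9]
    have h10 := div_le_div_of_nonneg_right h6 (show (0 : ℝ) ≤ 2 ^ 40 by norm_num)
    linarith
  have h11 := sub_pair (lA r0 r1 h1) (lB r0 r1 h1)
  unfold lpF lnF
  rw [Nat.sub_eq, Nat.sub_eq, ← sub_div, h11, sub_div]
  exact h4

theorem s0F_spec : ((s0F r0 h0 h1 : ℕ) : ℝ) / 2 ^ 40 ≤ r * Real.sin x := by
  have hh' : (h1 : ℝ) ≤ 201 := by exact_mod_cast hh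
  have hr0' : 0 ≤ r := le_trans (div_nonneg (Nat.cast_nonneg _) (by norm_num)) hr0
  have hx0' : 0 ≤ x := le_trans (div_nonneg (Nat.cast_nonneg _) (by norm_num)) hx0
  have h01 : h0 ≤ h1 := by
    have : (h0 : ℝ) ≤ h1 := by linarith
    exact_mod_cast this
  have hpi := pi_gt'
  have hpi2 := pi_half
  have hm := mi_le (ts h0) (ts h1)
  have hsx : ((Nat.sub (mi (ts h0) (ts h1)) 2199023255553 : ℕ) : ℝ) / 2 ^ 40 ≤ Real.sin x := by
    rw [div_le_iff₀ (by norm_num), Nat.sub_eq]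
    have hs0 : 0 ≤ Real.sin x := Real.sin_nonneg_of_nonneg_of_le_pi hx0' (by linarith)
    apply Arith.cast_sub_le _ _ (by positivity)
    rcases le_total x (Real.pi / 2) with h | h
    · have h2 : Real.sin (h0 / 64) ≤ Real.sin x := by
        apply Real.sin_le_sin_of_le_of_le_pi_div_two _ h hx0
        have : (0 : ℝ) ≤ h0 / 64 := div_nonneg (Nat.cast_nonneg _) (by norm_num)
        linarith
      have h3 := (ts_le (show h0 ≤ 256 by omega)).2
      rw [div_le_iff₀ (by norm_num)] at h3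
      have h4 : ((mi (ts h0) (ts h1) : ℕ) : ℝ) ≤ ts h0 := by exact_mod_cast hm.1
      push_cast
      norm_num at h3 ⊢
      linarith
    · have h2 : Real.sin (h1 / 64) ≤ Real.sin x := by
        rw [← Real.sin_pi_sub (h1 / 64), ← Real.sin_pi_sub x]
        apply Real.sin_le_sin_of_le_of_le_pi_div_two <;> linarith
      have h3 := (ts_le (show h1 ≤ 256 by omega)).2
      rw [div_le_iff₀ (by norm_num)] at h3
      have h4 : ((mi (ts h0) (ts h1) : ℕ) : ℝ) ≤ ts h1 := by exact_mod_cast hm.2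
      push_cast
      norm_num at h3 ⊢
      linarith
  have h5 := div_le' (r0 * (mi (ts h0) (ts h1) - 2199023255553)) 4096
  have h6 : ((s0F r0 h0 h1 : ℕ) : ℝ) = ((r0 * (mi (ts h0) (ts h1) - 2199023255553) / 4096 : ℕ) : ℝ) :=
    rfl
  rw [h6]
  rw [Nat.cast_mul] at h5
  have h7 := div_le_div_of_nonneg_right h5 (show (0 : ℝ) ≤ 2 ^ 40 by norm_num)
  push_cast at h7
  refine h7.trans ?_
  have h8 := mul_le_mul hr0 hsx (div_nonneg (Nat.cast_nonneg _) (by norm_num)) hr0'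
  refine le_trans (le_of_eq ?_) h8
  rw [Nat.sub_eq]
  ring

theorem s1F_spec : r * Real.sin x ≤ ((s1F r1 h0 h1 : ℕ) : ℝ) / 2 ^ 40 := by
  have hh' : (h1 : ℝ) ≤ 201 := by exact_mod_cast hh
  have hr0' : 0 ≤ r := le_trans (div_nonneg (Nat.cast_nonneg _) (by norm_num)) hr0
  have hx0' : 0 ≤ x := le_trans (div_nonneg (Nat.cast_nonneg _) (by norm_num)) hx0
  have h01 : h0 ≤ h1 := by
    have : (h0 : ℝ) ≤ h1 := by linarith
    exact_mod_cast this
  have hpi := pi_gt'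
  have hpi2 := pi_half
  have hm := le_ma (ts h0) (ts h1)
  obtain ⟨T, hT⟩ : ∃ T : ℕ, T = (bif Nat.ble h0 100 && Nat.ble 101 h1 then 1099511627776 else
    Nat.sub (ma (ts h0) (ts h1)) 2199023255551) := ⟨_, rfl⟩
  have hsx : Real.sin x ≤ (T : ℝ) / 2 ^ 40 := by
    rw [le_div_iff₀ (by norm_num), hT]
    by_cases hb : h0 ≤ 100 ∧ 101 ≤ h1
    · rw [Nat.ble_eq_true_of_le hb.1, Nat.ble_eq_true_of_le hb.2, Bool.and_self, cond_true]
      have := Real.sin_le_one x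
      push_cast
      norm_num
      linarith
    · have hb' : (Nat.ble h0 100 && Nat.ble 101 h1) = false := by
        rw [Bool.eq_false_iff, ne_eq, Bool.and_eq_true, Nat.ble_eq, Nat.ble_eq]
        exact hb
      rw [hb', cond_false, Nat.sub_eq]
      refine le_trans ?_ (Arith.sub_le_cast _ _)
      push_cast
      by_cases h1b : h1 ≤ 100
      · have h1r : (h1 : ℝ) ≤ 100 := by exact_mod_cast h1b
        have h2 : Real.sin x ≤ Real.sin (h1 / 64) := by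
          apply Real.sin_le_sin_of_le_of_le_pi_div_two <;> linarith
        have h3 := (ts_le (show h1 ≤ 256 by omega)).1
        rw [le_div_iff₀ (by norm_num)] at h3
        have h4 : (ts h1 : ℝ) ≤ ((ma (ts h0) (ts h1) : ℕ) : ℝ) := by exact_mod_cast hm.2
        norm_num at h3 ⊢
        linarith
      · have h0b : 101 ≤ h0 := by omega
        have h0r : (101 : ℝ) ≤ h0 := by exact_mod_cast h0b
        have h2 : Real.sin x ≤ Real.sin (h0 / 64) := by
          rw [← Real.sin_pi_sub (h0 / 64), ← Real.sin_pi_sub x]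
          apply Real.sin_le_sin_of_le_of_le_pi_div_two <;> linarith
        have h3 := (ts_le (show h0 ≤ 256 by omega)).1
        rw [le_div_iff₀ (by norm_num)] at h3
        have h4 : (ts h0 : ℝ) ≤ ((ma (ts h0) (ts h1) : ℕ) : ℝ) := by exact_mod_cast hm.1
        norm_num at h3 ⊢
        linarith
  have hs0 : 0 ≤ Real.sin x := Real.sin_nonneg_of_nonneg_of_le_pi hx0' (by linarith)
  have h5 := lt_div' (r1 * T) 4096 (by norm_num)
  have h6 : ((s1F r1 h0 h1 : ℕ) : ℝ) = ((r1 * T / 4096 : ℕ) : ℝ) + 1 := by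
    unfold s1F
    rw [← hT, Nat.succ_eq_add_one, ndiv_eq, Nat.mul_eq]
    push_cast
    ring
  rw [h6]
  have h7 : r * Real.sin x ≤ (r1 : ℝ) / 4096 * (T / 2 ^ 40) :=
    mul_le_mul hr1 hsx hs0 (div_nonneg (Nat.cast_nonneg _) (by norm_num))
  refine h7.trans ?_
  rw [Nat.cast_mul] at h5
  have h8 := div_le_div_of_nonneg_right h5 (show (0 : ℝ) ≤ 2 ^ 40 by norm_num)
  push_cast at h8
  refine le_trans (le_of_eq ?_) h8
  ring

theorem c1F_spec : 1 - r ^ 2 ≤ ((c1F r0 : ℕ) : ℝ) / 2 ^ 40 := by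
  have h0' : 0 ≤ (r0 : ℝ) / 4096 := div_nonneg (Nat.cast_nonneg _) (by norm_num)
  have h2 := pow_le_pow_left₀ h0' hr0 2
  rw [le_div_iff₀ (by norm_num)]
  unfold c1F
  rw [Nat.sub_eq]
  refine le_trans ?_ (Arith.sub_le_cast _ _)
  rw [Nat.mul_eq, Nat.mul_eq]
  push_cast
  have h3 : (r0 : ℝ) * r0 * 65536 = ((r0 : ℝ) / 4096) ^ 2 * 2 ^ 40 := by ring
  rw [h3]
  norm_num at h2 ⊢
  nlinarith

end

end Pool.Agent.Lib.MP_af3a4a_an.P1.CHK.BOX
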