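import Pool.Agent.Lib.MP_af3a4a_an.P1.CHK.BOX.Chunk
import Pool.Agent.Lib.MP_af3a4a_an.P1.CHK.BOX.Rng
import Pool.Agent.Lib.MP_af3a4a_an.P1.CHK.Curve.Loops

/-!
# Box layer: the curves (council 2, helper11)
-/

set_option autoImplicit false

namespace Pool.Agent.Lib.MP_af3a4a_an.P1.CHK.BOX

open MeasureTheory intervalIntegral ComplexConjugate
open Pool.Agent.Lib.MP_af3a4a_an.SV (uu av sq EE)
open Pool.Agent.Lib.MP_af3a4a_an.P1.H80
open Pool.Agent.Lib.MP_af3a4a_an.P1.CHK.H80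
open Pool.Agent.Lib.MP_af3a4a_an.P1.CHK.Arith

/-- A curve with its check data. -/
structure CD where
  c : Crv
  mp : ℕ
  mn : ℕ
  lp : ℕ
  ln : ℕ
  s0 : ℕ
  s1 : ℕ
  c1 : ℕ
  phi : ℕ
  K0 : ℕ
  K1 : ℕ
  K2 : ℕ
  t0 : ℕ
  st1 : ℕ
  st2 : ℕ

/-- the check of a curve -/
noncomputable def crvOK (Na Nb Q : ℕ) (d : CD) : Bool :=
  Nat.ble 1 Na && (Nat.ble d.c.h1 201 && (Nat.beq d.mp (mpF d.c.r0 d.c.r1 d.c.h0) &&
    (Nat.beq d.mn (mnF d.c.r0 d.c.r1 d.c.h0) && (Nat.beq d.lp (lpF d.c.r0 d.c.r1 d.c.h1) &&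
      (Nat.beq d.ln (lnF d.c.r0 d.c.r1 d.c.h1) && (Nat.beq d.s0 (s0F d.c.r0 d.c.h0 d.c.h1) &&
        (Nat.beq d.s1 (s1F d.c.r1 d.c.h0 d.c.h1) && (Nat.beq d.c1 (c1F d.c.r0) &&
          (Nat.beq d.c.K (Nat.add (Nat.add d.K0 d.K1) d.K2) &&
            Curve.curve Na Nb Q d.mp d.mn d.lp d.ln d.s0 d.s1 d.c1 d.phi d.K0 d.K1 d.K2 d.t0 d.st1
              d.st2 d.c.cs)))))))))

theorem av_conj {N : ℕ} (u : Fin N → ℂ) : av (fun k => conj (u k)) = conj (av u) := by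
  unfold av
  rw [map_mul, map_sum, map_div₀, map_one, Complex.conj_natCast]

theorem qq_conj {N : ℕ} (u : Fin N → ℂ) (x : ℝ) : qq (fun k => conj (u k)) x = conj (qq u x) := by
  unfold qq
  rw [map_prod]
  refine Finset.prod_congr rfl fun k _ => ?_
  rw [map_sub, map_mul, map_one, Complex.conj_ofReal]

theorem int_conj {N : ℕ} (u : Fin N → ℂ) (t : ℝ) :
    ‖∫ x in (0 : ℝ)..t, qq (fun k => conj (u k)) x‖ = ‖∫ x in (0 : ℝ)..t, qq u x‖ := by
  have h : ∫ x in (0 : ℝ)..t, qq (fun k => conj (u k)) x = conj (∫ x in (0 : ℝ)..t, qq u x) := by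
    rw [← intervalIntegral_conj]
    congr 1
    funext x
    exact qq_conj u x
  rw [h, Complex.norm_conj]

theorem crvOK_sound {Na Nb Q : ℕ} {d : CD} (h : crvOK Na Nb Q d = true) : CrvP Na Nb Q d.c := by
  unfold crvOK at h
  simp only [Bool.and_eq_true, Nat.ble_eq] at h
  obtain ⟨h0, h1, h2, h3, h4, h5, h6, h7, h8, h9, h10⟩ := h
  replace h2 := Nat.eq_of_beq_eq_true h2
  replace h3 := Nat.eq_of_beq_eq_true h3
  replace h4 := Nat.eq_of_beq_eq_true h4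
  replace h5 := Nat.eq_of_beq_eq_true h5
  replace h6 := Nat.eq_of_beq_eq_true h6
  replace h7 := Nat.eq_of_beq_eq_true h7
  replace h8 := Nat.eq_of_beq_eq_true h8
  replace h9 : d.c.K = d.K0 + d.K1 + d.K2 := Nat.eq_of_beq_eq_true h9
  rw [h2, h3, h4, h5, h6, h7, h8] at h10
  -- the case of a nonnegative argument
  have key : ∀ N : ℕ, Na ≤ N → N ≤ Nb → ∀ u : Fin N → ℂ, (∀ k, ‖u k‖ ≤ 1) → ∀ r x : ℝ,
      av u = (r : ℂ) * Complex.exp ((x : ℂ) * Complex.I) → (d.c.r0 : ℝ) / 4096 ≤ r →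
      r ≤ (d.c.r1 : ℝ) / 4096 → (d.c.h0 : ℝ) / 64 ≤ x → x ≤ (d.c.h1 : ℝ) / 64 →
      ∀ j, j < d.c.K → ((fld d.c.cs j : ℕ) : ℝ) / 2 ^ 24 ≤
        ((N : ℝ) + 1) * ‖∫ x in (0 : ℝ)..(((j + 1 : ℕ) : ℝ) / Q), qq u x‖ := by
    intro N hNa hNb u hu r x hav hr0 hr1 hx0 hx1 j hj
    have hr : 0 ≤ r := le_trans (div_nonneg (Nat.cast_nonneg _) (by norm_num)) hr0
    have hn : ‖av u‖ = r := by
      rw [hav, norm_mul, Complex.norm_exp_ofReal_mul_I, mul_one, Complex.norm_real,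
        Real.norm_of_nonneg hr]
    have hr1' : r ≤ 1 := by
      rw [← hn]
      exact av_norm_le (by omega) hu
    have hre : (av u).re = r * Real.cos x := by
      rw [hav, Complex.re_ofReal_mul, Complex.exp_ofReal_mul_I_re]
    have him : (av u).im = r * Real.sin x := by
      rw [hav, Complex.im_ofReal_mul, Complex.exp_ofReal_mul_I_im]
    have e40 : (2 : ℝ) ^ 40 = 1099511627776 := by norm_num
    have s1 := mF_spec h1 hr0 hr1 hr1' hx0 hx1
    have s2 := lF_spec h1 hr0 hr1 hr1' hx0 hx1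
    have s3 := s0F_spec h1 hr0 hr1 hr1' hx0 hx1
    have s4 := s1F_spec h1 hr0 hr1 hr1' hx0 hx1
    have s5 := c1F_spec h1 hr0 hr1 hr1' hx0 hx1
    rw [e40] at s1 s2 s3 s4 s5
    have h11 := Curve.curve_sound hu hNa hNb
      (by rw [hre]; unfold Curve.mr; rw [sub_div]; exact s1)
      (by rw [hre]; unfold Curve.mr; rw [sub_div]; exact s2)
      (by rw [him]; exact s3) (by rw [him]; exact s4) (by rw [hn]; exact s5) h10
      (j := j + 1) (by omega) (by omega)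
    exact h11
  intro N hNa hNb u hu r x hav hr0 hr1 hx0 hx1 j hj
  rcases le_total 0 x with hx | hx
  · rw [abs_of_nonneg hx] at hx0 hx1
    exact key N hNa hNb u hu r x hav hr0 hr1 hx0 hx1 j hj
  · rw [abs_of_nonpos hx] at hx0 hx1
    have h11 := key N hNa hNb (fun k => conj (u k)) (fun k => by rw [Complex.norm_conj]; exact hu k)
      r (-x) (by
        rw [av_conj, hav, map_mul, Complex.conj_ofReal, ← Complex.exp_conj, map_mul,
          Complex.conj_ofReal, Complex.conj_I]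
        congr 2
        push_cast
        ring) hr0 hr1 hx0 hx1 j hj
    rw [int_conj] at h11
    exact h11

end Pool.Agent.Lib.MP_af3a4a_an.P1.CHK.BOX
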