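import Pool.Agent.Lib.MP_af3a4a_an.P1.CHK.BOX.Fast2
import Pool.Agent.Lib.MP_af3a4a_an.P1.CHK.H28.AxItem

/-!
# Box layer: the check used by the data files (council 2, helper11)

All kinds of items: 0 main, 1 corner, 2 near, 3 out, 4 axis (helper28).
-/

set_option autoImplicit false

namespace Pool.Agent.Lib.MP_af3a4a_an.P1.CHK.BOX

open Pool.Agent.Lib.MP_af3a4a_an.P1.CHK.H28 (xAx xAx_ok)

/-- the check of a chunk -/
noncomputable def chkD (Na Nb Q : ℕ) (C : List Crv) (T : List Fam) (r0 r1 g0 g1 R0 R1 : ℕ)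
    (t : Tree) : Bool :=
  an (Nat.ble 1 Na) (an (Nat.ble 1 Q)
    (chunkS (fun G it r0 r1 g0 g1 R0 R1 => xAx Na Nb Q G it r0 r1 g0 g1 R0 R1)
      (fun r0 r1 g0 g1 R0 R1 it => tlR Na Nb Q T r0 r1 g0 g1 R0 R1 it) Na Nb Q C
      r0 r1 g0 g1 R0 R1 t))

theorem chkD_sound {Na Nb Q : ℕ} {C : List Crv} {T : List Fam} {r0 r1 g0 g1 R0 R1 : ℕ} {t : Tree}
    (hCr : ∀ c ∈ C, CrvP Na Nb Q c) (hT : ∀ f ∈ T, FamP Q f)
    (h : chkD Na Nb Q C T r0 r1 g0 g1 R0 R1 t = true) : ChunkP Na Nb r0 r1 g0 g1 R0 R1 := by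
  unfold chkD at h
  simp only [an_eq, Bool.and_eq_true, Nat.ble_eq, tlR_eq] at h
  exact chunkS_sound h.1 h.2.1 (xAx_ok h.1 h.2.1) (tlF_sound hT) hCr h.2.2

end Pool.Agent.Lib.MP_af3a4a_an.P1.CHK.BOX
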