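import Pool.Agent.Lib.MP_af3a4a_an.P1.CHK.BOX.Kap
import Pool.Agent.Lib.MP_af3a4a_an.P1.CHK.BOX.Trig

/-!
# Box layer, part 3: the final inequality (PHI) (council 2, helper11)

Angles: index `i` with offset `256` stands for `(i - 256)/64`.
-/

set_option autoImplicit false

namespace Pool.Agent.Lib.MP_af3a4a_an.P1.CHK.BOX

open Pool.Agent.Lib.MP_af3a4a_an.P1.H80 (kap ww)
open Pool.Agent.Lib.MP_af3a4a_an.P1.CHK.Arith

/-- cosine of `(i - o)/64` in units `2^-40`, offset `2^41` -/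
def cz (o i : ℕ) : ℕ := tc (ad i o)
/-- sine of `(i - o)/64` in units `2^-40`, offset `2^41` -/
def sz (o i : ℕ) : ℕ :=
  bif Nat.ble o i then ts (Nat.sub i o) else Nat.sub 4398046511104 (ts (Nat.sub o i))

theorem cz_spec {o i : ℕ} (h : ad i o ≤ 256) :
    |((cz o i : ℕ) : ℝ) - 2 ^ 41 - 2 ^ 40 * Real.cos (((i : ℝ) - o) / 64)| ≤ 1 := by
  have h1 := (trig_tab h).1
  rw [ad_cast] at h1
  have h2 : Real.cos (|(i : ℝ) - o| / 64) = Real.cos (((i : ℝ) - o) / 64) := by
    rcases abs_cases ((i : ℝ) - o) with ⟨h3, _⟩ | ⟨h3, _⟩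
    · rw [h3]
    · rw [h3, neg_div, Real.cos_neg]
  rw [h2] at h1
  exact h1

theorem sz_spec {o i : ℕ} (h : ad i o ≤ 256) :
    |((sz o i : ℕ) : ℝ) - 2 ^ 41 - 2 ^ 40 * Real.sin (((i : ℝ) - o) / 64)| ≤ 1 := by
  unfold sz
  by_cases hio : o ≤ i
  · rw [Nat.ble_eq_true_of_le hio, cond_true]
    have e : ad i o = i - o := by unfold ad; omega
    rw [e] at h
    have h1 := (trig_tab h).2
    rw [Nat.cast_sub hio] at h1
    exact h1
  · have hb : Nat.ble o i = false := by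
      rw [Bool.eq_false_iff, ne_eq, Nat.ble_eq]
      exact hio
    rw [hb, cond_false]
    have e : ad i o = o - i := by unfold ad; omega
    rw [e] at h
    have h1 := (trig_tab h).2
    rw [Nat.cast_sub (by omega)] at h1
    have h2 : Real.sin (((i : ℝ) - o) / 64) = -Real.sin (((o : ℝ) - i) / 64) := by
      rw [← Real.sin_neg]
      congr 1
      ring
    have h3 : ts (o - i) ≤ 4398046511104 := by
      have h4 := (abs_le.1 h1).2
      have h5 := Real.sin_le_one (((o : ℝ) - i) / 64)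
      have h6 : ((ts (o - i) : ℕ) : ℝ) ≤ 4398046511104 := by
        norm_num at h4
        linarith only [h5, h4]
      exact_mod_cast h6
    show |(((4398046511104 - ts (o - i) : ℕ)) : ℝ) - 2 ^ 41 - _| ≤ 1
    rw [Nat.cast_sub h3, h2]
    rw [abs_le] at h1 ⊢
    push_cast
    norm_num at h1 ⊢
    constructor <;> linarith

/-- the index nearest to `0` of the interval `[i, j]`, offset `o` -/
def nr (o i j : ℕ) : ℕ := Nat.add (Nat.sub i o) (Nat.sub o j)

theorem nr_spec {o i j : ℕ} (hij : i ≤ j) (h : ad i o + nr o i j ≤ 402) (h' : ad j o + nr o i j ≤ 402)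
    {x : ℝ} (h1 : ((i : ℝ) - o) / 64 ≤ x) (h2 : x ≤ ((j : ℝ) - o) / 64) :
    Real.cos x ≤ Real.cos ((nr o i j : ℕ) / 64) := by
  have hpi : (402 : ℝ) / 64 ≤ 2 * Real.pi := by
    have := Real.pi_gt_d6
    norm_num
    linarith only [this]
  have hij' : (i : ℝ) ≤ j := by exact_mod_cast hij
  have hx1 : |x| * 64 ≤ 402 - (nr o i j : ℕ) := by
    have h3 : ((ad i o : ℕ) : ℝ) + (nr o i j : ℕ) ≤ 402 := by exact_mod_cast h
    have h4 : ((ad j o : ℕ) : ℝ) + (nr o i j : ℕ) ≤ 402 := by exact_mod_cast h'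
    rw [ad_cast] at h3 h4
    have h5 : |x| * 64 ≤ max |(i : ℝ) - o| |(j : ℝ) - o| := by
      have h6 : |x * 64| ≤ max |(i : ℝ) - o| |(j : ℝ) - o| := by
        apply abs_le_max_abs_abs <;> [(rw [div_le_iff₀ (by norm_num)] at h1; exact h1);
          (rw [le_div_iff₀ (by norm_num)] at h2; exact h2)]
      rwa [abs_mul, abs_of_pos (show (0 : ℝ) < 64 by norm_num)] at h6
    rcases max_cases |(i : ℝ) - o| |(j : ℝ) - o| with ⟨h7, _⟩ | ⟨h7, _⟩ <;> rw [h7] at h5 <;>
      linarith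
  have hx2 : ((nr o i j : ℕ) : ℝ) ≤ |x| * 64 := by
    unfold nr
    rw [div_le_iff₀ (by norm_num)] at h1
    rw [le_div_iff₀ (by norm_num)] at h2
    rcases le_total o i with h3 | h3
    · have e : Nat.add (i - o) (o - j) = i - o := by
        have : o - j = 0 := by omega
        rw [this]; rfl
      rw [Nat.sub_eq, Nat.sub_eq, e, Nat.cast_sub h3]
      have := le_abs_self x
      linarith only [h1, this]
    · rcases le_total j o with h4 | h4
      · have e : Nat.add (i - o) (o - j) = o - j := by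
          have : i - o = 0 := by omega
          rw [this]; exact Nat.zero_add _
        rw [Nat.sub_eq, Nat.sub_eq, e, Nat.cast_sub h4]
        have := neg_abs_le x
        linarith only [h2, this]
      · have e : Nat.add (i - o) (o - j) = 0 := by
          have h5 : i - o = 0 := by omega
          have h6 : o - j = 0 := by omega
          rw [h5, h6]
        rw [Nat.sub_eq, Nat.sub_eq, e, Nat.cast_zero]
        exact mul_nonneg (abs_nonneg _) (by norm_num)
  have hn0 : (0 : ℝ) ≤ (nr o i j : ℕ) := Nat.cast_nonneg _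
  rw [← Real.cos_abs x]
  obtain ⟨n, hn⟩ : ∃ n : ℝ, n = (nr o i j : ℕ) / 64 := ⟨_, rfl⟩
  rw [← hn]
  have hn1 : n ≤ |x| := by rw [hn, div_le_iff₀ (by norm_num)]; exact hx2
  have hn2 : |x| ≤ 2 * Real.pi - n := by
    rw [hn]
    have : |x| ≤ 402 / 64 - (nr o i j : ℕ) / 64 := by
      rw [← sub_div, le_div_iff₀ (by norm_num)]
      exact hx1
    linarith only [hpi, hx1]
  have hn3 : 0 ≤ n := by rw [hn]; positivity
  rcases le_total |x| Real.pi with h3 | h3
  · exact Real.cos_le_cos_of_nonneg_of_le_pi hn3 h3 hn1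
  · have h4 : Real.cos |x| = Real.cos (2 * Real.pi - |x|) := (Real.cos_two_pi_sub _).symm
    rw [h4]
    exact Real.cos_le_cos_of_nonneg_of_le_pi hn3 (by linarith only [h3]) (by linarith only [hpi, hx1, hn])

theorem ndiv_eq (a b : ℕ) : Nat.div a b = a / b := rfl

/-- the final test -/
def phiN (Na Nb A l Q j th om g0 g1 r0 r1 kL kU lU G : ℕ) : Bool :=
  let ct := cz 256 th
  let co := cz 256 om
  let cto := cz 512 (Nat.add th om)
  let i0 := Nat.add g0 om
  let i1 := Nat.add g1 om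
  let n := nr 256 i0 i1
  let cn := Nat.succ (tc n)
  let Ar := Nat.mul A (bif Nat.ble 2199023255552 cn then r1 else r0)
  let AP := Nat.succ (Nat.div (Nat.mul Ar cn) 2097152)
  let AN := Nat.mul Ar 1048576
  let Aj := Nat.mul A j
  let BP := Nat.succ (Nat.div (Nat.mul Aj 4294967296) Q)
  let BN := Nat.div (Nat.mul Aj (Nat.sub cto 1)) (Nat.mul 512 Q)
  let P1 := Nat.add (Nat.mul (Nat.add lU l) 65536) (Nat.add BP AP)
  let N1 := Nat.add BN AN
  let P0 := Nat.add (Nat.add 1099511627776 AP)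
    (Nat.add (Nat.succ (Nat.div (Nat.mul j 2199023255552) Q))
      (Nat.succ (Nat.div (Nat.mul kU (Nat.sub 2199023255553 co)) 16777216)))
  let N0 := Nat.add AN (Nat.add (Nat.div (Nat.mul j (Nat.sub ct 1)) Q)
    (Nat.div (Nat.mul kL (Nat.sub co 2199023255553)) 16777216))
  let M := bif Nat.ble P1 N1 then Na else Nb
  Nat.ble (Nat.add (ad i0 256) n) 402 && (Nat.ble (Nat.add (ad i1 256) n) 402 &&
    (Nat.ble (ad th 256) 256 && (Nat.ble (ad om 256) 256 &&
      (Nat.ble (ad (Nat.add th om) 512) 256 &&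
        Nat.ble (Nat.mul (es (Nat.add P0 (Nat.mul M P1)) (Nat.add N0 (Nat.mul M N1))) j)
          (Nat.mul (Nat.mul G Q) 65536)))))

theorem phiN_sound {Na Nb A l Q j th om g0 g1 r0 r1 kL kU lU G N : ℕ} {r γ κ Λ : ℝ}
    (hNa : Na ≤ N) (hNb : N ≤ Nb) (hQ : 0 < Q) (hj : 0 < j) (hg : g0 ≤ g1)
    (hr0 : (r0 : ℝ) / 4096 ≤ r) (hr1 : r ≤ (r1 : ℝ) / 4096)
    (hγ0 : (g0 : ℝ) / 64 ≤ γ) (hγ1 : γ ≤ (g1 : ℝ) / 64)
    (hkL : (kL : ℝ) / 2 ^ 24 ≤ κ) (hkU : κ ≤ (kU : ℝ) / 2 ^ 24) (hlU : Λ ≤ (lU : ℝ) / 2 ^ 24)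
    (h : phiN Na Nb A l Q j th om g0 g1 r0 r1 kL kU lU G = true) :
    0 < G ∧ (1 : ℝ) + N * (Λ + (l : ℝ) / 2 ^ 24)
      - (A : ℝ) / 512 * (N * ((j : ℝ) / Q) * Real.cos (((th : ℝ) - 256) / 64 + ((om : ℝ) - 256) / 64)
        - ((N : ℝ) + 1) * (r * Real.cos (γ + ((om : ℝ) - 256) / 64)))
      - (j : ℝ) / Q * Real.cos (((th : ℝ) - 256) / 64) - κ * Real.cos (((om : ℝ) - 256) / 64) ≤
      Real.log ((G : ℝ) / 2 ^ 24 / ((j : ℝ) / Q)) := by
  unfold phiN at h
  simp only [Nat.add_eq, Nat.mul_eq, Nat.sub_eq, Nat.succ_eq_add_one, ndiv_eq,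
    Bool.and_eq_true, Nat.ble_eq] at h
  obtain ⟨c1, c2, c3, c4, c5, c6⟩ := h
  set ct : ℕ := cz 256 th with hct
  set co : ℕ := cz 256 om with hco
  set cto : ℕ := cz 512 (th + om) with hcto
  set n : ℕ := nr 256 (g0 + om) (g1 + om) with hn
  set cn : ℕ := tc n + 1 with hcn
  set rr : ℕ := (bif Nat.ble 2199023255552 cn then r1 else r0) with hrr
  have hQr : (0 : ℝ) < Q := by exact_mod_cast hQ
  have hjr : (0 : ℝ) < j := by exact_mod_cast hj
  have hn256 : n ≤ 256 := by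
    have h1 : n ≤ ad (g0 + om) 256 ∨ n ≤ ad (g1 + om) 256 := by
      rw [hn]; unfold nr ad; simp only [Nat.add_eq, Nat.sub_eq]; omega
    omega
  have sct := cz_spec c3
  have sco := cz_spec c4
  have scto := cz_spec c5
  rw [← hct] at sct
  rw [← hco] at sco
  rw [← hcto] at scto
  have scn := (trig_tab hn256).1
  have hcos : Real.cos (γ + ((om : ℝ) - 256) / 64) ≤ ((cn : ℝ) - 2 ^ 41) / 2 ^ 40 := by
    have h1 := nr_spec (o := 256) (i := g0 + om) (j := g1 + om) (by omega) c1 c2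
      (x := γ + ((om : ℝ) - 256) / 64) (by push_cast; linarith only [hγ0]) (by push_cast; linarith only [hγ1])
    refine h1.trans ?_
    rw [← hn, le_div_iff₀ (by norm_num), hcn]
    push_cast
    have := (abs_le.1 scn).1
    linarith only [this]
  have hrpos : 0 ≤ r := le_trans (by positivity) hr0
  have hρ : r * Real.cos (γ + ((om : ℝ) - 256) / 64) ≤
      (rr : ℝ) / 4096 * (((cn : ℝ) - 2 ^ 41) / 2 ^ 40) := by
    refine (mul_le_mul_of_nonneg_left hcos hrpos).trans ?_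
    by_cases hb : 2199023255552 ≤ cn
    · have e : rr = r1 := by rw [hrr, Nat.ble_eq_true_of_le hb, cond_true]
      rw [e]
      apply mul_le_mul_of_nonneg_right hr1
      apply div_nonneg _ (by norm_num)
      have : ((2199023255552 : ℕ) : ℝ) ≤ cn := by exact_mod_cast hb
      push_cast at this
      norm_num
      linarith only [hb]
    · have hb' : Nat.ble 2199023255552 cn = false := by
        rw [Bool.eq_false_iff, ne_eq, Nat.ble_eq]
        exact hb
      have e : rr = r0 := by rw [hrr, hb', cond_false]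
      rw [e]
      apply mul_le_mul_of_nonpos_right hr0
      apply div_nonpos_of_nonpos_of_nonneg _ (by norm_num)
      have : (cn : ℝ) < ((2199023255552 : ℕ) : ℝ) := by exact_mod_cast (not_le.1 hb)
      push_cast at this
      norm_num
      linarith only [hb]
  set AP : ℕ := A * rr * cn / 2097152 + 1 with hAP
  set AN : ℕ := A * rr * 1048576 with hAN
  set BP : ℕ := A * j * 4294967296 / Q + 1 with hBP
  set BN : ℕ := A * j * (cto - 1) / (512 * Q) with hBN
  set T1 : ℕ := j * 2199023255552 / Q + 1 with hT1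
  set T0 : ℕ := j * (ct - 1) / Q with hT0
  set U1 : ℕ := kU * (2199023255553 - co) / 16777216 + 1 with hU1
  set U0 : ℕ := kL * (co - 2199023255553) / 16777216 with hU0
  have hA0 : (0 : ℝ) ≤ A := Nat.cast_nonneg _
  have cpos : ∀ (c : ℕ) (x : ℝ), |((c : ℕ) : ℝ) - 2 ^ 41 - 2 ^ 40 * Real.cos x| ≤ 1 →
      ((c - 1 : ℕ) : ℝ) = c - 1 := by
    intro c x hc
    have h1 := (abs_le.1 hc).1
    have h2 := Real.neg_one_le_cos x
    have h3 : (1 : ℝ) ≤ c := by norm_num at h1; linarith only [h2, h1]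
    have h4 : 1 ≤ c := by exact_mod_cast h3
    rw [Nat.cast_sub h4, Nat.cast_one]
  have bA : (A : ℝ) / 512 * (r * Real.cos (γ + ((om : ℝ) - 256) / 64)) * 2 ^ 40 ≤ AP - AN := by
    have h1 := lt_div' (A * rr * cn) 2097152 (by norm_num)
    have h2 := mul_le_mul_of_nonneg_left hρ (show (0 : ℝ) ≤ A / 512 by positivity)
    have h3 : (AP : ℝ) - AN = ((A * rr * cn / 2097152 : ℕ) : ℝ) + 1 - A * rr * 1048576 := by
      rw [hAP, hAN]; push_cast; ring
    rw [h3]
    push_cast at h1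
    have h4 : (A : ℝ) / 512 * ((rr : ℝ) / 4096 * (((cn : ℝ) - 2 ^ 41) / 2 ^ 40)) * 2 ^ 40 =
      (A : ℝ) * rr * cn / 2097152 - A * rr * 1048576 := by ring
    have h5 := mul_le_mul_of_nonneg_right h2 (show (0 : ℝ) ≤ 2 ^ 40 by norm_num)
    linarith only [h2, h1]
  have bB : -((A : ℝ) / 512 * ((j : ℝ) / Q) *
      Real.cos (((th : ℝ) - 256) / 64 + ((om : ℝ) - 256) / 64)) * 2 ^ 40 ≤ BP - BN := by
    have h1 := lt_div' (A * j * 4294967296) Q hQ
    have h2 := div_le' (A * j * (cto - 1)) (512 * Q)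
    have e0 : (((th + om : ℕ) : ℝ) - (512 : ℕ)) / 64 =
        ((th : ℝ) - 256) / 64 + ((om : ℝ) - 256) / 64 := by push_cast; ring
    rw [e0] at scto
    have h3 := cpos _ _ scto
    have h4 : (BP : ℝ) - BN = ((A * j * 4294967296 / Q : ℕ) : ℝ) + 1 -
        ((A * j * (cto - 1) / (512 * Q) : ℕ) : ℝ) := by rw [hBP, hBN]; push_cast; ring
    rw [h4]
    push_cast [h3] at h1 h2
    have h5 := (abs_le.1 scto).2
    have h6 : (cto : ℝ) - 1 - 2 ^ 41 ≤
        2 ^ 40 * Real.cos (((th : ℝ) - 256) / 64 + ((om : ℝ) - 256) / 64) := by linarith only [h5]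
    have h7 := mul_le_mul_of_nonneg_left h6 (show (0 : ℝ) ≤ A / 512 * (j / Q) by positivity)
    have h8 : (A : ℝ) / 512 * (j / Q) * ((cto : ℝ) - 1 - 2 ^ 41) =
        (A : ℝ) * j * (cto - 1) / (512 * Q) - A * j * 4294967296 / Q := by
      field_simp
      ring
    linarith only [h1, h2, h7, h8]
  have bT : -((j : ℝ) / Q * Real.cos (((th : ℝ) - 256) / 64)) * 2 ^ 40 ≤ T1 - T0 := by
    have h1 := lt_div' (j * 2199023255552) Q hQ
    have h2 := div_le' (j * (ct - 1)) Q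
    have h3 := cpos _ _ sct
    have h4 : (T1 : ℝ) - T0 = ((j * 2199023255552 / Q : ℕ) : ℝ) + 1 -
        ((j * (ct - 1) / Q : ℕ) : ℝ) := by rw [hT1, hT0]; push_cast; ring
    rw [h4]
    push_cast [h3] at h1 h2
    have h5 := (abs_le.1 sct).2
    push_cast at h5
    have h6 : (ct : ℝ) - 1 - 2 ^ 41 ≤ 2 ^ 40 * Real.cos (((th : ℝ) - 256) / 64) := by linarith only [h5]
    have h7 := mul_le_mul_of_nonneg_left h6 (show (0 : ℝ) ≤ (j : ℝ) / Q by positivity)
    have h8 : (j : ℝ) / Q * ((ct : ℝ) - 1 - 2 ^ 41) =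
        (j : ℝ) * (ct - 1) / Q - j * 2199023255552 / Q := by
      field_simp
      ring
    linarith only [h1, h2, h7, h8]
  have bU : -(κ * Real.cos (((om : ℝ) - 256) / 64)) * 2 ^ 40 ≤ U1 - U0 := by
    have h1 := lt_div' (kU * (2199023255553 - co)) 16777216 (by norm_num)
    have h2 := div_le' (kL * (co - 2199023255553)) 16777216
    have h4 : (U1 : ℝ) - U0 = ((kU * (2199023255553 - co) / 16777216 : ℕ) : ℝ) + 1 -
        ((kL * (co - 2199023255553) / 16777216 : ℕ) : ℝ) := by rw [hU1, hU0]; push_cast; ring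
    rw [h4]
    have h5 := (abs_le.1 sco).2
    have hκ : 0 ≤ κ := le_trans (div_nonneg (Nat.cast_nonneg _) (by norm_num)) hkL
    push_cast at h5
    rcases le_total 2199023255553 co with hc | hc
    · have e1 : 2199023255553 - co = 0 := by omega
      rw [e1, mul_zero] at h1 ⊢
      push_cast [Nat.cast_sub hc] at h1 h2 ⊢
      have h6 : (co : ℝ) - 2199023255553 ≤ 2 ^ 40 * Real.cos (((om : ℝ) - 256) / 64) := by
        norm_num at h5 ⊢; linarith only [h5]
      have h7 : (0 : ℝ) ≤ (co : ℝ) - 2199023255553 := by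
        have : ((2199023255553 : ℕ) : ℝ) ≤ co := by exact_mod_cast hc
        push_cast at this; linarith only [this]
      have h8 : (kL : ℝ) / 2 ^ 24 * ((co : ℝ) - 2199023255553) ≤
          κ * (2 ^ 40 * Real.cos (((om : ℝ) - 256) / 64)) :=
        mul_le_mul hkL h6 h7 hκ
      have h9 : (kL : ℝ) / 2 ^ 24 * ((co : ℝ) - 2199023255553) =
        (kL : ℝ) * (co - 2199023255553) / 16777216 := by ring
      norm_num at h1 ⊢
      linarith only [h2, h8]
    · have e1 : co - 2199023255553 = 0 := by omega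
      rw [e1, mul_zero] at h2 ⊢
      push_cast [Nat.cast_sub hc] at h1 h2 ⊢
      have h6 : -(2 ^ 40 * Real.cos (((om : ℝ) - 256) / 64)) ≤ 2199023255553 - (co : ℝ) := by
        norm_num at h5 ⊢; linarith only [h5]
      have h7 : (0 : ℝ) ≤ 2199023255553 - (co : ℝ) := by
        have : (co : ℝ) ≤ ((2199023255553 : ℕ) : ℝ) := by exact_mod_cast hc
        push_cast at this; linarith only [this]
      have h8 : κ * -(2 ^ 40 * Real.cos (((om : ℝ) - 256) / 64)) ≤
          (kU : ℝ) / 2 ^ 24 * (2199023255553 - co) :=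
        (mul_le_mul_of_nonneg_left h6 hκ).trans (mul_le_mul_of_nonneg_right hkU h7)
      have h9 : (kU : ℝ) / 2 ^ 24 * (2199023255553 - co) =
        (kU : ℝ) * (2199023255553 - co) / 16777216 := by ring
      norm_num at h2 ⊢
      linarith only [h1, h8]
  set P1 : ℕ := (lU + l) * 65536 + (BP + AP) with hP1
  set N1 : ℕ := BN + AN with hN1
  set P0 : ℕ := 1099511627776 + AP + (T1 + U1) with hP0
  set N0 : ℕ := AN + (T0 + U0) with hN0
  set M : ℕ := (bif Nat.ble P1 N1 then Na else Nb) with hM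
  have hNar : (Na : ℝ) ≤ N := by exact_mod_cast hNa
  have hNbr : (N : ℝ) ≤ Nb := by exact_mod_cast hNb
  have hlin : (N : ℝ) * ((P1 : ℝ) - N1) ≤ M * ((P1 : ℝ) - N1) := by
    by_cases hb : P1 ≤ N1
    · have e : M = Na := by rw [hM, Nat.ble_eq_true_of_le hb, cond_true]
      have h1 : (P1 : ℝ) ≤ N1 := by exact_mod_cast hb
      rw [e]
      exact mul_le_mul_of_nonpos_right hNar (by linarith only [h1])
    · have hb' : Nat.ble P1 N1 = false := by
        rw [Bool.eq_false_iff, ne_eq, Nat.ble_eq]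
        exact hb
      have e : M = Nb := by rw [hM, hb', cond_false]
      have h1 : (N1 : ℝ) ≤ P1 := by exact_mod_cast (not_le.1 hb).le
      rw [e]
      exact mul_le_mul_of_nonneg_right hNbr (by linarith only [h1])
  have hN0r : (0 : ℝ) ≤ N := Nat.cast_nonneg _
  obtain ⟨E, hE⟩ : ∃ E : ℝ, E = (1 : ℝ) + N * (Λ + (l : ℝ) / 2 ^ 24)
      - (A : ℝ) / 512 * (N * ((j : ℝ) / Q) * Real.cos (((th : ℝ) - 256) / 64 + ((om : ℝ) - 256) / 64)
        - ((N : ℝ) + 1) * (r * Real.cos (γ + ((om : ℝ) - 256) / 64)))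
      - (j : ℝ) / Q * Real.cos (((th : ℝ) - 256) / 64) - κ * Real.cos (((om : ℝ) - 256) / 64) :=
    ⟨_, rfl⟩
  rw [← hE]
  have hEb : E * 2 ^ 40 ≤ (((P0 + M * P1 : ℕ) : ℝ) - ((N0 + M * N1 : ℕ) : ℝ)) := by
    have h1 := mul_le_mul_of_nonneg_left bA (show (0 : ℝ) ≤ (N : ℝ) + 1 by linarith only [])
    have h2 := mul_le_mul_of_nonneg_left bB hN0r
    have h3 : N * (Λ + (l : ℝ) / 2 ^ 24) * 2 ^ 40 ≤ N * (((lU : ℝ) + l) * 65536) := by
      have : (Λ + (l : ℝ) / 2 ^ 24) * 2 ^ 40 ≤ ((lU : ℝ) + l) * 65536 := by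
        norm_num at hlU ⊢
        linarith only [hlU]
      have := mul_le_mul_of_nonneg_left this hN0r
      linarith only [this]
    have e1 : (((P0 + M * P1 : ℕ) : ℝ) - ((N0 + M * N1 : ℕ) : ℝ)) =
        (1099511627776 + AP + (T1 + U1)) - (AN + (T0 + U0)) + M * ((P1 : ℝ) - N1) := by
      rw [hP0, hN0]; push_cast; ring
    have e2 : (N : ℝ) * ((P1 : ℝ) - N1) = N * (((lU : ℝ) + l) * 65536) + N * ((BP : ℝ) - BN) +
        N * ((AP : ℝ) - AN) := by
      rw [hP1, hN1]; push_cast; ring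
    rw [e1]
    have e3 : E * 2 ^ 40 = 1099511627776 + N * (Λ + (l : ℝ) / 2 ^ 24) * 2 ^ 40 +
        N * (-((A : ℝ) / 512 * ((j : ℝ) / Q) *
          Real.cos (((th : ℝ) - 256) / 64 + ((om : ℝ) - 256) / 64)) * 2 ^ 40) +
        ((N : ℝ) + 1) * ((A : ℝ) / 512 * (r * Real.cos (γ + ((om : ℝ) - 256) / 64)) * 2 ^ 40) +
        (-((j : ℝ) / Q * Real.cos (((th : ℝ) - 256) / 64)) * 2 ^ 40) +
        (-(κ * Real.cos (((om : ℝ) - 256) / 64)) * 2 ^ 40) := by
      rw [hE]; ring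
    rw [e3]
    linarith only [bT, bU, hlin, h1, h2, h3, e2]
  have hes := es_spec (P0 + M * P1) (N0 + M * N1)
  have hexp : Real.exp E ≤ (es (P0 + M * P1) (N0 + M * N1) : ℝ) / 2 ^ 40 := by
    refine le_trans (Real.exp_le_exp.2 ?_) hes
    rw [← sub_div, le_div_iff₀ (by norm_num)]
    exact hEb
  have c6' : ((es (P0 + M * P1) (N0 + M * N1) : ℕ) : ℝ) * j ≤ G * Q * 65536 := by exact_mod_cast c6
  have hfin : Real.exp E ≤ (G : ℝ) / 2 ^ 24 / ((j : ℝ) / Q) := by
    refine hexp.trans ?_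
    rw [div_div_eq_mul_div, div_mul_eq_mul_div, div_div,
      div_le_div_iff₀ (by norm_num) (mul_pos (by norm_num) hjr)]
    have : (es (P0 + M * P1) (N0 + M * N1) : ℝ) * (2 ^ 24 * j) =
      2 ^ 24 * ((es (P0 + M * P1) (N0 + M * N1) : ℝ) * j) := by ring
    rw [this]
    have := mul_le_mul_of_nonneg_left c6' (show (0 : ℝ) ≤ 2 ^ 24 by norm_num)
    refine this.trans (le_of_eq ?_)
    ring
  have hGpos : 0 < (G : ℝ) / 2 ^ 24 / ((j : ℝ) / Q) := lt_of_lt_of_le (Real.exp_pos _) hfin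
  constructor
  · rcases Nat.eq_zero_or_pos G with h0 | h0
    · rw [h0] at hGpos
      simp at hGpos
    · exact h0
  · rw [Real.le_log_iff_exp_le hGpos]
    exact hfin

end Pool.Agent.Lib.MP_af3a4a_an.P1.CHK.BOX
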