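import Pool.Agent.Lib.MP_af3a4a_an.P1.CHK.BOX.Cert
import Pool.Agent.Lib.MP_af3a4a_an.P1.CHK.BOX.Kap
import Pool.Agent.Lib.MP_af3a4a_an.P1.CHK.BOX.Phi

/-!
# Box layer: the main item (council 2, helper11)

Coordinates of `R - y`, `y = (j/Q) e^{-iθ}`, with respect to `e = e^{iω}`, and the soundness of the
main item (T2 curve value `G`, loss certificate at the two ends of an `R`-segment).
-/

set_option autoImplicit false

namespace Pool.Agent.Lib.MP_af3a4a_an.P1.CHK.BOX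

open MeasureTheory intervalIntegral ComplexConjugate
open Pool.Agent.Lib.MP_af3a4a_an.SV (uu av sq EE)
open Pool.Agent.Lib.MP_af3a4a_an.P1.H80
open Pool.Agent.Lib.MP_af3a4a_an.P1.CHK.H80
open Pool.Agent.Lib.MP_af3a4a_an.P1.CHK.Arith

/-- `(R Q u + 1024 j v)/(2^26 Q)` -/
def eA (R j Q u v : ℕ) : ℕ :=
  Nat.div (Nat.add (Nat.mul (Nat.mul R Q) u) (Nat.mul (Nat.mul 1024 j) v)) (Nat.mul 67108864 Q)

theorem eA_spec {R j Q u v : ℕ} {x y : ℝ} (hQ : 0 < Q) (hj : j ≤ 3 * Q) (hR : R ≤ 4096)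
    (hu : |(u : ℝ) - 2 ^ 41 - 2 ^ 40 * x| ≤ 1) (hv : |(v : ℝ) - 2 ^ 41 - 2 ^ 40 * y| ≤ 1) :
    |((R : ℝ) / 1024 * x - (j : ℝ) / Q * y) -
      (((eA R j Q u 2199023255552 : ℕ) : ℝ) - (eA R j Q 2199023255552 v : ℕ)) / 2 ^ 24| ≤
      2 / 2 ^ 24 := by
  have hQr : (0 : ℝ) < Q := by exact_mod_cast hQ
  have hjr : (j : ℝ) ≤ 3 * Q := by exact_mod_cast hj
  have hRr : (R : ℝ) ≤ 4096 := by exact_mod_cast hR
  have hR0 : (0 : ℝ) ≤ R := Nat.cast_nonneg _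
  have hj0 : (0 : ℝ) ≤ j := Nat.cast_nonneg _
  have e1 : (eA R j Q u 2199023255552 : ℕ) = (R * Q * u + 1024 * j * 2199023255552) / (67108864 * Q) := rfl
  have e2 : (eA R j Q 2199023255552 v : ℕ) = (R * Q * 2199023255552 + 1024 * j * v) / (67108864 * Q) := rfl
  have hp : 0 < 67108864 * Q := by positivity
  have a1 := div_le' (R * Q * u + 1024 * j * 2199023255552) (67108864 * Q)
  have a2 := lt_div' (R * Q * u + 1024 * j * 2199023255552) (67108864 * Q) hp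
  have b1 := div_le' (R * Q * 2199023255552 + 1024 * j * v) (67108864 * Q)
  have b2 := lt_div' (R * Q * 2199023255552 + 1024 * j * v) (67108864 * Q) hp
  rw [← e1] at a1 a2
  rw [← e2] at b1 b2
  generalize ((eA R j Q u 2199023255552 : ℕ) : ℝ) = X at *
  generalize ((eA R j Q 2199023255552 v : ℕ) : ℝ) = Y at *
  push_cast at a1 a2 b1 b2
  have c : ((R : ℝ) * Q * u + 1024 * j * 2199023255552) / (67108864 * Q) -
      ((R : ℝ) * Q * 2199023255552 + 1024 * j * v) / (67108864 * Q) =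
      (R : ℝ) / 1024 * ((u - 2 ^ 41) / 2 ^ 16) - (j : ℝ) / Q * ((v - 2 ^ 41) / 2 ^ 16) := by
    field_simp
    ring
  have hjQ : (j : ℝ) / Q ≤ 3 := by
    rw [div_le_iff₀ hQr]; exact hjr
  have hjQ0 : 0 ≤ (j : ℝ) / Q := by positivity
  obtain ⟨hu1, hu2⟩ := abs_le.1 hu
  obtain ⟨hv1, hv2⟩ := abs_le.1 hv
  have d1 : |(R : ℝ) / 1024 * (((u : ℝ) - 2 ^ 41 - 2 ^ 40 * x) / 2 ^ 16)| ≤ 4 / 2 ^ 16 := by
    rw [abs_mul, abs_of_nonneg (show (0 : ℝ) ≤ R / 1024 by positivity), abs_div,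
      abs_of_pos (show (0 : ℝ) < 2 ^ 16 by positivity)]
    have : (R : ℝ) / 1024 ≤ 4 := by linarith
    have h5 : |(u : ℝ) - 2 ^ 41 - 2 ^ 40 * x| / 2 ^ 16 ≤ 1 / 2 ^ 16 :=
      div_le_div_of_nonneg_right hu (by positivity)
    calc (R : ℝ) / 1024 * (|(u : ℝ) - 2 ^ 41 - 2 ^ 40 * x| / 2 ^ 16) ≤ 4 * (1 / 2 ^ 16) :=
          mul_le_mul this h5 (by positivity) (by norm_num)
      _ = 4 / 2 ^ 16 := by norm_num
  have d2 : |(j : ℝ) / Q * (((v : ℝ) - 2 ^ 41 - 2 ^ 40 * y) / 2 ^ 16)| ≤ 3 / 2 ^ 16 := by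
    rw [abs_mul, abs_of_nonneg hjQ0, abs_div,
      abs_of_pos (show (0 : ℝ) < 2 ^ 16 by positivity)]
    have h5 : |(v : ℝ) - 2 ^ 41 - 2 ^ 40 * y| / 2 ^ 16 ≤ 1 / 2 ^ 16 :=
      div_le_div_of_nonneg_right hv (by positivity)
    calc (j : ℝ) / Q * (|(v : ℝ) - 2 ^ 41 - 2 ^ 40 * y| / 2 ^ 16) ≤ 3 * (1 / 2 ^ 16) :=
          mul_le_mul hjQ h5 (by positivity) (by norm_num)
      _ = 3 / 2 ^ 16 := by norm_num
  obtain ⟨d11, d12⟩ := abs_le.1 d1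
  obtain ⟨d21, d22⟩ := abs_le.1 d2
  have e3 : ((R : ℝ) / 1024 * x - (j : ℝ) / Q * y) - (X - Y) / 2 ^ 24 =
      ((((R : ℝ) * Q * u + 1024 * j * 2199023255552) / (67108864 * Q) -
      ((R : ℝ) * Q * 2199023255552 + 1024 * j * v) / (67108864 * Q)) - (X - Y) -
      (R : ℝ) / 1024 * (((u : ℝ) - 2 ^ 41 - 2 ^ 40 * x) / 2 ^ 16) +
      (j : ℝ) / Q * (((v : ℝ) - 2 ^ 41 - 2 ^ 40 * y) / 2 ^ 16)) / 2 ^ 24 := by
    rw [c]
    ring
  rw [e3, abs_div, abs_of_pos (show (0 : ℝ) < 2 ^ 24 by positivity)]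
  apply div_le_div_of_nonneg_right _ (by positivity)
  rw [abs_le]
  constructor <;> linarith

/-- the certificate check at one end point -/
def endN (A l nL kL lamL wL eL K Q j co cto so sto R : ℕ) : Bool :=
  certN A l nL kL lamL wL eL K Q j (eA R j Q co 2199023255552) (eA R j Q 2199023255552 cto)
    (eA R j Q 2199023255552 sto) (eA R j Q so 2199023255552)

theorem coord (R t θ ω : ℝ) :
    (conj (Complex.exp ((ω : ℂ) * Complex.I)) *
      ((R : ℂ) - (t : ℂ) * Complex.exp (((-θ : ℝ) : ℂ) * Complex.I))).re =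
      R * Real.cos ω - t * Real.cos (θ + ω) ∧
    (conj (Complex.exp ((ω : ℂ) * Complex.I)) *
      ((R : ℂ) - (t : ℂ) * Complex.exp (((-θ : ℝ) : ℂ) * Complex.I))).im =
      -(R * Real.sin ω - t * Real.sin (θ + ω)) := by
  have hconj : conj (Complex.exp ((ω : ℂ) * Complex.I)) =
      Complex.exp (((-ω : ℝ) : ℂ) * Complex.I) := by
    rw [← Complex.exp_conj, map_mul, Complex.conj_ofReal, Complex.conj_I]
    congr 1
    push_cast
    ring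
  have h : conj (Complex.exp ((ω : ℂ) * Complex.I)) *
      ((R : ℂ) - (t : ℂ) * Complex.exp (((-θ : ℝ) : ℂ) * Complex.I)) =
      (R : ℂ) * Complex.exp (((-ω : ℝ) : ℂ) * Complex.I) -
      (t : ℂ) * Complex.exp (((-(θ + ω) : ℝ) : ℂ) * Complex.I) := by
    rw [hconj, mul_sub, mul_left_comm, ← Complex.exp_add]
    congr 1
    · ring
    · congr 2
      push_cast
      ring
  rw [h]
  constructor
  · rw [Complex.sub_re, Complex.re_ofReal_mul, Complex.re_ofReal_mul, Complex.exp_ofReal_mul_I_re,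
      Complex.exp_ofReal_mul_I_re, Real.cos_neg, Real.cos_neg]
  · rw [Complex.sub_im, Complex.im_ofReal_mul, Complex.im_ofReal_mul, Complex.exp_ofReal_mul_I_im,
      Complex.exp_ofReal_mul_I_im, Real.sin_neg, Real.sin_neg]
    ring

/-- everything known at an end point -/
theorem endN_sound {A l nL Q j th om R : ℕ} (hA : A ≤ 154) (hn : nL ≤ 255) (hQ : 0 < Q)
    (hj : j ≤ 3 * Q) (hR : R ≤ 4096) (hom : ad om 256 ≤ 256) (hto : ad (th + om) 512 ≤ 256)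
    (h : endN A l nL (tK A) (tL A) (tW A) (tE nL) (5 * (512 + A) ^ 2) Q j (cz 256 om)
      (cz 512 (th + om)) (sz 256 om) (sz 512 (th + om)) R = true) :
    CertE (A / 512) (5 / 8) ((l : ℝ) / 2 ^ 24) (-(nL : ℝ) / 32)
      (conj (Complex.exp ((((((om : ℝ) - 256) / 64 : ℝ)) : ℂ) * Complex.I)) *
        ((((R : ℝ) / 1024 : ℝ) : ℂ) - (((j : ℝ) / Q : ℝ) : ℂ) *
          Complex.exp (((-(((th : ℝ) - 256) / 64) : ℝ) : ℂ) * Complex.I))).re
      (conj (Complex.exp ((((((om : ℝ) - 256) / 64 : ℝ)) : ℂ) * Complex.I)) *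
        ((((R : ℝ) / 1024 : ℝ) : ℂ) - (((j : ℝ) / Q : ℝ) : ℂ) *
          Complex.exp (((-(((th : ℝ) - 256) / 64) : ℝ) : ℂ) * Complex.I))).im ∧
    (1 + (A : ℝ) / 512) * ‖(((R : ℝ) / 1024 : ℝ) : ℂ) - (((j : ℝ) / Q : ℝ) : ℂ) *
          Complex.exp (((-(((th : ℝ) - 256) / 64) : ℝ) : ℂ) * Complex.I)‖ ≤ 1 ∧
    (j : ℝ) / Q + 2 * ‖(((R : ℝ) / 1024 : ℝ) : ℂ) - (((j : ℝ) / Q : ℝ) : ℂ) *
          Complex.exp (((-(((th : ℝ) - 256) / 64) : ℝ) : ℂ) * Complex.I)‖ ≤ 3 := by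
  obtain ⟨t1, t2, t3⟩ := tab1 hA
  obtain ⟨c1, c2⟩ := coord ((R : ℝ) / 1024) ((j : ℝ) / Q) (((th : ℝ) - 256) / 64)
    (((om : ℝ) - 256) / 64)
  have e0 : (((th + om : ℕ) : ℝ) - (512 : ℕ)) / 64 =
      ((th : ℝ) - 256) / 64 + ((om : ℝ) - 256) / 64 := by push_cast; ring
  have s1 := cz_spec hom
  have s2 := sz_spec hom
  have s3 := cz_spec hto
  have s4 := sz_spec hto
  rw [e0] at s3 s4
  push_cast at s1 s2
  have p1 := eA_spec (R := R) (j := j) hQ hj hR s1 s3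
  have p2 := eA_spec (R := R) (j := j) hQ hj hR s2 s4
  have p3 : |-((R : ℝ) / 1024 * Real.sin (((om : ℝ) - 256) / 64) -
      (j : ℝ) / Q * Real.sin (((th : ℝ) - 256) / 64 + ((om : ℝ) - 256) / 64)) -
      (((eA R j Q 2199023255552 (sz 512 (th + om)) : ℕ) : ℝ) -
        (eA R j Q (sz 256 om) 2199023255552 : ℕ)) / 2 ^ 24| ≤ 2 / 2 ^ 24 := by
    rw [← abs_neg]
    refine le_trans (le_of_eq ?_) p2
    congr 1
    ring
  have hc := certN_sound (by omega) rfl hQ hj p1 p3 (by rw [t1]; exact kapF_le hA)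
    (by rw [t1]; exact le_kapF hA) (by rw [t2]; exact lamF_le hA) (by rw [t3]; exact wF_le hA)
    (by rw [tab2 hn]; exact eF_le nL) h
  obtain ⟨hc1, hc2, hc3⟩ := hc
  rw [c1, c2]
  refine ⟨hc1, ?_, ?_⟩
  all_goals
    set y := (((R : ℝ) / 1024 : ℝ) : ℂ) - (((j : ℝ) / Q : ℝ) : ℂ) *
          Complex.exp (((-(((th : ℝ) - 256) / 64) : ℝ) : ℂ) * Complex.I) with hy
    have hne : ‖conj (Complex.exp ((((((om : ℝ) - 256) / 64 : ℝ)) : ℂ) * Complex.I)) * y‖ = ‖y‖ := by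
      rw [norm_mul, Complex.norm_conj, Complex.norm_exp_ofReal_mul_I, one_mul]
    have hsq : ‖y‖ ^ 2 = (R / 1024 * Real.cos ((↑om - 256) / 64) -
        ↑j / ↑Q * Real.cos ((↑th - 256) / 64 + (↑om - 256) / 64)) ^ 2 +
        (-(R / 1024 * Real.sin ((↑om - 256) / 64) -
        ↑j / ↑Q * Real.sin ((↑th - 256) / 64 + (↑om - 256) / 64))) ^ 2 := by
      rw [← hne, norm_sq_re_im, c1, c2]
    rw [← hsq] at hc2 hc3
  · have h1 : ((1 + (A : ℝ) / 512) * ‖y‖) ^ 2 ≤ 1 ^ 2 := by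
      rw [mul_pow, one_pow]; exact hc2
    exact le_of_sq_le_sq h1 (by norm_num)
  · have hjr : (j : ℝ) / Q ≤ 3 := by
      rw [div_le_iff₀ (by exact_mod_cast hQ)]; exact_mod_cast hj
    have h1 : (2 * ‖y‖) ^ 2 ≤ (3 - (j : ℝ) / Q) ^ 2 := by
      rw [mul_pow]; norm_num; norm_num at hc3; exact hc3
    have := le_of_sq_le_sq h1 (by linarith)
    linarith

end Pool.Agent.Lib.MP_af3a4a_an.P1.CHK.BOX
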