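import Pool.Agent.Lib.MP_af3a4a_an.P1.CHK.BOX.Main

/-!
# Box layer: faster forms of the checks for the kernel (council 2, helper11)

The functions are the same as before, written with recursors and raw operations.
-/

set_option autoImplicit false

namespace Pool.Agent.Lib.MP_af3a4a_an.P1.CHK.BOX

open Pool.Agent.Lib.MP_af3a4a_an.P1.CHK.Arith

/-- `a && b` -/
def an (a b : Bool) : Bool := Bool.rec false b a
/-- `a || b` -/
def orr (a b : Bool) : Bool := Bool.rec b true a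
/-- `if c then a else b` -/
def ite' {α : Type} (c : Bool) (a b : α) : α := Bool.rec b a c

theorem an_eq (a b : Bool) : an a b = (a && b) := by cases a <;> rfl
theorem orr_eq (a b : Bool) : orr a b = (a || b) := by cases a <;> rfl
theorem ite_eq' {α : Type} (c : Bool) (a b : α) : ite' c a b = cond c a b := by cases c <;> rfl

/-- absolute difference -/
def adR (a b : ℕ) : ℕ := Nat.add (Nat.sub a b) (Nat.sub b a)
theorem adR_eq (a b : ℕ) : adR a b = ad a b := rfl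

def emR (m : ℕ) : ℕ :=
  (fun t => (fun t2 => Nat.add (Nat.shiftRight (Nat.pow (Nat.add (Nat.div
      (Nat.sub (Nat.add 35076039295941670036888435985190792471742381031424
        (Nat.mul t2 (Nat.add 14507109835375550096474112 t2)))
      (Nat.mul (Nat.mul 4398046511104 t) (Nat.add 7253554917687775048237056 t2)))
      31901471898837980949691369446728269824) 1) 256) 10200) 1) (Nat.mul t t)) (Nat.shiftRight m 8)

theorem emR_eq (m : ℕ) : emR m = Arith.em m := by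
  unfold Arith.em
  rw [ev_eq, ev_eq]
  rfl

def epR (p : ℕ) : ℕ :=
  (fun t => (fun t2 => ite' (Nat.ble t 1099511627776)
    (Nat.add (Nat.shiftRight (Nat.pow (Nat.add (Nat.div
      8769009823985417509222108996297698117935595257856
      (Nat.sub (Nat.add 7975367974709495237422842361682067456 (Nat.mul 3298534883328 t2))
        (Nat.mul t (Nat.add 7253554917687775048237056 t2)))) 1) 256) 10200) 1)
    (Nat.mul (Nat.pow 3 (Nat.add (Nat.shiftRight p 40) 1)) 1099511627776)) (Nat.mul t t))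
  (Nat.add (Nat.shiftRight p 8) 1)

theorem epR_eq (p : ℕ) : epR p = ep p := by
  unfold ep
  rw [ev_eq, ev_eq, ← ite_eq']
  rfl

def esR (p m : ℕ) : ℕ := ite' (Nat.ble p m) (emR (Nat.sub m p)) (epR (Nat.sub p m))

theorem esR_eq (p m : ℕ) : esR p m = es p m := by
  unfold esR es
  rw [ite_eq', emR_eq, epR_eq]
  rfl

def czR (o i : ℕ) : ℕ := tc (adR i o)
theorem czR_eq (o i : ℕ) : czR o i = cz o i := rfl

def szR (o i : ℕ) : ℕ :=
  ite' (Nat.ble o i) (ts (Nat.sub i o)) (Nat.sub 4398046511104 (ts (Nat.sub o i)))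
theorem szR_eq (o i : ℕ) : szR o i = sz o i := ite_eq' _ _ _

def certR (A l nL kL lamL wL eL K Q j x1 x2 y1 y2 : ℕ) : Bool :=
  let P := Nat.add (adR x1 x2) 2
  let q := Nat.add (adR y1 y2) 2
  let PP := Nat.mul P P
  let qq := Nat.mul q q
  let KQ := Nat.succ (Nat.shiftRight (Nat.mul K qq) 45)
  let KP := Nat.succ (Nat.shiftRight (Nat.mul K PP) 45)
  let Ax := Nat.mul A x1
  let Ay := Nat.mul A (Nat.add x2 2)
  let ap := Nat.add (Nat.mul 512 (Nat.add wL l)) Ax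
  let an' := Nat.add Ay (Nat.mul 512 KP)
  let wp := Nat.add (Nat.add (Nat.mul 512 (Nat.add lamL l)) Ax) (Nat.mul 268435456 nL)
  let wn := Nat.add Ay 8589934592
  let d := Nat.succ (Nat.shiftRight (Nat.add (adR (Nat.mul K x1)
    (Nat.add (Nat.mul K x2) (Nat.mul 34359738368 A))) (Nat.mul 2 K)) 20)
  let e := Nat.add (adR x1 (Nat.add x2 kL)) 62
  let S2 := Nat.add PP qq
  let dq := Nat.mul d q
  let W := Nat.sub wp wn
  let t := Nat.sub (Nat.mul 3 Q) j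
  an (Nat.ble KQ l) (an (Nat.ble an' ap)
    (an (Nat.ble (Nat.mul dq dq)
        (Nat.mul 2199023255552 (Nat.mul (Nat.sub ap an') (Nat.sub l KQ))))
      (an (Nat.ble wn wp) (an (Nat.ble (Nat.mul 262144 (Nat.add (Nat.mul e e) qq)) (Nat.mul W W))
        (an (Nat.ble S2 (Nat.mul 16777216 eL))
          (an (Nat.ble (Nat.mul (Nat.mul (Nat.add 512 A) (Nat.add 512 A)) S2) 73786976294838206464)
            (Nat.ble (Nat.mul (Nat.mul 4 S2) (Nat.mul Q Q))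
              (Nat.mul 281474976710656 (Nat.mul t t)))))))))

theorem certR_eq (A l nL kL lamL wL eL K Q j x1 x2 y1 y2 : ℕ) :
    certR A l nL kL lamL wL eL K Q j x1 x2 y1 y2 =
      certN A l nL kL lamL wL eL K Q j x1 x2 y1 y2 := by
  unfold certR certN
  simp only [an_eq, adR_eq]

def endR (A l nL kL lamL wL eL K Q j co cto so sto R : ℕ) : Bool :=
  certR A l nL kL lamL wL eL K Q j (eA R j Q co 2199023255552) (eA R j Q 2199023255552 cto)
    (eA R j Q 2199023255552 sto) (eA R j Q so 2199023255552)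

theorem endR_eq (A l nL kL lamL wL eL K Q j co cto so sto R : ℕ) :
    endR A l nL kL lamL wL eL K Q j co cto so sto R =
      endN A l nL kL lamL wL eL K Q j co cto so sto R := certR_eq _ _ _ _ _ _ _ _ _ _ _ _ _ _

def phiR (Na Nb A l Q j th om g0 g1 r0 r1 kL kU lU G : ℕ) : Bool :=
  let ct := czR 256 th
  let co := czR 256 om
  let cto := czR 512 (Nat.add th om)
  let i0 := Nat.add g0 om
  let i1 := Nat.add g1 om
  let n := nr 256 i0 i1
  let cn := Nat.succ (tc n)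
  let Ar := Nat.mul A (ite' (Nat.ble 2199023255552 cn) r1 r0)
  let AP := Nat.succ (Nat.div (Nat.mul Ar cn) 2097152)
  let AN := Nat.mul Ar 1048576
  let Aj := Nat.mul A j
  let BP := Nat.succ (Nat.div (Nat.mul Aj 4294967296) Q)
  let BN := Nat.div (Nat.mul Aj (Nat.sub cto 1)) (Nat.mul 512 Q)
  let P1 := Nat.add (Nat.mul (Nat.add lU l) 65536) (Nat.add BP AP)
  let N1 := Nat.add BN AN
  let P0 := Nat.add (Nat.add 1099511627776 AP)
    (Nat.add (Nat.succ (Nat.div (Nat.mul j 2199023255552) Q))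
      (Nat.succ (Nat.div (Nat.mul kU (Nat.sub 2199023255553 co)) 16777216)))
  let N0 := Nat.add AN (Nat.add (Nat.div (Nat.mul j (Nat.sub ct 1)) Q)
    (Nat.div (Nat.mul kL (Nat.sub co 2199023255553)) 16777216))
  let M := ite' (Nat.ble P1 N1) Na Nb
  an (Nat.ble (Nat.add (adR i0 256) n) 402) (an (Nat.ble (Nat.add (adR i1 256) n) 402)
    (an (Nat.ble (adR th 256) 256) (an (Nat.ble (adR om 256) 256)
      (an (Nat.ble (adR (Nat.add th om) 512) 256)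
        (Nat.ble (Nat.mul (esR (Nat.add P0 (Nat.mul M P1)) (Nat.add N0 (Nat.mul M N1))) j)
          (Nat.mul (Nat.mul G Q) 65536))))))

theorem phiR_eq (Na Nb A l Q j th om g0 g1 r0 r1 kL kU lU G : ℕ) :
    phiR Na Nb A l Q j th om g0 g1 r0 r1 kL kU lU G =
      phiN Na Nb A l Q j th om g0 g1 r0 r1 kL kU lU G := by
  unfold phiR phiN
  simp only [an_eq, adR_eq, ite_eq', esR_eq, czR_eq]

def it0R (Na Nb Q j th om A l nL g0 g1 r0 r1 R0 R1 G : ℕ) : Bool :=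
  let kL := tK A
  let lamL := tL A
  let wL := tW A
  let eL := tE nL
  let K := Nat.mul 5 (Nat.mul (Nat.add 512 A) (Nat.add 512 A))
  let co := czR 256 om
  let so := szR 256 om
  let cto := czR 512 (Nat.add th om)
  let sto := szR 512 (Nat.add th om)
  an (Nat.ble A 154) (an (Nat.ble nL 255) (an (Nat.ble 1 j) (an (Nat.ble j (Nat.mul 3 Q))
    (an (Nat.ble R0 4096) (an (Nat.ble R1 4096)
      (an (Nat.ble (Nat.mul 10 (Nat.mul A (Nat.succ Na))) (Nat.mul 1536 Na))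
        (an (Nat.ble (Nat.mul (Nat.sub 512 A) j) (Nat.mul 1024 Q))
          (an (phiR Na Nb A l Q j th om g0 g1 r0 r1 kL (Nat.add kL 60) (Nat.add lamL 10) G)
            (an (endR A l nL kL lamL wL eL K Q j co cto so sto R0)
              (endR A l nL kL lamL wL eL K Q j co cto so sto R1))))))))))

theorem it0R_eq (Na Nb Q j th om A l nL g0 g1 r0 r1 R0 R1 G : ℕ) :
    it0R Na Nb Q j th om A l nL g0 g1 r0 r1 R0 R1 G =
      it0 Na Nb Q j th om A l nL g0 g1 r0 r1 R0 R1 G := by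
  unfold it0R it0
  simp only [an_eq, phiR_eq, endR_eq, czR_eq, szR_eq]

noncomputable def useR (c : Crv) (r0 r1 g0 g1 th : ℕ) : Bool :=
  Crv.rec (fun c0 c1 h0 h1 _ _ =>
    an (Nat.ble c0 r0) (an (Nat.ble r1 c1) (an (Nat.ble (Nat.add g1 256) (Nat.add th h1))
      (an (Nat.ble th (Nat.add (Nat.add g0 256) h1))
        (orr (Nat.ble h0 0) (orr (Nat.ble (Nat.add th h0) (Nat.add g0 256))
          (Nat.ble (Nat.add (Nat.add g1 256) h0) th))))))) c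

theorem useR_eq (c : Crv) (r0 r1 g0 g1 th : ℕ) : useR c r0 r1 g0 g1 th = useC c r0 r1 g0 g1 th := by
  cases c
  unfold useR useC
  simp only [an_eq, orr_eq]

noncomputable def getR (c : Crv) (r0 r1 g0 g1 th j : ℕ) : ℕ :=
  ite' (an (useR c r0 r1 g0 g1 th) (an (Nat.ble 1 j) (Nat.ble j (Crv.rec (fun _ _ _ _ K _ => K) c))))
    (fld (Crv.rec (fun _ _ _ _ _ cs => cs) c) (Nat.sub j 1)) 0

theorem getR_eq (c : Crv) (r0 r1 g0 g1 th j : ℕ) :
    getR c r0 r1 g0 g1 th j = getC c r0 r1 g0 g1 th j := by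
  cases c
  unfold getR getC
  simp only [an_eq, ite_eq', useR_eq]

/-- a faster form of `getG` -/
noncomputable def getGR (Tl : ℕ → ℕ → ℕ → ℕ → ℕ → ℕ → ℕ → ℕ) (C : List Crv) (r0 r1 g0 g1 R0 R1 it : ℕ) : ℕ :=
  ite' (Nat.ble (iJe it) (iJs it))
    (getR (pick ⟨0, 0, 0, 0, 0, 0⟩ C (iCrv it)) r0 r1 g0 g1 (iTh it) (iJe it))
    (Nat.sub (getR (pick ⟨0, 0, 0, 0, 0, 0⟩ C (iCrv it)) r0 r1 g0 g1 (iTh it) (iJs it))
      (Tl r0 r1 g0 g1 R0 R1 it))

theorem getGR_eq (Tl : ℕ → ℕ → ℕ → ℕ → ℕ → ℕ → ℕ → ℕ) (C : List Crv) (r0 r1 g0 g1 R0 R1 it : ℕ) :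
    getGR Tl C r0 r1 g0 g1 R0 R1 it = getG Tl C r0 r1 g0 g1 R0 R1 it := by
  unfold getGR getG
  simp only [ite_eq', getR_eq]

def itLocR (Na g1 r0 r1 R0 R1 : ℕ) : Bool := itLoc Na g1 r0 r1 R0 R1

/-- a faster form of `item` -/
noncomputable def itemR (X : ℕ → ℕ → ℕ → ℕ → ℕ → ℕ → ℕ → ℕ → Bool) (Tl : ℕ → ℕ → ℕ → ℕ → ℕ → ℕ → ℕ → ℕ)
    (Na Nb Q : ℕ) (C : List Crv) (it r0 r1 g0 g1 R0 R1 : ℕ) : Bool :=
  (fun k =>
    ite' (Nat.beq k 0)
      ((fun je th om A l nL => it0R Na Nb Q je th om A l nL g0 g1 r0 r1 R0 R1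
        (getGR Tl C r0 r1 g0 g1 R0 R1 it)) (iJe it) (iTh it) (iOm it) (iA it) (iL it) (iN it))
    (ite' (Nat.beq k 1) (itLoc Na g1 r0 r1 R0 R1)
    (ite' (Nat.beq k 2) (itNear Na g1 r0 r1 R0 R1)
    (ite' (Nat.beq k 3) (itOut r0 g0 R0)
    (X (getGR Tl C r0 r1 g0 g1 R0 R1 it) it r0 r1 g0 g1 R0 R1))))) (Nat.mod it 16)

theorem itemR_eq (X : ℕ → ℕ → ℕ → ℕ → ℕ → ℕ → ℕ → ℕ → Bool)
    (Tl : ℕ → ℕ → ℕ → ℕ → ℕ → ℕ → ℕ → ℕ) (Na Nb Q : ℕ) (C : List Crv)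
    (it r0 r1 g0 g1 R0 R1 : ℕ) :
    itemR X Tl Na Nb Q C it r0 r1 g0 g1 R0 R1 = item X Tl Na Nb Q C it r0 r1 g0 g1 R0 R1 := by
  unfold itemR item
  simp only [ite_eq', it0R_eq, getGR_eq]

noncomputable def chunkR (X : ℕ → ℕ → ℕ → ℕ → ℕ → ℕ → ℕ → ℕ → Bool)
    (Tl : ℕ → ℕ → ℕ → ℕ → ℕ → ℕ → ℕ → ℕ) (Na Nb Q : ℕ) (C : List Crv)
    (r0 r1 g0 g1 R0 R1 : ℕ) (t : Tree) : Bool :=
  treeOK (fun it r0 r1 g0 g1 R0 R1 => itemR X Tl Na Nb Q C it r0 r1 g0 g1 R0 R1) t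
    r0 r1 g0 g1 R0 R1

theorem chunkR_eq (X : ℕ → ℕ → ℕ → ℕ → ℕ → ℕ → ℕ → ℕ → Bool)
    (Tl : ℕ → ℕ → ℕ → ℕ → ℕ → ℕ → ℕ → ℕ) (Na Nb Q : ℕ) (C : List Crv)
    (r0 r1 g0 g1 R0 R1 : ℕ) (t : Tree) :
    chunkR X Tl Na Nb Q C r0 r1 g0 g1 R0 R1 t = chunk X Tl Na Nb Q C r0 r1 g0 g1 R0 R1 t := by
  unfold chunkR chunk
  simp only [itemR_eq]

/-- a faster form of `tlF` -/
noncomputable def tlR (Na Nb Q : ℕ) (T : List Fam) (r0 r1 g0 g1 R0 R1 it : ℕ) : ℕ :=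
  (fun h => (fun lp ln => Fam.rec (fun M k D0 D1 F n =>
    ite' (an (Nat.ble (Nat.mul 1024 D0) (Nat.mul R0 M)) (an (Nat.ble (Nat.mul R1 M) (Nat.mul 1024 D1))
      (an (Nat.beq (iTh it) (Nat.add 256 k)) (an (Nat.ble g1 256) (an (Nat.ble h 201)
        (an (Nat.ble 1 M) (an (Nat.ble 1 Na) (Nat.ble ln (Nat.add lp 1099511627776)))))))))
      (TAIL.tailN Na Nb Q r0 r1 g0 g1 lp ln F n (iI0 it) (iK it) (iMask it) (iJs it) (iJe it))
      4294967296) (pick ⟨0, 0, 0, 0, 0, 0⟩ T (iFam it))) (lpF r0 r1 h) (lnF r0 r1 h))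
  (ma (adR (Nat.add g0 256) (iTh it)) (adR (Nat.add g1 256) (iTh it)))

theorem tlR_eq (Na Nb Q : ℕ) (T : List Fam) (r0 r1 g0 g1 R0 R1 it : ℕ) :
    tlR Na Nb Q T r0 r1 g0 g1 R0 R1 it = tlF Na Nb Q T r0 r1 g0 g1 R0 R1 it := by
  unfold tlR tlF hMax
  simp only [an_eq, ite_eq', adR_eq]

/-- the check of a chunk without further kinds of items, fast form -/
noncomputable def chkR (Na Nb Q : ℕ) (C : List Crv) (T : List Fam) (r0 r1 g0 g1 R0 R1 : ℕ)
    (t : Tree) : Bool :=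
  an (Nat.ble 1 Na) (an (Nat.ble 1 Q)
    (chunkR xNo (fun r0 r1 g0 g1 R0 R1 it => tlR Na Nb Q T r0 r1 g0 g1 R0 R1 it) Na Nb Q C
      r0 r1 g0 g1 R0 R1 t))

theorem chkR_sound {Na Nb Q : ℕ} {C : List Crv} {T : List Fam} {r0 r1 g0 g1 R0 R1 : ℕ} {t : Tree}
    (hCr : ∀ c ∈ C, CrvP Na Nb Q c) (hT : ∀ f ∈ T, FamP Q f)
    (h : chkR Na Nb Q C T r0 r1 g0 g1 R0 R1 t = true) : ChunkP Na Nb r0 r1 g0 g1 R0 R1 := by
  unfold chkR at h
  rw [chunkR_eq] at h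
  simp only [an_eq, Bool.and_eq_true, Nat.ble_eq, tlR_eq] at h
  exact chunk_sound h.1 h.2.1 (xNo_ok Na Nb Q) (tlF_sound hT) hCr h.2.2

end Pool.Agent.Lib.MP_af3a4a_an.P1.CHK.BOX
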