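import Pool.Agent.Lib.MP_af3a4a_an.P1.CHK.BOX.Fast

/-!
# Box layer: staged form of the main item for the kernel (council 2, helper11)
-/

set_option autoImplicit false

namespace Pool.Agent.Lib.MP_af3a4a_an.P1.CHK.BOX

open Pool.Agent.Lib.MP_af3a4a_an.P1.CHK.Arith

/-- the certificate at one end point, staged; the arguments are the constants of the item -/
def endS (Q qd jW jct jst co so A K KA K2 l W1 W2 kL S2m R : ℕ) : Bool :=
  (fun RQ => (fun RW => (fun x1 x2 y1 y2 => (fun P q Ax Ay e => (fun PP qq =>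
    (fun KQ KP S2 wp wn ap d => (fun ann W dq =>
      an (Nat.ble KQ l) (an (Nat.ble ann ap)
        (an (Nat.ble (Nat.mul dq dq)
            (Nat.mul 2199023255552 (Nat.mul (Nat.sub ap ann) (Nat.sub l KQ))))
          (an (Nat.ble wn wp)
            (an (Nat.ble (Nat.mul 262144 (Nat.add (Nat.mul e e) qq)) (Nat.mul W W))
              (Nat.ble S2 S2m))))))
    (Nat.add Ay (Nat.mul 512 KP)) (Nat.sub wp wn) (Nat.mul d q))
    (Nat.succ (Nat.shiftRight (Nat.mul K qq) 45)) (Nat.succ (Nat.shiftRight (Nat.mul K PP) 45))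
    (Nat.add PP qq) (Nat.add W2 Ax) (Nat.add 8589934592 Ay) (Nat.add W1 Ax)
    (Nat.succ (Nat.shiftRight (Nat.add K2 (adR (Nat.mul K x1) (Nat.add KA (Nat.mul K x2)))) 20)))
    (Nat.mul P P) (Nat.mul q q))
    (Nat.add 2 (adR x1 x2)) (Nat.add 2 (adR y1 y2)) (Nat.mul A x1) (Nat.mul A (Nat.add 2 x2))
    (Nat.add 62 (adR x1 (Nat.add kL x2))))
    (Nat.div (Nat.add jW (Nat.mul co RQ)) qd) (Nat.div (Nat.add jct RW) qd)
    (Nat.div (Nat.add jst RW) qd) (Nat.div (Nat.add jW (Nat.mul so RQ)) qd))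
    (Nat.mul 2199023255552 RQ)) (Nat.mul Q R)

/-- minimum -/
def mn2 (a b : ℕ) : ℕ := Bool.rec b a (Nat.ble a b)

theorem mn2_le (a b : ℕ) : mn2 a b ≤ a ∧ mn2 a b ≤ b := by
  unfold mn2
  by_cases h : a ≤ b
  · rw [Nat.ble_eq_true_of_le h]; exact ⟨le_rfl, h⟩
  · rw [ble_false h]; exact ⟨(not_le.1 h).le, le_rfl⟩

theorem endS_imp {Q A l nL kL lamL wL eL K j co cto so sto R S2m : ℕ}
    (hS1 : S2m ≤ 16777216 * eL) (hS2 : (512 + A) * (512 + A) * S2m ≤ 73786976294838206464)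
    (hS3 : 4 * S2m * (Q * Q) ≤ 281474976710656 * ((3 * Q - j) * (3 * Q - j)))
    (h : endS Q (67108864 * Q) (1024 * j * 2199023255552) (1024 * j * cto) (1024 * j * sto) co so
      A K (34359738368 * A) (2 * K) l (512 * (wL + l)) (512 * (lamL + l) + 268435456 * nL) kL S2m R
      = true) : endN A l nL kL lamL wL eL K Q j co cto so sto R = true := by
  unfold endN certN
  unfold endS at h
  have e1 : ∀ u v, eA R j Q u v = (R * Q * u + 1024 * j * v) / (67108864 * Q) := fun _ _ => rfl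
  simp only [an_eq, adR_eq, Nat.add_eq, Nat.mul_eq, Nat.sub_eq, ndiv_eq, Nat.succ_eq_add_one,
    Nat.shiftRight_eq, Bool.and_eq_true, Nat.ble_eq] at h ⊢
  have c1 : 1024 * j * 2199023255552 + co * (Q * R) = R * Q * co + 1024 * j * 2199023255552 := by
    ring
  have c2 : 1024 * j * cto + 2199023255552 * (Q * R) = R * Q * 2199023255552 + 1024 * j * cto := by
    ring
  have c3 : 1024 * j * sto + 2199023255552 * (Q * R) = R * Q * 2199023255552 + 1024 * j * sto := by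
    ring
  have c4 : 1024 * j * 2199023255552 + so * (Q * R) = R * Q * so + 1024 * j * 2199023255552 := by
    ring
  rw [c1, c2, c3, c4, ← e1, ← e1, ← e1, ← e1] at h
  generalize eA R j Q co 2199023255552 = x1 at h ⊢
  generalize eA R j Q 2199023255552 cto = x2 at h ⊢
  generalize eA R j Q 2199023255552 sto = y1 at h ⊢
  generalize eA R j Q so 2199023255552 = y2 at h ⊢
  have d1 : ∀ a : ℕ, 2 + a = a + 2 := fun a => Nat.add_comm 2 a
  have d2 : ad x1 (kL + x2) = ad x1 (x2 + kL) := by rw [Nat.add_comm]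
  have d3 : 34359738368 * A + K * x2 = K * x2 + 34359738368 * A := Nat.add_comm _ _
  have d4 : ∀ a : ℕ, 2 * K + a = a + 2 * K := fun a => Nat.add_comm _ _
  have d5 : ∀ a : ℕ, 62 + a = a + 62 := fun a => Nat.add_comm _ _
  rw [d1 (ad x1 x2), d1 (ad y1 y2), d1 x2, d2, d3, d4, d5] at h
  generalize ad x1 x2 + 2 = P at h ⊢
  generalize ad y1 y2 + 2 = q at h ⊢
  obtain ⟨h1, h2, h3, h4, h5, h6⟩ := h
  have f1 : 512 * (lamL + l) + 268435456 * nL + A * x1 = 512 * (lamL + l) + A * x1 + 268435456 * nL := by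
    ring
  have f2 : 8589934592 + A * (x2 + 2) = A * (x2 + 2) + 8589934592 := Nat.add_comm _ _
  rw [f1, f2] at h4 h5
  refine ⟨h1, h2, h3, h4, h5, h6.trans hS1, ?_, ?_⟩
  · exact (Nat.mul_le_mul_left _ h6).trans hS2
  · refine le_trans ?_ hS3
    exact Nat.mul_le_mul_right _ (Nat.mul_le_mul_left _ h6)

/-- the PHI test, staged -/
def phiS (Na Nb A l Q j th om g0 g1 r0 r1 kL kU lU G ct co cto : ℕ) : Bool :=
  (fun i0 i1 Aj => (fun n => (fun cn => (fun Ar => (fun AP AN BP BN PT NT =>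
    (fun P1 N1 => (fun M =>
      an (Nat.ble (Nat.add (adR i0 256) n) 402) (an (Nat.ble (Nat.add (adR i1 256) n) 402)
        (an (Nat.ble (adR th 256) 256) (an (Nat.ble (adR om 256) 256)
          (an (Nat.ble (adR (Nat.add th om) 512) 256)
            (Nat.ble (Nat.mul (esR (Nat.add (Nat.add (Nat.add 1099511627776 AP) PT) (Nat.mul M P1))
                (Nat.add (Nat.add AN NT) (Nat.mul M N1))) j)
              (Nat.mul (Nat.mul G Q) 65536)))))))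
    (ite' (Nat.ble P1 N1) Na Nb))
    (Nat.add (Nat.mul (Nat.add lU l) 65536) (Nat.add BP AP)) (Nat.add BN AN))
    (Nat.succ (Nat.div (Nat.mul Ar cn) 2097152)) (Nat.mul Ar 1048576)
    (Nat.succ (Nat.div (Nat.mul Aj 4294967296) Q))
    (Nat.div (Nat.mul Aj (Nat.sub cto 1)) (Nat.mul 512 Q))
    (Nat.add (Nat.succ (Nat.div (Nat.mul j 2199023255552) Q))
      (Nat.succ (Nat.div (Nat.mul kU (Nat.sub 2199023255553 co)) 16777216)))
    (Nat.add (Nat.div (Nat.mul j (Nat.sub ct 1)) Q)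
      (Nat.div (Nat.mul kL (Nat.sub co 2199023255553)) 16777216)))
    (Nat.mul A (ite' (Nat.ble 2199023255552 cn) r1 r0))) (Nat.succ (tc n))) (nr 256 i0 i1))
    (Nat.add g0 om) (Nat.add g1 om) (Nat.mul A j)

theorem phiS_eq (Na Nb A l Q j th om g0 g1 r0 r1 kL kU lU G : ℕ) :
    phiS Na Nb A l Q j th om g0 g1 r0 r1 kL kU lU G (cz 256 th) (cz 256 om)
      (cz 512 (Nat.add th om)) = phiN Na Nb A l Q j th om g0 g1 r0 r1 kL kU lU G := by
  unfold phiS phiN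
  simp only [an_eq, adR_eq, esR_eq, ite_eq']

/-- the main item, staged -/
def it0S (Na Nb Q j th om A l nL g0 g1 r0 r1 R0 R1 G : ℕ) : Bool :=
  (fun kL lamL wL eL co so ct cto sto AA t =>
    an (Nat.ble A 154) (an (Nat.ble nL 255) (an (Nat.ble 1 j) (an (Nat.ble j (Nat.mul 3 Q))
      (an (Nat.ble R0 4096) (an (Nat.ble R1 4096)
        (an (Nat.ble (Nat.mul 10 (Nat.mul A (Nat.succ Na))) (Nat.mul 1536 Na))
          (an (Nat.ble (Nat.mul (Nat.sub 512 A) j) (Nat.mul 1024 Q))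
            (an (phiS Na Nb A l Q j th om g0 g1 r0 r1 kL (Nat.add kL 60) (Nat.add lamL 10) G
                ct co cto)
              ((fun qd j10 K W1 W2 KA S2m =>
                (fun jW jct jst K2 =>
                  an (endS Q qd jW jct jst co so A K KA K2 l W1 W2 kL S2m R0)
                    (endS Q qd jW jct jst co so A K KA K2 l W1 W2 kL S2m R1))
                (Nat.mul j10 2199023255552) (Nat.mul j10 cto) (Nat.mul j10 sto) (Nat.mul 2 K))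
              (Nat.mul 67108864 Q) (Nat.mul 1024 j) (Nat.mul 5 AA)
              (Nat.mul 512 (Nat.add wL l))
              (Nat.add (Nat.mul 512 (Nat.add lamL l)) (Nat.mul 268435456 nL))
              (Nat.mul 34359738368 A)
              (mn2 (Nat.mul 16777216 eL) (mn2 (Nat.div 73786976294838206464 AA)
                (Nat.div (Nat.mul 70368744177664 (Nat.mul t t)) (Nat.mul Q Q))))))))))))))
  (tK A) (tL A) (tW A) (tE nL) (cz 256 om) (szR 256 om) (cz 256 th) (cz 512 (Nat.add th om))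
  (szR 512 (Nat.add th om)) (Nat.mul (Nat.add 512 A) (Nat.add 512 A)) (Nat.sub (Nat.mul 3 Q) j)

theorem it0S_imp {Na Nb Q j th om A l nL g0 g1 r0 r1 R0 R1 G : ℕ}
    (h : it0S Na Nb Q j th om A l nL g0 g1 r0 r1 R0 R1 G = true) :
    it0 Na Nb Q j th om A l nL g0 g1 r0 r1 R0 R1 G = true := by
  unfold it0S at h
  unfold it0
  simp only [an_eq, szR_eq, Bool.and_eq_true] at h ⊢
  obtain ⟨c1, c2, c3, c4, c5, c6, c7, c8, c9, c10, c11⟩ := h
  rw [phiS_eq] at c9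
  have hQ : 0 < Q := by
    rw [Nat.ble_eq] at c3 c4
    simp only [Nat.mul_eq] at c4
    omega
  obtain ⟨S, hS⟩ : ∃ S, S = mn2 (Nat.mul 16777216 (tE nL))
      (mn2 (Nat.div 73786976294838206464 ((Nat.add 512 A).mul (Nat.add 512 A)))
        ((Nat.mul 70368744177664 (((Nat.mul 3 Q).sub j).mul ((Nat.mul 3 Q).sub j))).div
          (Q.mul Q))) := ⟨_, rfl⟩
  rw [← hS] at c10 c11
  have hS1 : S ≤ 16777216 * tE nL := by rw [hS]; exact (mn2_le _ _).1
  have hS2 : (512 + A) * (512 + A) * S ≤ 73786976294838206464 := by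
    have h1 : S ≤ 73786976294838206464 / ((512 + A) * (512 + A)) := by
      rw [hS]; exact (mn2_le _ _).2.trans (mn2_le _ _).1
    rw [Nat.le_div_iff_mul_le (by positivity), Nat.mul_comm] at h1
    exact h1
  have hS3 : 4 * S * (Q * Q) ≤ 281474976710656 * ((3 * Q - j) * (3 * Q - j)) := by
    have h1 : S ≤ 70368744177664 * ((3 * Q - j) * (3 * Q - j)) / (Q * Q) := by
      rw [hS]; exact (mn2_le _ _).2.trans (mn2_le _ _).2
    rw [Nat.le_div_iff_mul_le (by positivity)] at h1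
    calc 4 * S * (Q * Q) = 4 * (S * (Q * Q)) := by ring
      _ ≤ 4 * (70368744177664 * ((3 * Q - j) * (3 * Q - j))) := Nat.mul_le_mul_left _ h1
      _ = 281474976710656 * ((3 * Q - j) * (3 * Q - j)) := by ring
  exact ⟨c1, c2, c3, c4, c5, c6, c7, c8, c9, endS_imp hS1 hS2 hS3 c10, endS_imp hS1 hS2 hS3 c11⟩

/-- staged form of `item` -/
noncomputable def itemS (X : ℕ → ℕ → ℕ → ℕ → ℕ → ℕ → ℕ → ℕ → Bool)
    (Tl : ℕ → ℕ → ℕ → ℕ → ℕ → ℕ → ℕ → ℕ) (Na Nb Q : ℕ) (C : List Crv)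
    (it r0 r1 g0 g1 R0 R1 : ℕ) : Bool :=
  (fun k =>
    ite' (Nat.beq k 0)
      (it0S Na Nb Q (iJe it) (iTh it) (iOm it) (iA it) (iL it) (iN it) g0 g1 r0 r1 R0 R1
        (getGR Tl C r0 r1 g0 g1 R0 R1 it))
    (ite' (Nat.beq k 1) (itLoc Na g1 r0 r1 R0 R1)
    (ite' (Nat.beq k 2) (itNear Na g1 r0 r1 R0 R1)
    (ite' (Nat.beq k 3) (itOut r0 g0 R0)
    (X (getGR Tl C r0 r1 g0 g1 R0 R1 it) it r0 r1 g0 g1 R0 R1))))) (Nat.mod it 16)

theorem itemS_imp {X : ℕ → ℕ → ℕ → ℕ → ℕ → ℕ → ℕ → ℕ → Bool}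
    {Tl : ℕ → ℕ → ℕ → ℕ → ℕ → ℕ → ℕ → ℕ} {Na Nb Q : ℕ} {C : List Crv}
    {it r0 r1 g0 g1 R0 R1 : ℕ} (h : itemS X Tl Na Nb Q C it r0 r1 g0 g1 R0 R1 = true) :
    item X Tl Na Nb Q C it r0 r1 g0 g1 R0 R1 = true := by
  unfold itemS at h
  unfold item
  simp only [ite_eq', getGR_eq] at h ⊢
  cases hb : Nat.beq (Nat.mod it 16) 0 with
  | true =>
    rw [hb, cond_true] at h
    rw [cond_true]
    exact it0S_imp h
  | false =>
    rw [hb, cond_false] at h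
    rw [cond_false]
    exact h

noncomputable def chunkS (X : ℕ → ℕ → ℕ → ℕ → ℕ → ℕ → ℕ → ℕ → Bool)
    (Tl : ℕ → ℕ → ℕ → ℕ → ℕ → ℕ → ℕ → ℕ) (Na Nb Q : ℕ) (C : List Crv)
    (r0 r1 g0 g1 R0 R1 : ℕ) (t : Tree) : Bool :=
  treeOK (fun it r0 r1 g0 g1 R0 R1 => itemS X Tl Na Nb Q C it r0 r1 g0 g1 R0 R1) t
    r0 r1 g0 g1 R0 R1

theorem chunkS_sound {X : ℕ → ℕ → ℕ → ℕ → ℕ → ℕ → ℕ → ℕ → Bool}
    {Tl : ℕ → ℕ → ℕ → ℕ → ℕ → ℕ → ℕ → ℕ} {Na Nb Q : ℕ} {C : List Crv}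
    {r0 r1 g0 g1 R0 R1 : ℕ} {t : Tree} (hNa0 : 1 ≤ Na) (hQ : 0 < Q)
    (hX : XP X Na Nb Q) (hTl : TlP Na Nb Q Tl) (hCr : ∀ c ∈ C, CrvP Na Nb Q c)
    (h : chunkS X Tl Na Nb Q C r0 r1 g0 g1 R0 R1 t = true) : ChunkP Na Nb r0 r1 g0 g1 R0 R1 :=
  fun _ hNa hNb _ _ _ _ hC _ _ hB =>
    treeOK_sound (fun _ _ _ _ _ _ _ hit hB' =>
      item_sound hNa0 hQ hX hTl hCr hNa hNb hC hB' (itemS_imp hit)) t r0 r1 g0 g1 R0 R1 h hB

/-- the check of a chunk without further kinds of items, staged form -/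
noncomputable def chkS (Na Nb Q : ℕ) (C : List Crv) (T : List Fam) (r0 r1 g0 g1 R0 R1 : ℕ)
    (t : Tree) : Bool :=
  an (Nat.ble 1 Na) (an (Nat.ble 1 Q)
    (chunkS xNo (fun r0 r1 g0 g1 R0 R1 it => tlR Na Nb Q T r0 r1 g0 g1 R0 R1 it) Na Nb Q C
      r0 r1 g0 g1 R0 R1 t))

theorem chkS_sound {Na Nb Q : ℕ} {C : List Crv} {T : List Fam} {r0 r1 g0 g1 R0 R1 : ℕ} {t : Tree}
    (hCr : ∀ c ∈ C, CrvP Na Nb Q c) (hT : ∀ f ∈ T, FamP Q f)
    (h : chkS Na Nb Q C T r0 r1 g0 g1 R0 R1 t = true) : ChunkP Na Nb r0 r1 g0 g1 R0 R1 := by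
  unfold chkS at h
  simp only [an_eq, Bool.and_eq_true, Nat.ble_eq, tlR_eq] at h
  exact chunkS_sound h.1 h.2.1 (xNo_ok Na Nb Q) (tlF_sound hT) hCr h.2.2

end Pool.Agent.Lib.MP_af3a4a_an.P1.CHK.BOX
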