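import Pool.Agent.Lib.MP_af3a4a_an.P1.CHK.BOX.Ends
import Pool.Agent.Lib.MP_af3a4a_an.P1.H74.Loc
import Pool.Agent.Lib.MP_af3a4a_an.P1.H74.Near

/-!
# Box layer: the items (council 2, helper11)
-/

set_option autoImplicit false

namespace Pool.Agent.Lib.MP_af3a4a_an.P1.CHK.BOX

open MeasureTheory intervalIntegral ComplexConjugate
open Pool.Agent.Lib.MP_af3a4a_an.SV (uu av sq EE)
open Pool.Agent.Lib.MP_af3a4a_an.P1.H80
open Pool.Agent.Lib.MP_af3a4a_an.P1.CHK.H80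
open Pool.Agent.Lib.MP_af3a4a_an.P1.CHK.Arith

/-- `e^{-iθ}` with `θ = (th - 256)/64` -/
noncomputable def dirn (th : ℕ) : ℂ :=
  Complex.exp (((-(((th : ℝ) - 256) / 64) : ℝ) : ℂ) * Complex.I)

/-- the value of the curve in the direction `th` at `x = j/Q` -/
noncomputable def val {N : ℕ} (w : Fin N → ℂ) (th Q j : ℕ) : ℝ :=
  ((N : ℝ) + 1) * ‖∫ x in (0 : ℝ)..((j : ℝ) / Q), qq (ru w (dirn th)) x‖

/-- the main item with the lower bound `G/2^24` of the curve -/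
def it0 (Na Nb Q j th om A l nL g0 g1 r0 r1 R0 R1 G : ℕ) : Bool :=
  let kL := tK A
  let lamL := tL A
  let wL := tW A
  let eL := tE nL
  let K := Nat.mul 5 (Nat.mul (Nat.add 512 A) (Nat.add 512 A))
  let co := cz 256 om
  let so := sz 256 om
  let cto := cz 512 (Nat.add th om)
  let sto := sz 512 (Nat.add th om)
  Nat.ble A 154 && (Nat.ble nL 255 && (Nat.ble 1 j && (Nat.ble j (Nat.mul 3 Q) &&
    (Nat.ble R0 4096 && (Nat.ble R1 4096 &&
      (Nat.ble (Nat.mul 10 (Nat.mul A (Nat.succ Na))) (Nat.mul 1536 Na) &&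
        (Nat.ble (Nat.mul (Nat.sub 512 A) j) (Nat.mul 1024 Q) &&
          (phiN Na Nb A l Q j th om g0 g1 r0 r1 kL (Nat.add kL 60) (Nat.add lamL 10) G &&
            (endN A l nL kL lamL wL eL K Q j co cto so sto R0 &&
              endN A l nL kL lamL wL eL K Q j co cto so sto R1)))))))))

section sound

variable {N : ℕ} {z w : Fin N → ℂ} {R : ℝ} {σ : Fin N → ℂ}

theorem it0_sound {Na Nb Q j th om A l nL g0 g1 r0 r1 R0 R1 G : ℕ} (hNa0 : 1 ≤ Na) (hNa : Na ≤ N)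
    (hNb : N ≤ Nb) (hQ : 0 < Q) (hg : g0 ≤ g1) (hC : Cfg2 N z w R σ) {r γ : ℝ}
    (hm : av (uu w) = (r : ℂ) * Complex.exp ((γ : ℂ) * Complex.I))
    (hr0 : (r0 : ℝ) / 4096 ≤ r) (hr1 : r ≤ (r1 : ℝ) / 4096)
    (hγ0 : (g0 : ℝ) / 64 ≤ γ) (hγ1 : γ ≤ (g1 : ℝ) / 64)
    (hR0 : (R0 : ℝ) / 1024 ≤ R) (hR1 : R ≤ (R1 : ℝ) / 1024)
    (hG : (G : ℝ) / 2 ^ 24 ≤ val w th Q j)
    (h : it0 Na Nb Q j th om A l nL g0 g1 r0 r1 R0 R1 G = true) : False := by
  unfold it0 at h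
  simp only [Bool.and_eq_true, Nat.ble_eq, Nat.add_eq, Nat.mul_eq, Nat.sub_eq,
    Nat.succ_eq_add_one] at h
  obtain ⟨c1, c2, c3, c4, c5, c6, c7, c8, c9, c10, c11⟩ := h
  have hK : 5 * ((512 + A) * (512 + A)) = 5 * (512 + A) ^ 2 := by ring
  rw [hK] at c10 c11
  have hang : ad om 256 ≤ 256 ∧ ad (th + om) 512 ≤ 256 := by
    have h := c9
    unfold phiN at h
    simp only [Bool.and_eq_true, Nat.ble_eq, Nat.add_eq] at h
    exact ⟨h.2.2.2.1, h.2.2.2.2.1⟩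
  obtain ⟨hom, hto⟩ := hang
  have hQr : (0 : ℝ) < Q := by exact_mod_cast hQ
  have hjr : (0 : ℝ) < j := by exact_mod_cast c3
  have ht : (0 : ℝ) < (j : ℝ) / Q := by positivity
  obtain ⟨e1, e2, e3⟩ := endN_sound c1 c2 hQ c4 c5 hom hto c10
  obtain ⟨f1, f2, f3⟩ := endN_sound c1 c2 hQ c4 c6 hom hto c11
  have hA154 : (A : ℝ) ≤ 154 := by exact_mod_cast c1
  have hA0 : (0 : ℝ) ≤ A := Nat.cast_nonneg _
  have hn : ∀ x : ℝ, ‖Complex.exp ((x : ℂ) * Complex.I)‖ = 1 := Complex.norm_exp_ofReal_mul_I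
  have hcert := cert_R (hn _) e1 f1 hR0 hR1
  have hn2 : ‖(R : ℂ) - (((j : ℝ) / Q : ℝ) : ℂ) *
      Complex.exp (((-(((th : ℝ) - 256) / 64) : ℝ) : ℂ) * Complex.I)‖ ≤ 1 / (1 + (A : ℝ) / 512) := by
    apply norm_segment _ _ hR0 hR1
    · rw [le_div_iff₀ (by positivity), mul_comm]; exact e2
    · rw [le_div_iff₀ (by positivity), mul_comm]; exact f2
  have hn3 : ‖(R : ℂ) - (((j : ℝ) / Q : ℝ) : ℂ) *
      Complex.exp (((-(((th : ℝ) - 256) / 64) : ℝ) : ℂ) * Complex.I)‖ ≤ (3 - (j : ℝ) / Q) / 2 := by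
    apply norm_segment _ _ hR0 hR1
    · linarith only [e3]
    · linarith only [f3]
  have ha : (A : ℝ) / 512 * (((N : ℝ) + 1) / N) ≤ 3 / 10 := by
    have hNar : (Na : ℝ) ≤ N := by exact_mod_cast hNa
    have hNa1 : (1 : ℝ) ≤ Na := by exact_mod_cast hNa0
    have hNp : (0 : ℝ) < N := by linarith only [hNar, hNa1]
    have h7 : (10 : ℝ) * (A * (Na + 1)) ≤ 1536 * Na := by exact_mod_cast c7
    have h8 : (10 : ℝ) * A ≤ 1536 := by
      by_contra hcon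
      push Not at hcon
      nlinarith only [h7, hcon]
    have h9 : (Na : ℝ) * (1536 - 10 * A) ≤ N * (1536 - 10 * A) :=
      mul_le_mul_of_nonneg_right hNar (by linarith only [h8])
    rw [← mul_div_assoc, div_le_iff₀ hNp]
    linarith only [h7, h9]
  have hG0 : (0 : ℝ) < N + 1 := by positivity
  have hphi := phiN_sound hNa hNb hQ c3 hg hr0 hr1 hγ0 hγ1 (by rw [(tab1 c1).1]; exact kapF_le c1)
    (κ := kap (A / 512)) (Λ := -Real.log (1 - ((A : ℝ) / 512) ^ 2) / 2)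
    (by rw [(tab1 c1).1]; push_cast; exact le_kapF c1)
    (by rw [(tab1 c1).2.1]; push_cast; exact le_lamF c1) c9
  obtain ⟨hGp, hphi⟩ := hphi
  have hGp' : (0 : ℝ) < G := by exact_mod_cast hGp
  have h4 : (1 - (A : ℝ) / 512) * ((j : ℝ) / Q - 2 * ‖(R : ℂ) - (((j : ℝ) / Q : ℝ) : ℂ) *
      Complex.exp (((-(((th : ℝ) - 256) / 64) : ℝ) : ℂ) * Complex.I)‖) ≤ 2 := by
    have h5 : (1 - (A : ℝ) / 512) * ((j : ℝ) / Q) ≤ 2 := by
      have h6 : ((512 - A : ℕ) : ℝ) * j ≤ 1024 * Q := by exact_mod_cast c8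
      rw [Nat.cast_sub (by omega)] at h6
      push_cast at h6
      rw [← mul_div_assoc, div_le_iff₀ hQr]
      linarith only [h6]
    have h6 : 0 ≤ (1 - (A : ℝ) / 512) * ‖(R : ℂ) - (((j : ℝ) / Q : ℝ) : ℂ) *
      Complex.exp (((-(((th : ℝ) - 256) / 64) : ℝ) : ℂ) * Complex.I)‖ :=
      mul_nonneg (by linarith only [hA154]) (norm_nonneg _)
    linarith only [h5, h6]
  have hpol := polar hC (a := (A : ℝ) / 512) (l := (l : ℝ) / 2 ^ 24) (t := (j : ℝ) / Q)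
    (G := (G : ℝ) / 2 ^ 24 / (N + 1)) (θ := ((th : ℝ) - 256) / 64) (ο := ((om : ℝ) - 256) / 64)
    hm ht hcert ha (by
      have := mul_le_mul_of_nonneg_left hn2 (show (0 : ℝ) ≤ 1 + A / 512 by positivity)
      refine this.trans (le_of_eq ?_)
      field_simp) (by linarith only [hn3]) h4 (by positivity) (by
      rw [div_le_iff₀ hG0, mul_comm]
      exact hG)
  have e5 : ((N : ℝ) + 1) * ((G : ℝ) / 2 ^ 24 / (N + 1)) / ((j : ℝ) / Q) =
      (G : ℝ) / 2 ^ 24 / ((j : ℝ) / Q) := by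
    field_simp
  rw [e5] at hpol
  linarith only [hphi, hpol]

/-! ### distance of `R` and `conj m` -/

/-- `|R - r e^{iγ}|² ≤ d/400` -/
def dst (d R r c : ℕ) : Bool :=
  Nat.ble (Nat.mul 400 (Nat.add (Nat.mul (Nat.add (Nat.mul (Nat.mul 4 R) (Nat.mul 4 R))
      (Nat.mul r r)) 1099511627776) (Nat.mul (Nat.mul (Nat.mul 8 R) r) 2199023255552)))
    (Nat.add (Nat.mul d 18446744073709551616) (Nat.mul 400 (Nat.mul (Nat.mul (Nat.mul 8 R) r) c)))

theorem dst_sound {d R r c : ℕ} {x : ℝ} (hx : ((c : ℝ) - 2 ^ 41) / 2 ^ 40 ≤ x)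
    (h : dst d R r c = true) :
    ((R : ℝ) / 1024) ^ 2 - 2 * (R / 1024) * (r / 4096) * x + (r / 4096) ^ 2 ≤ d / 400 := by
  unfold dst at h
  simp only [Nat.ble_eq, Nat.add_eq, Nat.mul_eq] at h
  have h1 : (400 : ℝ) * ((4 * R * (4 * R) + r * r) * 1099511627776 + 8 * R * r * 2199023255552) ≤
      d * 18446744073709551616 + 400 * (8 * R * r * c) := by exact_mod_cast h
  have h2 : (0 : ℝ) ≤ 2 * (R / 1024) * (r / 4096) := by positivity
  have h3 := mul_le_mul_of_nonneg_left hx h2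
  have h4 : ((R : ℝ) / 1024) ^ 2 - 2 * (R / 1024) * (r / 4096) * (((c : ℝ) - 2 ^ 41) / 2 ^ 40) +
      (r / 4096) ^ 2 = (400 * ((4 * R * (4 * R) + r * r) * 1099511627776 +
        8 * R * r * 2199023255552) - 400 * (8 * R * r * c)) / (400 * 18446744073709551616) := by
    ring
  have h5 : (400 * ((4 * (R : ℝ) * (4 * R) + r * r) * 1099511627776 +
        8 * R * r * 2199023255552) - 400 * (8 * R * r * c)) / (400 * 18446744073709551616) ≤
        d / 400 := by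
    rw [div_le_div_iff₀ (by norm_num) (by norm_num)]
    linarith only [h1]
  linarith only [h1, h3]

/-- all four corners -/
def dst4 (d R0 R1 r0 r1 c : ℕ) : Bool :=
  dst d R0 r0 c && (dst d R0 r1 c && (dst d R1 r0 c && dst d R1 r1 c))

theorem quad_conv {A B x y x0 x1 y0 y1 c : ℝ} (hA : A = x ^ 2 - 2 * x * y * c + y ^ 2)
    (hx0 : x0 ≤ x) (hx1 : x ≤ x1) (hy0 : y0 ≤ y) (hy1 : y ≤ y1)
    (h00 : x0 ^ 2 - 2 * x0 * y0 * c + y0 ^ 2 ≤ B) (h01 : x0 ^ 2 - 2 * x0 * y1 * c + y1 ^ 2 ≤ B)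
    (h10 : x1 ^ 2 - 2 * x1 * y0 * c + y0 ^ 2 ≤ B) (h11 : x1 ^ 2 - 2 * x1 * y1 * c + y1 ^ 2 ≤ B) :
    A ≤ B := by
  have key : ∀ X : ℝ, X ^ 2 - 2 * X * y0 * c + y0 ^ 2 ≤ B → X ^ 2 - 2 * X * y1 * c + y1 ^ 2 ≤ B →
      X ^ 2 - 2 * X * y * c + y ^ 2 ≤ B := by
    intro X h0 h1
    rcases le_total (y0 + y) (2 * X * c) with h | h
    · nlinarith only [hy0, h0, h]
    · nlinarith only [hy0, hy1, h1, h]
  have k0 := key x0 h00 h01
  have k1 := key x1 h10 h11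
  rw [hA]
  rcases le_total (x0 + x) (2 * y * c) with h | h
  · nlinarith only [hx0, k0, h]
  · nlinarith only [hx0, hx1, k1, h]

theorem dst4_sound {d R0 R1 r0 r1 g : ℕ} {r γ : ℝ} (hC : Cfg2 N z w R σ)
    (hm : av (uu w) = (r : ℂ) * Complex.exp ((γ : ℂ) * Complex.I)) (hg : g ≤ 201)
    (hr0 : (r0 : ℝ) / 4096 ≤ r) (hr1 : r ≤ (r1 : ℝ) / 4096)
    (hγ0 : 0 ≤ γ) (hγ1 : γ ≤ (g : ℝ) / 64)
    (hR0 : (R0 : ℝ) / 1024 ≤ R) (hR1 : R ≤ (R1 : ℝ) / 1024)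
    (h : dst4 d R0 R1 r0 r1 (tc g - 1) = true) :
    ‖(R : ℂ) - conj (av (uu w))‖ ^ 2 ≤ d / 400 := by
  have hcos : Real.cos ((g : ℝ) / 64) ≤ Real.cos γ := by
    apply Real.cos_le_cos_of_nonneg_of_le_pi hγ0 _ hγ1
    have h1 : (g : ℝ) ≤ 201 := by exact_mod_cast hg
    have := Real.pi_gt_d6
    norm_num at this
    linarith only [h1, this]
  have htc : 1 ≤ tc g := by
    have h3 := abs_le.1 (trig_tab (show g ≤ 256 by omega)).1
    have h4 := Real.neg_one_le_cos ((g : ℝ) / 64)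
    have h5 : (1 : ℝ) ≤ tc g := by
      have := h3.1
      norm_num at this
      linarith only [h3, h4]
    exact_mod_cast h5
  have hx : (((tc g - 1 : ℕ) : ℝ) - 2 ^ 41) / 2 ^ 40 ≤ Real.cos γ := by
    refine le_trans ?_ hcos
    have h3 := abs_le.1 (trig_tab (show g ≤ 256 by omega)).1
    rw [div_le_iff₀ (by norm_num), Nat.cast_sub htc, Nat.cast_one]
    linarith only [h3, h3.2]
  unfold dst4 at h
  simp only [Bool.and_eq_true] at h
  obtain ⟨d1, d2, d3, d4⟩ := h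
  have hn : ‖(R : ℂ) - conj (av (uu w))‖ ^ 2 = R ^ 2 - 2 * R * r * Real.cos γ + r ^ 2 := by
    rw [hm, norm_sq_re_im]
    have h1 : (((r : ℂ) * Complex.exp ((γ : ℂ) * Complex.I))).re = r * Real.cos γ := by
      rw [Complex.re_ofReal_mul, Complex.exp_ofReal_mul_I_re]
    have h2 : (((r : ℂ) * Complex.exp ((γ : ℂ) * Complex.I))).im = r * Real.sin γ := by
      rw [Complex.im_ofReal_mul, Complex.exp_ofReal_mul_I_im]
    rw [Complex.sub_re, Complex.sub_im, Complex.conj_re, Complex.conj_im, h1, h2,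
      Complex.ofReal_re, Complex.ofReal_im]
    have := Real.sin_sq_add_cos_sq γ
    nlinarith only [this]
  exact quad_conv hn hR0 hR1 hr0 hr1 (dst_sound hx d1) (dst_sound hx d2) (dst_sound hx d3)
    (dst_sound hx d4)

/-- the corner item -/
def itLoc (Na g1 r0 r1 R0 R1 : ℕ) : Bool :=
  Nat.ble g1 201 && (Nat.ble 4 Na && (Nat.ble 77824 (Nat.mul 20 r0) &&
    ((Nat.ble 5 Na || Nat.ble 200704 (Nat.mul 50 r0)) &&
      dst4 9 R0 R1 r0 r1 (Nat.sub (tc g1) 1))))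

theorem av_norm {r γ : ℝ} (hr : 0 ≤ r)
    (hm : av (uu w) = (r : ℂ) * Complex.exp ((γ : ℂ) * Complex.I)) : ‖av (uu w)‖ = r := by
  rw [hm, norm_mul, Complex.norm_exp_ofReal_mul_I, mul_one, Complex.norm_real,
    Real.norm_of_nonneg hr]

theorem itLoc_sound {Na g1 r0 r1 R0 R1 : ℕ} {r γ : ℝ} (hNa : Na ≤ N) (hC : Cfg2 N z w R σ)
    (hm : av (uu w) = (r : ℂ) * Complex.exp ((γ : ℂ) * Complex.I))
    (hr0 : (r0 : ℝ) / 4096 ≤ r) (hr1 : r ≤ (r1 : ℝ) / 4096)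
    (hγ0 : 0 ≤ γ) (hγ1 : γ ≤ (g1 : ℝ) / 64)
    (hR0 : (R0 : ℝ) / 1024 ≤ R) (hR1 : R ≤ (R1 : ℝ) / 1024)
    (h : itLoc Na g1 r0 r1 R0 R1 = true) : False := by
  unfold itLoc at h
  simp only [Bool.and_eq_true, Bool.or_eq_true, Nat.ble_eq, Nat.mul_eq, Nat.sub_eq] at h
  obtain ⟨h1, h2, h3, h4, h5⟩ := h
  have h6 := dst4_sound hC hm h1 hr0 hr1 hγ0 hγ1 hR0 hR1 h5
  have hr : 0 ≤ r := le_trans (div_nonneg (Nat.cast_nonneg _) (by norm_num)) hr0
  have h3' : (77824 : ℝ) ≤ 20 * r0 := by exact_mod_cast h3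
  refine Pool.Agent.Lib.MP_af3a4a_an.P1.H74.Loc.loc hC (by omega) ?_ ?_ ?_
  · intro h7
    rw [av_norm hr hm]
    rcases h4 with h4 | h4
    · omega
    · have h4' : (200704 : ℝ) ≤ 50 * r0 := by exact_mod_cast h4
      linarith only [hr0, h4']
  · rw [av_norm hr hm]
    linarith only [hr0, h3']
  · apply le_of_sq_le_sq _ (by norm_num)
    refine h6.trans ?_
    norm_num

theorem nearP_small : ∀ n < 401, Pool.Agent.Lib.MP_af3a4a_an.P1.H74.Near.nearP (n + 1) ≤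
    Pool.Agent.Lib.MP_af3a4a_an.P1.H74.Near.nearP n := by decide +kernel

theorem nearP_large {n : ℕ} (h : 400 ≤ n) : Pool.Agent.Lib.MP_af3a4a_an.P1.H74.Near.nearP n = 2900 := by
  unfold Pool.Agent.Lib.MP_af3a4a_an.P1.H74.Near.nearP
  iterate 42 rw [if_neg (by omega)]

theorem nearP_anti {a b : ℕ} (h : a ≤ b) : Pool.Agent.Lib.MP_af3a4a_an.P1.H74.Near.nearP b ≤
    Pool.Agent.Lib.MP_af3a4a_an.P1.H74.Near.nearP a := by
  refine antitone_nat_of_succ_le (fun n => ?_) h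
  by_cases hn : n < 401
  · exact nearP_small n hn
  · rw [nearP_large (by omega), nearP_large (by omega)]

theorem nearP_pos (n : ℕ) : 2900 ≤ Pool.Agent.Lib.MP_af3a4a_an.P1.H74.Near.nearP n := by
  have h := nearP_anti (show n ≤ max n 400 by omega)
  rw [nearP_large (by omega)] at h
  exact h

/-- the near item -/
def itNear (Na g1 r0 r1 R0 R1 : ℕ) : Bool :=
  Nat.ble g1 201 && (Nat.ble 7 Na &&
    (Nat.ble (Nat.add (Nat.mul (Nat.mul 4096 (Pool.Agent.Lib.MP_af3a4a_an.P1.H74.Near.nearP Na)) 1099511627776)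
        (Nat.mul (Nat.mul 10000 r0) 2199023255552))
      (Nat.mul (Nat.mul 10000 r0) (Nat.sub (tc g1) 1)) &&
      dst4 25 R0 R1 r0 r1 (Nat.sub (tc g1) 1)))

theorem itNear_sound {Na g1 r0 r1 R0 R1 : ℕ} {r γ : ℝ} (hNa : Na ≤ N) (hC : Cfg2 N z w R σ)
    (hm : av (uu w) = (r : ℂ) * Complex.exp ((γ : ℂ) * Complex.I))
    (hr0 : (r0 : ℝ) / 4096 ≤ r) (hr1 : r ≤ (r1 : ℝ) / 4096)
    (hγ0 : 0 ≤ γ) (hγ1 : γ ≤ (g1 : ℝ) / 64)
    (hR0 : (R0 : ℝ) / 1024 ≤ R) (hR1 : R ≤ (R1 : ℝ) / 1024)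
    (h : itNear Na g1 r0 r1 R0 R1 = true) : False := by
  unfold itNear at h
  simp only [Bool.and_eq_true, Nat.ble_eq, Nat.mul_eq, Nat.sub_eq, Nat.add_eq] at h
  obtain ⟨h1, h2, h3, h5⟩ := h
  have h6 := dst4_sound hC hm h1 hr0 hr1 hγ0 hγ1 hR0 hR1 h5
  have hr : 0 ≤ r := le_trans (div_nonneg (Nat.cast_nonneg _) (by norm_num)) hr0
  have htc : 1 ≤ tc g1 := by
    have h3 := abs_le.1 (trig_tab (show g1 ≤ 256 by omega)).1
    have h4 := Real.neg_one_le_cos ((g1 : ℝ) / 64)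
    have h5 : (1 : ℝ) ≤ tc g1 := by
      have := h3.1
      norm_num at this
      linarith only [h3, h4]
    exact_mod_cast h5
  have hcos : Real.cos ((g1 : ℝ) / 64) ≤ Real.cos γ := by
    apply Real.cos_le_cos_of_nonneg_of_le_pi hγ0 _ hγ1
    have h1 : (g1 : ℝ) ≤ 201 := by exact_mod_cast h1
    have := Real.pi_gt_d6
    norm_num at this
    linarith only [h1, this]
  have hx : ((tc g1 : ℝ) - 1 - 2 ^ 41) / 2 ^ 40 ≤ Real.cos γ := by
    refine le_trans ?_ hcos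
    have h3 := abs_le.1 (trig_tab (show g1 ≤ 256 by omega)).1
    rw [div_le_iff₀ (by norm_num)]
    linarith only [h3, h3.2]
  have hN7 : 7 ≤ N := by omega
  refine Pool.Agent.Lib.MP_af3a4a_an.P1.H74.Near.near hN7 hC ?_ ?_
  · have hre : (av (uu w)).re = r * Real.cos γ := by
      rw [hm, Complex.re_ofReal_mul, Complex.exp_ofReal_mul_I_re]
    rw [hre]
    have h3' : (4096 : ℝ) * (Pool.Agent.Lib.MP_af3a4a_an.P1.H74.Near.nearP Na) * 1099511627776 + 10000 * r0 * 2199023255552 ≤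
        10000 * r0 * ((tc g1 - 1 : ℕ) : ℝ) := by exact_mod_cast h3
    rw [Nat.cast_sub htc, Nat.cast_one] at h3'
    have h7 : (Pool.Agent.Lib.MP_af3a4a_an.P1.H74.Near.nearP N : ℝ) ≤ Pool.Agent.Lib.MP_af3a4a_an.P1.H74.Near.nearP Na := by exact_mod_cast nearP_anti hNa
    have h8 : (Pool.Agent.Lib.MP_af3a4a_an.P1.H74.Near.nearP Na : ℝ) / 10000 ≤ (r0 : ℝ) / 4096 * (((tc g1 : ℝ) - 1 - 2 ^ 41) / 2 ^ 40) := by
      have e : (r0 : ℝ) / 4096 * (((tc g1 : ℝ) - 1 - 2 ^ 41) / 2 ^ 40) =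
        (10000 * r0 * ((tc g1 : ℝ) - 1) - 10000 * r0 * 2199023255552) /
          (4096 * 1099511627776 * 10000) := by ring
      rw [e, div_le_div_iff₀ (by norm_num) (by norm_num)]
      linarith only [h3']
    have h9 : 0 ≤ (Pool.Agent.Lib.MP_af3a4a_an.P1.H74.Near.nearP Na : ℝ) / 10000 := by positivity
    have h10 : 0 ≤ Real.cos γ := by
      have h11 : 0 ≤ (r0 : ℝ) / 4096 * (((tc g1 : ℝ) - 1 - 2 ^ 41) / 2 ^ 40) := h9.trans h8
      by_contra hneg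
      push Not at hneg
      have h12 : ((tc g1 : ℝ) - 1 - 2 ^ 41) / 2 ^ 40 < 0 := lt_of_le_of_lt hx hneg
      have h13 : 0 < (Pool.Agent.Lib.MP_af3a4a_an.P1.H74.Near.nearP Na : ℝ) := by
        have : 0 < Pool.Agent.Lib.MP_af3a4a_an.P1.H74.Near.nearP Na :=
          lt_of_lt_of_le (by norm_num) (nearP_pos Na)
        exact_mod_cast this
      have h14 : 0 < (Pool.Agent.Lib.MP_af3a4a_an.P1.H74.Near.nearP Na : ℝ) / 10000 := by positivity
      have h15 : (r0 : ℝ) / 4096 * (((tc g1 : ℝ) - 1 - 2 ^ 41) / 2 ^ 40) ≤ 0 :=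
        mul_nonpos_of_nonneg_of_nonpos (by positivity) h12.le
      linarith only [h3', h13, h15]
    have h11 : (r0 : ℝ) / 4096 * (((tc g1 : ℝ) - 1 - 2 ^ 41) / 2 ^ 40) ≤ r * Real.cos γ :=
      (mul_le_mul_of_nonneg_left hx (by positivity)).trans (mul_le_mul_of_nonneg_right hr0 h10)
    have h12 : (Pool.Agent.Lib.MP_af3a4a_an.P1.H74.Near.nearP N : ℝ) / 10000 ≤ (Pool.Agent.Lib.MP_af3a4a_an.P1.H74.Near.nearP Na : ℝ) / 10000 :=
      div_le_div_of_nonneg_right h7 (by norm_num)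
    linarith only [h3', h7, h11]
  · apply le_of_sq_le_sq _ (by norm_num)
    refine h6.trans ?_
    norm_num

end sound

end Pool.Agent.Lib.MP_af3a4a_an.P1.CHK.BOX
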