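import Pool.Agent.Lib.MP_af3a4a_an.P1.CHK.BOX.Tl

/-!
# Box layer: the interface for the data files (council 2, helper11)

A data file contains curves `c : CD` with `c_ok : crvOK Na Nb Q c = true` (by `decide +kernel`),
families `f : Fam` with `f_ok : FamP Q f`, a tree, and the theorem `chk_sound`.
-/

set_option autoImplicit false

namespace Pool.Agent.Lib.MP_af3a4a_an.P1.CHK.BOX

/-- no further kinds of items -/
def xNo (_ _ _ _ _ _ _ _ : ℕ) : Bool := false

theorem xNo_ok (Na Nb Q : ℕ) : XP xNo Na Nb Q := by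
  intro G it r0 r1 g0 g1 R0 R1 h
  exact Bool.noConfusion h

/-- the check of a chunk without further kinds of items -/
noncomputable def chk (Na Nb Q : ℕ) (C : List Crv) (T : List Fam) (r0 r1 g0 g1 R0 R1 : ℕ)
    (t : Tree) : Bool :=
  Nat.ble 1 Na && (Nat.ble 1 Q && chunk xNo (tlF Na Nb Q T) Na Nb Q C r0 r1 g0 g1 R0 R1 t)

theorem chk_sound {Na Nb Q : ℕ} {C : List Crv} {T : List Fam} {r0 r1 g0 g1 R0 R1 : ℕ} {t : Tree}
    (hCr : ∀ c ∈ C, CrvP Na Nb Q c) (hT : ∀ f ∈ T, FamP Q f)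
    (h : chk Na Nb Q C T r0 r1 g0 g1 R0 R1 t = true) : ChunkP Na Nb r0 r1 g0 g1 R0 R1 := by
  unfold chk at h
  simp only [Bool.and_eq_true, Nat.ble_eq] at h
  exact chunk_sound h.1 h.2.1 (xNo_ok Na Nb Q) (tlF_sound hT) hCr h.2.2

theorem all_nil {α : Type} {P : α → Prop} : ∀ a ∈ ([] : List α), P a := by simp

theorem all_cons {α : Type} {P : α → Prop} {a : α} {l : List α} (h : P a) (hl : ∀ b ∈ l, P b) :
    ∀ b ∈ a :: l, P b := by
  intro b hb
  rcases List.mem_cons.1 hb with h1 | h1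
  · rw [h1]; exact h
  · exact hl b h1

end Pool.Agent.Lib.MP_af3a4a_an.P1.CHK.BOX
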