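import Pool.Agent.Lib.MP_af3a4a_an.P1.CHK.BOX.CrvOK
import Pool.Agent.Lib.MP_af3a4a_an.P1.CHK.TAIL.NTail

/-!
# Box layer: the tails (council 2, helper11)
-/

set_option autoImplicit false

namespace Pool.Agent.Lib.MP_af3a4a_an.P1.CHK.BOX

open MeasureTheory intervalIntegral ComplexConjugate
open Pool.Agent.Lib.MP_af3a4a_an.SV (uu av sq EE)
open Pool.Agent.Lib.MP_af3a4a_an.P1.H80
open Pool.Agent.Lib.MP_af3a4a_an.P1.CHK.H80
open Pool.Agent.Lib.MP_af3a4a_an.P1.CHK.Arith

/-- A family of node duals (helper62): units of `R` are `1/M`, direction `k/64`, `R` in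
`[R0/M, R1/M]`, `n` entries in `F`. -/
structure Fam where
  M : ℕ
  k : ℕ
  R0 : ℕ
  R1 : ℕ
  F : ℕ
  n : ℕ

/-- the family is correct -/
def FamP (Q : ℕ) (f : Fam) : Prop := 0 < f.M ∧ TAIL.FamN f.M Q f.k f.R0 f.R1 f.F f.n

/-- from the correctness of the node duals -/
theorem famP_of {M Q k r0 r1 F n : ℕ} (hM : 0 < M) (h : TAIL.FamN M Q k r0 r1 F n) :
    FamP Q ⟨M, k, r0, r1, F, n⟩ := ⟨hM, h⟩

/-- the maximum of `|γ - θ|` over the box, in `1/64` -/
def hMax (g0 g1 th : ℕ) : ℕ := ma (ad (Nat.add g0 256) th) (ad (Nat.add g1 256) th)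

/-- the tail function -/
noncomputable def tlF (Na Nb Q : ℕ) (T : List Fam) (r0 r1 g0 g1 R0 R1 it : ℕ) : ℕ :=
  (fun f h lp ln =>
    bif Nat.ble (Nat.mul 1024 (Fam.R0 f)) (Nat.mul R0 (Fam.M f)) &&
        (Nat.ble (Nat.mul R1 (Fam.M f)) (Nat.mul 1024 (Fam.R1 f)) &&
          (Nat.beq (iTh it) (Nat.add 256 (Fam.k f)) && (Nat.ble g1 256 && (Nat.ble h 201 &&
            (Nat.ble 1 (Fam.M f) && (Nat.ble 1 Na &&
            Nat.ble ln (Nat.add lp 1099511627776))))))) then
      TAIL.tailN Na Nb Q r0 r1 g0 g1 lp ln (Fam.F f) (Fam.n f) (iI0 it) (iK it) (iMask it) (iJs it)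
        (iJe it)
    else 4294967296)
  (pick ⟨0, 0, 0, 0, 0, 0⟩ T (iFam it)) (hMax g0 g1 (iTh it))
  (lpF r0 r1 (hMax g0 g1 (iTh it))) (lnF r0 r1 (hMax g0 g1 (iTh it)))

theorem dr_eq {th k : ℕ} (h : th = 256 + k) : dirn th = TAIL.dr k := by
  unfold dirn TAIL.dr
  rw [h]
  congr 1
  push_cast
  ring

theorem tlF_sound {Na Nb Q : ℕ} {T : List Fam} (hT : ∀ f ∈ T, FamP Q f) :
    TlP Na Nb Q (tlF Na Nb Q T) := by
  intro r0 r1 g0 g1 R0 R1 it N hNa hNb z w R σ hC r γ hB hlt
  obtain ⟨hm, hr, hγ, hγ2, hRr, h1, h2, h3, h4, h5, h6⟩ := hB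
  have hg : g0 ≤ g1 := by
    have : (g0 : ℝ) ≤ g1 := by linarith
    exact_mod_cast this
  unfold tlF at hlt ⊢
  simp only at hlt ⊢
  obtain ⟨f, hf⟩ : ∃ f, f = pick (⟨0, 0, 0, 0, 0, 0⟩ : Fam) T (iFam it) := ⟨_, rfl⟩
  rw [← hf] at hlt ⊢
  cases hb : (Nat.ble (Nat.mul 1024 (Fam.R0 f)) (Nat.mul R0 (Fam.M f)) &&
        (Nat.ble (Nat.mul R1 (Fam.M f)) (Nat.mul 1024 (Fam.R1 f)) &&
          (Nat.beq (iTh it) (Nat.add 256 (Fam.k f)) && (Nat.ble g1 256 &&
            (Nat.ble (hMax g0 g1 (iTh it)) 201 && (Nat.ble 1 (Fam.M f) && (Nat.ble 1 Na &&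
            Nat.ble (lnF r0 r1 (hMax g0 g1 (iTh it)))
              (Nat.add (lpF r0 r1 (hMax g0 g1 (iTh it))) 1099511627776)))))))) with
  | false =>
    rw [hb, cond_false] at hlt
    exact absurd hlt (lt_irrefl _)
  | true =>
    rw [hb, cond_true] at hlt
    rw [cond_true]
    simp only [Bool.and_eq_true, Nat.ble_eq, Nat.mul_eq, Nat.add_eq] at hb
    obtain ⟨b1, b2, b3, b4, b5, b6, b7, b8⟩ := hb
    replace b3 := Nat.eq_of_beq_eq_true b3
    -- the family is correct
    have hfam : FamP Q f := by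
      by_cases hq : FamP Q f
      · exact hq
      · exfalso
        have hd : f ≠ ⟨0, 0, 0, 0, 0, 0⟩ := by
          rintro rfl
          exact absurd b6 (by norm_num)
        -- `f` is a member of `T`
        have key : ∀ (l : List Fam) (i : ℕ), pick (⟨0, 0, 0, 0, 0, 0⟩ : Fam) l i ≠
            ⟨0, 0, 0, 0, 0, 0⟩ → pick (⟨0, 0, 0, 0, 0, 0⟩ : Fam) l i ∈ l := by
          intro l
          induction l with
          | nil => exact fun i h => absurd rfl h
          | cons c l ih =>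
            intro i h
            cases i with
            | zero => exact List.mem_cons_self
            | succ k => exact List.mem_cons_of_mem _ (ih k h)
        rw [hf] at hd
        have := hT _ (key T (iFam it) hd)
        rw [← hf] at this
        exact hq this
    obtain ⟨hM, hF⟩ := hfam
    have hMr : (0 : ℝ) < f.M := by exact_mod_cast hM
    obtain ⟨h, hh⟩ : ∃ h, h = hMax g0 g1 (iTh it) := ⟨_, rfl⟩
    rw [← hh] at hlt b5 b8 ⊢
    have hdr := dr_eq b3
    have hr1' : r ≤ 1 := by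
      have := hC.av_le
      rwa [hm, norm_mul, Complex.norm_exp_ofReal_mul_I, mul_one, Complex.norm_real,
        Real.norm_of_nonneg hr.le] at this
    -- the real part
    have hre : (av (ru w (TAIL.dr f.k))).re = r * Real.cos |γ - (f.k : ℝ) / 64| := by
      have hav : av (ru w (TAIL.dr f.k)) =
          (r : ℂ) * Complex.exp (((γ - (f.k : ℝ) / 64 : ℝ) : ℂ) * Complex.I) := by
        rw [av_ru, hm, TAIL.dr, mul_left_comm, ← Complex.exp_add]
        congr 2
        push_cast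
        ring
      rw [hav, Complex.re_ofReal_mul, Complex.exp_ofReal_mul_I_re, Real.cos_abs]
    have hx1 : |γ - (f.k : ℝ) / 64| ≤ (h : ℝ) / 64 := by
      have m1 : ((ad (g0 + 256) (iTh it) : ℕ) : ℝ) ≤ h := by
        rw [hh]; exact_mod_cast (le_ma _ _).1
      have m2 : ((ad (g1 + 256) (iTh it) : ℕ) : ℝ) ≤ h := by
        rw [hh]; exact_mod_cast (le_ma _ _).2
      rw [ad_cast] at m1 m2
      rw [b3] at m1 m2
      push_cast at m1 m2
      have m1' := (abs_le.1 m1).1
      have m2' := (abs_le.1 m2).2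
      rw [abs_le]
      constructor
      · linarith
      · linarith
    have hlo := lF_spec b5 h1 h2 hr1' (h0 := 0)
      (by rw [Nat.cast_zero, zero_div]; exact abs_nonneg _) hx1
    have e40 : (2 : ℝ) ^ 40 = 1099511627776 := by norm_num
    rw [e40] at hlo
    have hres := TAIL.tailN_sound (i0 := iI0 it) (K := iK it) (mask := iMask it) (js := iJs it)
      (je := iJe it) (w := w) (R := R) hF
      (by
        rw [div_le_iff₀ hMr]
        have : (1024 : ℝ) * f.R0 ≤ R0 * f.M := by exact_mod_cast b1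
        have h7 := mul_le_mul_of_nonneg_right h5 hMr.le
        linarith)
      (by
        rw [le_div_iff₀ hMr]
        have : (R1 : ℝ) * f.M ≤ 1024 * f.R1 := by exact_mod_cast b2
        have h7 := mul_le_mul_of_nonneg_right h6 hMr.le
        linarith)
      b7 hNa hNb (fun i => hC.cfg.far i) hC.dist.le h1 h2 hg b4 h3 h4 hm
      (by
        rw [hre]
        unfold Curve.mr
        rw [sub_div]
        exact hlo)
      b8 hlt
    rw [hdr]
    exact hres

end Pool.Agent.Lib.MP_af3a4a_an.P1.CHK.BOX
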